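import Pool.Agent.Work.MP_194f66_an.Room

open scoped InnerProductSpace ComplexConjugate
open ContinuousLinearMap InnerProductSpace

namespace Pool.Agent.Work.MP_194f66_an

/-- the group of invertible upper triangular operators, as a set -/
def GG : Set Op := {T | ∃ T', Inv T T'}

theorem joined_mul {A B : Op} (hA : JoinedIn GG 1 A) (hB : JoinedIn GG 1 B) :
    JoinedIn GG 1 (A * B) := by
  obtain ⟨γ1, h1⟩ := hA
  obtain ⟨γ2, h2⟩ := hB
  have h3 : JoinedIn GG (1 * 1) (A * B) := by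
    refine ⟨γ1.mul γ2, fun t => ?_⟩
    obtain ⟨a, ha⟩ := h1 t
    obtain ⟨b, hb⟩ := h2 t
    exact ⟨b * a, ha.mul_inv hb⟩
  rwa [one_mul] at h3

theorem joined_inv {A A' : Op} (h : Inv A A') (hA : JoinedIn GG 1 A) : JoinedIn GG 1 A' := by
  obtain ⟨γ1, h1⟩ := hA
  have h3 : JoinedIn GG (A' * 1) (A' * A) := by
    refine ⟨(Path.refl A').mul γ1, fun t => ?_⟩
    obtain ⟨a, ha⟩ := h1 t
    exact ⟨a * A, h.symm.mul_inv ha⟩
  rw [mul_one, h.mul'] at h3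
  exact h3.symm

theorem joined_one_add {Z : Op} (h1 : UT Z) (h2 : ‖Z‖ ≤ 9 / 10) : JoinedIn GG 1 (1 + Z) := by
  refine JoinedIn.ofLine (f := fun t : ℝ => 1 + (t : ℂ) • Z) (by fun_prop) (by simp) (by simp) ?_
  rintro _ ⟨t, ht, rfl⟩
  refine exists_inv_one_add (h1.smul _) ?_
  rw [norm_smul, Complex.norm_real, Real.norm_eq_abs, abs_of_nonneg ht.1]
  have : t * ‖Z‖ ≤ 1 * (9 / 10) := by
    have := ht.2
    gcongr
  linarith

theorem joined_El {n : ℕ} : ∀ {g : Op}, El Set.univ n g → JoinedIn GG 1 g := by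
  induction n with
  | zero =>
    intro g hg
    rw [show g = 1 from hg]
    exact JoinedIn.refl ⟨1, Inv.one⟩
  | succ n ih =>
    rintro g ⟨Z, h, hh, h1, -, h3, rfl⟩
    exact joined_mul (joined_one_add h1 h3) (ih hh)

theorem joined_near (hM : Halving) {R R' : Op} (h : NearU R R' (1 / 100000)) :
    JoinedIn GG 1 R := by
  obtain ⟨N, hN⟩ := telescope hM 82 (2 ^ 72) 1024 (by norm_num) (by norm_num) (by norm_num)
    (ν := 28 ^ 2 * (28 ^ 2 + 1) / ((2 ^ 72 : ℕ) : ℝ)) rfl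
    (by push_cast; norm_num) (by push_cast; norm_num)
  have hg : Monotone (fun n : ℕ => n / (2 ^ 82 + 2 * 2 ^ 72)) :=
    fun a b hab => Nat.div_le_div_right hab
  obtain ⟨S, S', hS, hSB, hRS, -⟩ := remove_blocks hg h (by norm_num)
  obtain ⟨N1, hN1⟩ := El.pinch (2 ^ 82 + 2 * 2 ^ 72) (by norm_num) (11 / 10)
  obtain ⟨hRn, hRn'⟩ := norm_inv_of_nearU h (by norm_num)
  have h1 := joined_El (hN1 R R' h.toInv hRn hRn')
  obtain ⟨C, p0, hC, hp0, hCp, hCb, hp0b, T, T', hT, hTn, hTn', Z, hZ, hZn, hZS⟩ :=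
    room hM 82 (2 ^ 72) (by norm_num) (by norm_num) hS (by norm_num) (by norm_num) hSB
  obtain ⟨E1, E2, hE1, hE2, hE⟩ := hN C p0 hC hp0 hCp hCb hp0b T T' hT hTn hTn'
  obtain ⟨E2', hE2'⟩ := hE2.inv
  obtain ⟨W, hW⟩ := exists_inv_one_add hZ (by linarith : ‖Z‖ < 1)
  have h2 := joined_inv hW (joined_one_add hZ hZn)
  have h3 := joined_El hE1
  have h4 := joined_inv hE2' (joined_El hE2)
  have h5 : S = W * E1 * E2' := by
    rw [hE, hZS]
    calc S = (W * (1 + Z)) * S * (E2 * E2') := by rw [hW.mul', hE2'.mul, one_mul, mul_one]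
      _ = _ := by simp only [mul_assoc]
  rw [hRS]
  refine joined_mul h1 ?_
  rw [h5]
  exact joined_mul (joined_mul h2 h3) h4

theorem joined_prodSeq (R : ℕ → Op) (n : ℕ) (h : ∀ i, i < n → JoinedIn GG 1 (R i)) :
    JoinedIn GG 1 (prodSeq R n) := by
  induction n with
  | zero => exact JoinedIn.refl ⟨1, Inv.one⟩
  | succ n ih =>
    exact joined_mul (h n (Nat.lt_succ_self n)) (ih (fun i hi => h i (Nat.lt_succ_of_lt hi)))

theorem joined_all (hM : Halving) {T T' : Op} (h : Inv T T') : JoinedIn GG 1 T := by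
  obtain ⟨K, hK⟩ : ∃ K : ℝ, K = max 1 (max ‖T‖ ‖T'‖) := ⟨_, rfl⟩
  have hK1 : 1 ≤ K := by rw [hK]; exact le_max_left _ _
  have hKT : ‖T‖ ≤ K := by rw [hK]; exact (le_max_left _ _).trans (le_max_right _ _)
  have hKT' : ‖T'‖ ≤ K := by rw [hK]; exact (le_max_right _ _).trans (le_max_right _ _)
  obtain ⟨n, hn⟩ := exists_nat_ge (K ^ 2 * (K ^ 2 + 1) * 100000 + 1)
  have hpos : 0 < K ^ 2 * (K ^ 2 + 1) := by positivity
  have hn0 : (0 : ℝ) < n := by linarith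
  have hn0' : 0 < n := by exact_mod_cast hn0
  obtain ⟨R, R', hR, hT⟩ := factor h hK1 hKT hKT' n hn0'
  rw [hT]
  apply joined_prodSeq
  intro i hi
  have h1 := hR i hi
  have h2 : K ^ 2 * (K ^ 2 + 1) / n ≤ 1 / 100000 := by
    rw [div_le_div_iff₀ hn0 (by norm_num)]
    linarith
  exact joined_near hM ⟨h1.toInv, h1.near.trans h2⟩

theorem isConnected_GG (hM : Halving) : IsConnected GG := by
  have h1 : IsPathConnected GG := by
    refine ⟨1, ⟨1, Inv.one⟩, ?_⟩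
    rintro y ⟨T', hT'⟩
    exact joined_all hM hT'
  exact h1.isConnected

theorem isConnected_units (hM : Halving) : IsConnected
      {T : lp (fun _ : ℕ => ℂ) 2 →L[ℂ] lp (fun _ : ℕ => ℂ) 2 |
        ∃ U : (lp (fun _ : ℕ => ℂ) 2 →L[ℂ] lp (fun _ : ℕ => ℂ) 2)ˣ,
          (U : lp (fun _ : ℕ => ℂ) 2 →L[ℂ] lp (fun _ : ℕ => ℂ) 2) = T ∧
          (∀ i j : ℕ, j < i →
            ((U : lp (fun _ : ℕ => ℂ) 2 →L[ℂ] lp (fun _ : ℕ => ℂ) 2)
              (lp.single 2 j (1 : ℂ)) : ℕ → ℂ) i = 0) ∧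
          (∀ i j : ℕ, j < i →
            (((U⁻¹ : (lp (fun _ : ℕ => ℂ) 2 →L[ℂ] lp (fun _ : ℕ => ℂ) 2)ˣ) :
                lp (fun _ : ℕ => ℂ) 2 →L[ℂ] lp (fun _ : ℕ => ℂ) 2)
              (lp.single 2 j (1 : ℂ)) : ℕ → ℂ) i = 0)} := by
  have h := isConnected_GG hM
  convert h using 1
  ext T
  constructor
  · rintro ⟨U, rfl, h1, h2⟩
    exact ⟨((U⁻¹ : Opˣ) : Op), h1, h2, U.mul_inv, U.inv_mul⟩
  · rintro ⟨T', h1, h2, h3, h4⟩
    exact ⟨⟨T, T', h3, h4⟩, rfl, h1, h2⟩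

end Pool.Agent.Work.MP_194f66_an
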