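import Pool.Agent.Work.MP_194f66_an.Emb

open scoped InnerProductSpace ComplexConjugate
open ContinuousLinearMap InnerProductSpace

namespace Pool.Agent.Work.MP_194f66_an

theorem adj_emb_e {p : ℕ → ℕ} (hp : Function.Injective p) (n : ℕ) :
    adjoint (emb p hp) (e (p n)) = e n := by
  ext k
  rw [adj_emb_apply, e_apply, e_apply]
  simp [hp.eq_iff]

theorem adj_emb_e_zero {p : ℕ → ℕ} (hp : Function.Injective p) {j : ℕ} (hj : ∀ n, j ≠ p n) :
    adjoint (emb p hp) (e j) = 0 := by
  ext k
  rw [adj_emb_apply, e_apply, if_neg (fun h => hj k h.symm)]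
  rfl

theorem ent_corner {p q : ℕ → ℕ} (hp : Function.Injective p) (hq : Function.Injective q)
    (A : Op) (i j : ℕ) :
    ent (emb p hp * A * adjoint (emb q hq)) (p i) (q j) = ent A i j := by
  rw [ent_eq_inner, op_mul_apply, op_mul_apply, ← ContinuousLinearMap.adjoint_inner_left,
    adj_emb_e, adj_emb_e, ent_eq_inner]

theorem ent_corner_ne {p q : ℕ → ℕ} (hp : Function.Injective p) (hq : Function.Injective q)
    {A : Op} {i j : ℕ} (h : ent (emb p hp * A * adjoint (emb q hq)) i j ≠ 0) :
    ∃ i' j', i = p i' ∧ j = q j' ∧ ent A i' j' ≠ 0 := by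
  by_cases h1 : ∃ i', i = p i'
  · obtain ⟨i', rfl⟩ := h1
    by_cases h2 : ∃ j', j = q j'
    · obtain ⟨j', rfl⟩ := h2
      rw [ent_corner] at h
      exact ⟨i', j', rfl, rfl, h⟩
    · exfalso
      apply h
      push Not at h2
      rw [ent_eq_inner, op_mul_apply, adj_emb_e_zero hq h2, map_zero, inner_zero_right]
  · exfalso
    apply h
    push Not at h1
    rw [ent_eq_inner, op_mul_apply, op_mul_apply, ← ContinuousLinearMap.adjoint_inner_left,
      adj_emb_e_zero hp h1, inner_zero_left]

theorem norm_adj_emb_le {p : ℕ → ℕ} (hp : Function.Injective p) : ‖adjoint (emb p hp)‖ ≤ 1 := by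
  rw [norm_adj]; exact norm_emb_le hp

theorem norm_corner_le {p q : ℕ → ℕ} (hp : Function.Injective p) (hq : Function.Injective q)
    (A : Op) : ‖emb p hp * A * adjoint (emb q hq)‖ ≤ ‖A‖ := by
  refine (norm_mul_le _ _).trans ?_
  have h1 : ‖emb p hp * A‖ ≤ ‖A‖ := by
    refine (norm_mul_le _ _).trans ?_
    have := norm_emb_le hp
    nlinarith [norm_nonneg A]
  have h2 := norm_adj_emb_le hq
  nlinarith [norm_nonneg (emb p hp * A), norm_nonneg (adjoint (emb q hq))]

/-- amplification of an operator along an injection -/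
noncomputable def amb (p : ℕ → ℕ) (hp : Function.Injective p) (T : Op) : Op :=
  1 + emb p hp * (T - 1) * adjoint (emb p hp)

theorem amb_one (p : ℕ → ℕ) (hp : Function.Injective p) : amb p hp 1 = 1 := by
  unfold amb; rw [sub_self, mul_zero, zero_mul, add_zero]

theorem amb_mul (p : ℕ → ℕ) (hp : Function.Injective p) (S T : Op) :
    amb p hp (S * T) = amb p hp S * amb p hp T := by
  unfold amb
  set P := emb p hp
  set Q := adjoint P with hQ
  have h1 : Q * P = 1 := adj_emb_mul_emb hp
  have h2 : P * (S - 1) * Q * (P * (T - 1) * Q) = P * ((S - 1) * (T - 1)) * Q := by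
    calc P * (S - 1) * Q * (P * (T - 1) * Q) = P * (S - 1) * (Q * P) * (T - 1) * Q := by
          simp only [mul_assoc]
      _ = _ := by rw [h1]; simp only [mul_assoc, one_mul]
  rw [mul_add, add_mul, add_mul, h2]
  simp only [mul_sub, sub_mul, mul_one, one_mul]
  abel

theorem amb_comm {p q : ℕ → ℕ} (hp : Function.Injective p) (hq : Function.Injective q)
    (h : ∀ i j, p i ≠ q j) (S T : Op) :
    amb p hp S * amb q hq T = amb q hq T * amb p hp S := by
  unfold amb
  have h1 : emb p hp * (S - 1) * adjoint (emb p hp) * (emb q hq * (T - 1) * adjoint (emb q hq))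
      = 0 := by
    calc _ = emb p hp * (S - 1) * (adjoint (emb p hp) * emb q hq) * (T - 1) *
          adjoint (emb q hq) := by simp only [mul_assoc]
      _ = 0 := by rw [adj_emb_mul_emb_disjoint hp hq h]; simp
  have h2 : emb q hq * (T - 1) * adjoint (emb q hq) * (emb p hp * (S - 1) * adjoint (emb p hp))
      = 0 := by
    calc _ = emb q hq * (T - 1) * (adjoint (emb q hq) * emb p hp) * (S - 1) *
          adjoint (emb p hp) := by simp only [mul_assoc]
      _ = 0 := by rw [adj_emb_mul_emb_disjoint hq hp (fun i j hh => h j i hh.symm)]; simp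
  rw [mul_add, add_mul, add_mul, h1, mul_add, add_mul, add_mul, h2]
  simp only [mul_one, one_mul]
  abel

theorem emb_mul_emb {p q : ℕ → ℕ} (hp : Function.Injective p) (hq : Function.Injective q) :
    emb p hp * emb q hq = emb (fun n => p (q n)) (fun _ _ h => hq (hp h)) := by
  apply op_ext
  intro j
  rw [op_mul_apply, emb_e, emb_e, emb_e]

theorem amb_amb {p q : ℕ → ℕ} (hp : Function.Injective p) (hq : Function.Injective q) (T : Op) :
    amb p hp (amb q hq T) = amb (fun n => p (q n)) (fun _ _ h => hq (hp h)) T := by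
  unfold amb
  rw [← emb_mul_emb hp hq]
  rw [← star_eq_adjoint (emb p hp * emb q hq), star_mul, star_eq_adjoint, star_eq_adjoint]
  rw [add_sub_cancel_left]
  simp only [mul_assoc]

theorem SuppIn.corner {p q : ℕ → ℕ} (hp : Function.Injective p) (hq : Function.Injective q)
    (A : Op) {Γ : Set ℕ} (h1 : Set.range p ⊆ Γ) (h2 : Set.range q ⊆ Γ) :
    SuppIn Γ (emb p hp * A * adjoint (emb q hq)) := by
  intro i j hij
  obtain ⟨i', j', rfl, rfl, -⟩ := ent_corner_ne hp hq hij
  exact ⟨h1 ⟨i', rfl⟩, h2 ⟨j', rfl⟩⟩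

theorem UT.corner {p q : ℕ → ℕ} (hp : Function.Injective p) (hq : Function.Injective q)
    {A : Op} (h : ∀ i j, ent A i j ≠ 0 → p i ≤ q j) :
    UT (emb p hp * A * adjoint (emb q hq)) := by
  intro i j hij
  by_contra hne
  obtain ⟨i', j', rfl, rfl, h1⟩ := ent_corner_ne hp hq hne
  exact absurd (h i' j' h1) (not_le.2 hij)

theorem El.corner {p q : ℕ → ℕ} (hp : Function.Injective p) (hq : Function.Injective q)
    (hpq : ∀ i j, p i ≠ q j)
    {A : Op} (h : ∀ i j, ent A i j ≠ 0 → p i ≤ q j) (hA : ‖A‖ ≤ 27 / 10) {Γ : Set ℕ}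
    (h1 : Set.range p ⊆ Γ) (h2 : Set.range q ⊆ Γ) :
    El Γ 3 (1 + emb p hp * A * adjoint (emb q hq)) := by
  refine El.sqZero (UT.corner hp hq h) (SuppIn.corner hp hq A h1 h2) ?_ 3 (by norm_num) ?_
  · calc emb p hp * A * adjoint (emb q hq) * (emb p hp * A * adjoint (emb q hq))
        = emb p hp * A * (adjoint (emb q hq) * emb p hp) * A * adjoint (emb q hq) := by
          simp only [mul_assoc]
      _ = 0 := by rw [adj_emb_mul_emb_disjoint hq hp (fun i j hh => hpq j i hh.symm)]; simp
  · refine (norm_corner_le hp hq A).trans ?_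
    push_cast
    linarith

theorem El.corner_one {p : ℕ → ℕ} (hp : StrictMono p) {A : Op} (hA : UT A)
    (hn : ‖A‖ ≤ 9 / 10) {Γ : Set ℕ} (h1 : Set.range p ⊆ Γ) :
    El Γ 1 (1 + emb p hp.injective * A * adjoint (emb p hp.injective)) := by
  refine El.one_add (UT.corner _ _ ?_) (SuppIn.corner _ _ A h1 h1)
    ((norm_corner_le _ _ A).trans hn)
  intro i j hij
  by_contra hlt
  exact hij (hA i j (hp.lt_iff_lt.1 (not_le.1 hlt)))

theorem El.amb {p : ℕ → ℕ} (hp : StrictMono p) {Γ : Set ℕ} (h1 : Set.range p ⊆ Γ) {n : ℕ} :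
    ∀ {T : Op}, El Set.univ n T → El Γ n (Work.MP_194f66_an.amb p hp.injective T) := by
  induction n with
  | zero =>
    intro T hT
    rw [show T = 1 from hT, amb_one]
    exact rfl
  | succ n ih =>
    rintro T ⟨Z, h, hh, hZ1, -, hZ3, rfl⟩
    rw [amb_mul]
    have h2 := El.corner_one hp hZ1 hZ3 h1
    have h3 : Work.MP_194f66_an.amb p hp.injective (1 + Z) =
        1 + emb p hp.injective * Z * adjoint (emb p hp.injective) := by
      unfold Work.MP_194f66_an.amb
      rw [add_sub_cancel_left]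
    rw [h3]
    have := (ih hh).mul h2
    rwa [add_comm 1 n] at this

end Pool.Agent.Work.MP_194f66_an
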