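import Mathlib

open scoped InnerProductSpace ComplexConjugate
open ContinuousLinearMap

namespace Pool.Agent.Work.MP_194f66_an

/-- The Hilbert space of square summable complex sequences. -/
abbrev H : Type := lp (fun _ : ℕ => ℂ) 2

/-- Bounded operators. -/
abbrev Op : Type := H →L[ℂ] H

/-- Standard basis. -/
noncomputable def e (n : ℕ) : H := lp.single 2 n (1 : ℂ)

/-- Matrix entries. -/
noncomputable def ent (T : Op) (i j : ℕ) : ℂ := (T (e j) : ℕ → ℂ) i

theorem e_apply (n i : ℕ) : (e n : ℕ → ℂ) i = if i = n then 1 else 0 := by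
  unfold e
  rw [lp.single_apply]
  by_cases h : i = n
  · subst h; simp
  · simp [h]

theorem norm_e (n : ℕ) : ‖e n‖ = 1 := by
  unfold e
  rw [lp.norm_single (by norm_num)]
  simp

theorem inner_e_left (i : ℕ) (x : H) : ⟪e i, x⟫_ℂ = (x : ℕ → ℂ) i := by
  unfold e
  rw [lp.inner_single_left]
  simp

theorem inner_e_right (i : ℕ) (x : H) : ⟪x, e i⟫_ℂ = conj ((x : ℕ → ℂ) i) := by
  rw [← inner_conj_symm, inner_e_left]

theorem ent_eq_inner (T : Op) (i j : ℕ) : ent T i j = ⟪e i, T (e j)⟫_ℂ := by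
  rw [inner_e_left]; rfl

theorem ent_adjoint (T : Op) (i j : ℕ) : ent (adjoint T) i j = conj (ent T j i) := by
  rw [ent_eq_inner, ent_eq_inner, ContinuousLinearMap.adjoint_inner_right, inner_conj_symm]

theorem inner_tsum (x y : H) : ⟪x, y⟫_ℂ = ∑' k, conj ((x : ℕ → ℂ) k) * (y : ℕ → ℂ) k := by
  rw [lp.inner_eq_tsum]
  congr 1
  ext k
  rw [RCLike.inner_apply, mul_comm]

theorem summable_mul (x y : H) : Summable fun k => conj ((x : ℕ → ℂ) k) * (y : ℕ → ℂ) k := by
  have := lp.summable_inner (𝕜 := ℂ) x y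
  refine this.congr ?_
  intro k
  rw [RCLike.inner_apply, mul_comm]

theorem ent_mul (S T : Op) (i j : ℕ) : ent (S * T) i j = ∑' k, ent S i k * ent T k j := by
  have h1 : ent (S * T) i j = ⟪adjoint S (e i), T (e j)⟫_ℂ := by
    rw [ent_eq_inner, ContinuousLinearMap.adjoint_inner_left]; rfl
  rw [h1, inner_tsum]
  congr 1
  ext k
  have : conj ((adjoint S (e i) : ℕ → ℂ) k) = ent S i k := by
    have := ent_adjoint S k i
    unfold ent at this ⊢
    rw [this, Complex.conj_conj]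
  rw [this]; rfl

theorem summable_ent_mul (S T : Op) (i j : ℕ) : Summable fun k => ent S i k * ent T k j := by
  have := summable_mul (adjoint S (e i)) (T (e j))
  refine this.congr ?_
  intro k
  have : conj ((adjoint S (e i) : ℕ → ℂ) k) = ent S i k := by
    have := ent_adjoint S k i
    unfold ent at this ⊢
    rw [this, Complex.conj_conj]
  rw [this]; rfl

theorem hasSum_e (x : H) : HasSum (fun n => ((x : ℕ → ℂ) n) • e n) x := by
  have h := lp.hasSum_single (E := fun _ : ℕ => ℂ) (p := 2) (by norm_num) x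
  have h2 : (fun n => ((x : ℕ → ℂ) n) • e n) = fun i => lp.single 2 i ((x : ℕ → ℂ) i) := by
    funext n
    ext k
    rw [lp.single_apply]
    simp only [lp.coeFn_smul, Pi.smul_apply, e_apply, smul_eq_mul]
    by_cases hk : k = n
    · subst hk; simp
    · simp [hk]
  rw [h2]; exact h

theorem op_ext {S T : Op} (h : ∀ j, S (e j) = T (e j)) : S = T := by
  ext1 x
  have h1 := (hasSum_e x).mapL S
  have h2 := (hasSum_e x).mapL T
  have : (fun n => S (((x : ℕ → ℂ) n) • e n)) = fun n => T (((x : ℕ → ℂ) n) • e n) := by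
    funext n
    rw [map_smul, map_smul, h n]
  rw [this] at h1
  exact h1.unique h2

theorem ext_ent {S T : Op} (h : ∀ i j, ent S i j = ent T i j) : S = T := by
  apply op_ext
  intro j
  ext i
  exact h i j

theorem ent_add (S T : Op) (i j : ℕ) : ent (S + T) i j = ent S i j + ent T i j := rfl
theorem ent_sub (S T : Op) (i j : ℕ) : ent (S - T) i j = ent S i j - ent T i j := rfl
theorem ent_neg (T : Op) (i j : ℕ) : ent (-T) i j = - ent T i j := rfl
theorem ent_smul (c : ℂ) (T : Op) (i j : ℕ) : ent (c • T) i j = c * ent T i j := rfl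
theorem ent_zero (i j : ℕ) : ent 0 i j = 0 := rfl
theorem ent_one (i j : ℕ) : ent 1 i j = if i = j then 1 else 0 := by
  unfold ent
  rw [one_apply_eq_self, e_apply]

theorem norm_apply_le (x : H) (i : ℕ) : ‖(x : ℕ → ℂ) i‖ ≤ ‖x‖ := by
  exact lp.norm_apply_le_norm (by norm_num) x i

theorem norm_ent_le (T : Op) (i j : ℕ) : ‖ent T i j‖ ≤ ‖T‖ := by
  unfold ent
  refine (norm_apply_le _ _).trans ?_
  refine (T.le_opNorm _).trans ?_
  rw [norm_e, mul_one]

theorem norm_sq_eq (x : H) : ‖x‖ ^ 2 = ∑' k, ‖(x : ℕ → ℂ) k‖ ^ 2 := by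
  have h := lp.norm_rpow_eq_tsum (E := fun _ : ℕ => ℂ) (p := 2) (by norm_num) x
  simp only [ENNReal.toReal_ofNat, Real.rpow_ofNat] at h
  exact h

theorem summable_sq (x : H) : Summable fun k => ‖(x : ℕ → ℂ) k‖ ^ 2 := by
  have h := (lp.memℓp x).summable (by norm_num)
  simp only [ENNReal.toReal_ofNat, Real.rpow_ofNat] at h
  exact h

theorem sum_sq_le (x : H) (s : Finset ℕ) : ∑ k ∈ s, ‖(x : ℕ → ℂ) k‖ ^ 2 ≤ ‖x‖ ^ 2 := by
  rw [norm_sq_eq]
  exact (summable_sq x).sum_le_tsum s (fun _ _ => by positivity)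

/-- Construct an element of `H` from a function with bounded partial square sums. -/
noncomputable def mkH (f : ℕ → ℂ) (C : ℝ) (h : ∀ s : Finset ℕ, ∑ k ∈ s, ‖f k‖ ^ 2 ≤ C) : H :=
  ⟨f, memℓp_gen' (C := C) (by intro s; simpa using h s)⟩

theorem mkH_apply (f : ℕ → ℂ) (C : ℝ) (h : ∀ s : Finset ℕ, ∑ k ∈ s, ‖f k‖ ^ 2 ≤ C) (k : ℕ) :
    (mkH f C h : ℕ → ℂ) k = f k := rfl

theorem norm_sq_mkH_le (f : ℕ → ℂ) (C : ℝ) (h : ∀ s : Finset ℕ, ∑ k ∈ s, ‖f k‖ ^ 2 ≤ C) :
    ‖mkH f C h‖ ^ 2 ≤ C := by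
  rw [norm_sq_eq]
  have := (summable_sq (mkH f C h))
  exact this.tsum_le_of_sum_le (fun s => h s)

/-! ### coordinate projections -/

open Classical in
/-- Projection onto the coordinates in `S`. -/
noncomputable def proj (S : Set ℕ) : Op :=
  LinearMap.mkContinuous
    { toFun := fun x => mkH (fun n => if n ∈ S then (x : ℕ → ℂ) n else 0) (‖x‖ ^ 2) (by
        intro s
        refine le_trans ?_ (sum_sq_le x s)
        apply Finset.sum_le_sum
        intro i _
        split_ifs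
        · exact le_rfl
        · simp)
      map_add' := by
        intro x y
        ext n
        simp only [mkH_apply, lp.coeFn_add, Pi.add_apply]
        split_ifs <;> simp
      map_smul' := by
        intro c x
        ext n
        simp only [mkH_apply, lp.coeFn_smul, Pi.smul_apply, RingHom.id_apply]
        split_ifs <;> simp } 1 (by
      intro x
      rw [one_mul]
      have := norm_sq_mkH_le (fun n => if n ∈ S then (x : ℕ → ℂ) n else 0) (‖x‖ ^ 2) (by
        intro s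
        refine le_trans ?_ (sum_sq_le x s)
        apply Finset.sum_le_sum
        intro i _
        split_ifs
        · exact le_rfl
        · simp)
      exact le_of_sq_le_sq this (norm_nonneg _))

open Classical in
theorem proj_apply (S : Set ℕ) (x : H) (n : ℕ) :
    (proj S x : ℕ → ℂ) n = if n ∈ S then (x : ℕ → ℂ) n else 0 := rfl

theorem norm_proj_apply_le (S : Set ℕ) (x : H) : ‖proj S x‖ ≤ ‖x‖ := by
  have h : ‖proj S x‖ ^ 2 ≤ ‖x‖ ^ 2 := by
    rw [norm_sq_eq, norm_sq_eq]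
    refine (summable_sq _).tsum_le_tsum ?_ (summable_sq _)
    intro n
    rw [proj_apply]
    split_ifs
    · exact le_rfl
    · simp
  exact le_of_sq_le_sq h (norm_nonneg _)

theorem norm_proj_le (S : Set ℕ) : ‖proj S‖ ≤ 1 :=
  ContinuousLinearMap.opNorm_le_bound _ zero_le_one (fun x => by
    rw [one_mul]; exact norm_proj_apply_le S x)

open Classical in
theorem ent_proj (S : Set ℕ) (i j : ℕ) : ent (proj S) i j = if i = j ∧ i ∈ S then 1 else 0 := by
  unfold ent
  rw [proj_apply, e_apply]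
  by_cases h1 : i ∈ S <;> by_cases h2 : i = j <;> simp [h1, h2]

open Classical in
theorem norm_sq_proj (S : Set ℕ) (x : H) :
    ‖proj S x‖ ^ 2 = ∑' n, if n ∈ S then ‖(x : ℕ → ℂ) n‖ ^ 2 else 0 := by
  rw [norm_sq_eq]
  congr 1
  funext n
  rw [proj_apply]
  split_ifs <;> simp

theorem sum_proj_sq_le (idx : ℕ → ℕ) (x : H) (I : Finset ℕ) :
    ∑ i ∈ I, ‖proj {k | idx k = i} x‖ ^ 2 ≤ ‖x‖ ^ 2 := by
  classical
  have hs : ∀ i ∈ I, Summable fun n => if n ∈ {k | idx k = i} then ‖(x : ℕ → ℂ) n‖ ^ 2 else 0 := by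
    intro i _
    refine Summable.of_nonneg_of_le (fun n => ?_) (fun n => ?_) (summable_sq x)
    · split_ifs <;> positivity
    · split_ifs
      · exact le_rfl
      · positivity
  calc ∑ i ∈ I, ‖proj {k | idx k = i} x‖ ^ 2
      = ∑ i ∈ I, ∑' n, if n ∈ {k | idx k = i} then ‖(x : ℕ → ℂ) n‖ ^ 2 else 0 := by
        apply Finset.sum_congr rfl
        intro i _
        convert norm_sq_proj _ _
    _ = ∑' n, ∑ i ∈ I, if n ∈ {k | idx k = i} then ‖(x : ℕ → ℂ) n‖ ^ 2 else 0 := by
        rw [Summable.tsum_finsetSum hs]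
    _ ≤ ∑' n, ‖(x : ℕ → ℂ) n‖ ^ 2 := by
        refine (summable_sum hs).tsum_le_tsum ?_ (summable_sq x)
        intro n
        simp only [Set.mem_ofPred_eq]
        rw [Finset.sum_ite_eq]
        split_ifs
        · exact le_rfl
        · positivity
    _ = ‖x‖ ^ 2 := (norm_sq_eq x).symm

theorem bsum_bound (idx : ℕ → ℕ) (A : ℕ → Op) (c : ℝ) (hA : ∀ i, ‖A i‖ ≤ c) (x : H)
    (s : Finset ℕ) :
    ∑ n ∈ s, ‖(A (idx n) (proj {k | idx k = idx n} x) : ℕ → ℂ) n‖ ^ 2 ≤ c ^ 2 * ‖x‖ ^ 2 := by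
  classical
  have hc : 0 ≤ c := (norm_nonneg _).trans (hA 0)
  calc ∑ n ∈ s, ‖(A (idx n) (proj {k | idx k = idx n} x) : ℕ → ℂ) n‖ ^ 2
      = ∑ i ∈ s.image idx, ∑ n ∈ s with idx n = i,
          ‖(A (idx n) (proj {k | idx k = idx n} x) : ℕ → ℂ) n‖ ^ 2 := by
        rw [Finset.sum_fiberwise_of_maps_to]
        intro n hn
        exact Finset.mem_image_of_mem _ hn
    _ ≤ ∑ i ∈ s.image idx, c ^ 2 * ‖proj {k | idx k = i} x‖ ^ 2 := by
        apply Finset.sum_le_sum
        intro i _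
        calc ∑ n ∈ s with idx n = i, ‖(A (idx n) (proj {k | idx k = idx n} x) : ℕ → ℂ) n‖ ^ 2
            = ∑ n ∈ s with idx n = i, ‖(A i (proj {k | idx k = i} x) : ℕ → ℂ) n‖ ^ 2 := by
              apply Finset.sum_congr rfl
              intro n hn
              rw [Finset.mem_filter] at hn
              rw [hn.2]
          _ ≤ ‖A i (proj {k | idx k = i} x)‖ ^ 2 := sum_sq_le _ _
          _ ≤ (c * ‖proj {k | idx k = i} x‖) ^ 2 := by
              apply pow_le_pow_left₀ (norm_nonneg _)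
              exact ((A i).le_opNorm _).trans (mul_le_mul_of_nonneg_right (hA i) (norm_nonneg _))
          _ = c ^ 2 * ‖proj {k | idx k = i} x‖ ^ 2 := by ring
    _ = c ^ 2 * ∑ i ∈ s.image idx, ‖proj {k | idx k = i} x‖ ^ 2 := by rw [Finset.mul_sum]
    _ ≤ c ^ 2 * ‖x‖ ^ 2 := by
        apply mul_le_mul_of_nonneg_left (sum_proj_sq_le _ _ _) (by positivity)

/-- The orthogonal direct sum of the compressions of `A i` to the coordinates with index `i`. -/
noncomputable def bsum (idx : ℕ → ℕ) (A : ℕ → Op) (c : ℝ) (hA : ∀ i, ‖A i‖ ≤ c) : Op :=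
  LinearMap.mkContinuous
    { toFun := fun x => mkH (fun n => (A (idx n) (proj {k | idx k = idx n} x) : ℕ → ℂ) n)
        (c ^ 2 * ‖x‖ ^ 2) (bsum_bound idx A c hA x)
      map_add' := by
        intro x y
        ext n
        simp only [mkH_apply, lp.coeFn_add, Pi.add_apply, map_add]
      map_smul' := by
        intro a x
        ext n
        simp only [mkH_apply, lp.coeFn_smul, Pi.smul_apply, RingHom.id_apply, map_smul] } c (by
      intro x
      have hc : 0 ≤ c := (norm_nonneg _).trans (hA 0)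
      have := norm_sq_mkH_le _ _ (bsum_bound idx A c hA x)
      refine le_of_sq_le_sq (this.trans_eq (mul_pow _ _ _).symm) (by positivity))

theorem bsum_apply (idx : ℕ → ℕ) (A : ℕ → Op) (c : ℝ) (hA : ∀ i, ‖A i‖ ≤ c) (x : H) (n : ℕ) :
    (bsum idx A c hA x : ℕ → ℂ) n = (A (idx n) (proj {k | idx k = idx n} x) : ℕ → ℂ) n := rfl

theorem norm_bsum_le (idx : ℕ → ℕ) (A : ℕ → Op) (c : ℝ) (hA : ∀ i, ‖A i‖ ≤ c) :
    ‖bsum idx A c hA‖ ≤ c :=
  LinearMap.mkContinuous_norm_le _ ((norm_nonneg _).trans (hA 0)) _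

open Classical in
theorem proj_e (S : Set ℕ) (n : ℕ) : proj S (e n) = if n ∈ S then e n else 0 := by
  ext k
  rw [proj_apply, e_apply]
  by_cases h : n ∈ S
  · rw [if_pos h, e_apply]
    by_cases hk : k = n
    · subst hk; simp [h]
    · simp [hk]
  · rw [if_neg h]
    by_cases hk : k = n
    · subst hk; simp [h]
    · simp [hk]

theorem ent_bsum (idx : ℕ → ℕ) (A : ℕ → Op) (c : ℝ) (hA : ∀ i, ‖A i‖ ≤ c) (i j : ℕ) :
    ent (bsum idx A c hA) i j = if idx i = idx j then ent (A (idx i)) i j else 0 := by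
  classical
  unfold ent
  rw [bsum_apply, proj_e]
  by_cases h : idx i = idx j
  · simp [h]
  · have h' : ¬ (idx j = idx i) := fun hh => h hh.symm
    simp [h, h']

end Pool.Agent.Work.MP_194f66_an
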