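import Pool.Agent.Work.MP_194f66_an.El

open scoped InnerProductSpace ComplexConjugate
open ContinuousLinearMap InnerProductSpace

namespace Pool.Agent.Work.MP_194f66_an

/-- Block-diagonal compression. -/
noncomputable def pinch (g : ℕ → ℕ) (R : Op) : Op := bsum g (fun _ => R) ‖R‖ (fun _ => le_rfl)

theorem ent_pinch (g : ℕ → ℕ) (R : Op) (i j : ℕ) :
    ent (pinch g R) i j = if g i = g j then ent R i j else 0 := ent_bsum _ _ _ _ _ _

theorem norm_pinch_le (g : ℕ → ℕ) (R : Op) : ‖pinch g R‖ ≤ ‖R‖ := norm_bsum_le _ _ _ _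

theorem pinch_sub (g : ℕ → ℕ) (R S : Op) : pinch g (R - S) = pinch g R - pinch g S := by
  apply ext_ent
  intro i j
  rw [ent_sub, ent_pinch, ent_pinch, ent_pinch]
  split_ifs
  · rfl
  · simp

theorem pinch_adjoint (g : ℕ → ℕ) (R : Op) : pinch g (adjoint R) = adjoint (pinch g R) := by
  apply ext_ent
  intro i j
  rw [ent_adjoint, ent_pinch, ent_pinch, ent_adjoint]
  by_cases h : g i = g j
  · rw [if_pos h, if_pos h.symm]
  · rw [if_neg h, if_neg (fun hh => h hh.symm), map_zero]

theorem pinch_one (g : ℕ → ℕ) : pinch g 1 = 1 := by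
  apply ext_ent
  intro i j
  rw [ent_pinch, ent_one]
  by_cases h : i = j
  · subst h; simp
  · simp [h]

theorem pinch_mul {g : ℕ → ℕ} (hg : Monotone g) {S T : Op} (hS : UT S) (hT : UT T) :
    pinch g (S * T) = pinch g S * pinch g T := by
  apply ext_ent
  intro i j
  rw [ent_pinch, ent_mul, ent_mul]
  by_cases h : g i = g j
  · rw [if_pos h]
    congr 1
    funext k
    rw [ent_pinch, ent_pinch]
    by_cases hk : g i = g k
    · rw [if_pos hk, if_pos (hk.symm.trans h)]
    · rw [if_neg hk, zero_mul]
      rcases lt_or_ge k i with h1 | h1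
      · rw [hS i k h1, zero_mul]
      · rcases lt_or_ge j k with h2 | h2
        · rw [hT k j h2, mul_zero]
        · exfalso
          apply hk
          have h3 := hg h1
          have h4 := hg h2
          omega
  · rw [if_neg h]
    have : ∀ k, ent (pinch g S) i k * ent (pinch g T) k j = 0 := by
      intro k
      rw [ent_pinch, ent_pinch]
      by_cases hk : g i = g k
      · rw [if_neg (fun hh => h (hk.trans hh)), mul_zero]
      · rw [if_neg hk, zero_mul]
    simp [this]

theorem UT.pinch {g : ℕ → ℕ} {S : Op} (hS : UT S) : UT (pinch g S) := by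
  intro i j hij
  rw [ent_pinch, hS i j hij]
  simp

/-- strictly block upper triangular -/
def SB (g : ℕ → ℕ) (X : Op) : Prop := ∀ i j, g j ≤ g i → ent X i j = 0

theorem SB.ut {g : ℕ → ℕ} (hg : Monotone g) {X : Op} (h : SB g X) : UT X := by
  intro i j hij
  exact h i j (hg hij.le)

theorem norm_inv_of_nearU {R R' : Op} {ν : ℝ} (h : NearU R R' ν) (hν : ν ≤ 1 / 10) :
    ‖R‖ ≤ 11 / 10 ∧ ‖R'‖ ≤ 11 / 10 := by
  have hn := h.near
  have hν0 : 0 ≤ ν := (norm_nonneg _).trans hn
  constructor
  · -- R^* (R - R'^*) = R^* R - 1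
    have e1 : adjoint R * R = 1 + adjoint R * (R - adjoint R') := by
      rw [mul_sub]
      have : adjoint R * adjoint R' = 1 := adj_mul_adj h.mul'
      rw [this]; abel
    have e2 : ‖R‖ * ‖R‖ = ‖adjoint R * R‖ := by
      rw [← star_eq_adjoint, CStarRing.norm_star_mul_self]
    have e3 : ‖R‖ * ‖R‖ ≤ 1 + ‖R‖ * ν := by
      rw [e2, e1]
      refine (norm_add_le _ _).trans ?_
      refine add_le_add ContinuousLinearMap.norm_id_le ?_
      refine (norm_mul_le _ _).trans ?_
      rw [norm_adj]
      gcongr
    nlinarith [norm_nonneg R]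
  · have e1 : R' * adjoint R' = 1 - R' * (R - adjoint R') := by
      rw [mul_sub, h.mul']; abel
    have e2 : ‖R'‖ * ‖R'‖ = ‖R' * adjoint R'‖ := by
      have := CStarRing.norm_self_mul_star (x := R')
      rw [star_eq_adjoint] at this
      exact this.symm
    have e3 : ‖R'‖ * ‖R'‖ ≤ 1 + ‖R'‖ * ν := by
      rw [e2, e1]
      refine (norm_sub_le _ _).trans ?_
      refine add_le_add ContinuousLinearMap.norm_id_le ?_
      refine (norm_mul_le _ _).trans ?_
      gcongr
    nlinarith [norm_nonneg R']

/-- Removing the block diagonal part of a near unitary operator. -/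
theorem remove_blocks {g : ℕ → ℕ} (hg : Monotone g) {R R' : Op} {ν : ℝ} (h : NearU R R' ν)
    (hν : ν ≤ 1 / 10) :
    ∃ S S' : Op, NearU S S' (3 * ν) ∧ SB g (S - 1) ∧ R = pinch g R * S ∧
      Inv (pinch g R) (pinch g R') := by
  have hn := h.near
  have hν0 : 0 ≤ ν := (norm_nonneg _).trans hn
  have hD : pinch g R * pinch g R' = 1 := by
    rw [← pinch_mul hg h.ut h.ut', h.mul, pinch_one]
  have hD' : pinch g R' * pinch g R = 1 := by
    rw [← pinch_mul hg h.ut' h.ut, h.mul', pinch_one]
  have hID : Inv (pinch g R) (pinch g R') := ⟨h.ut.pinch, h.ut'.pinch, hD, hD'⟩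
  have hIS : Inv (pinch g R' * R) (R' * pinch g R) := hID.symm.mul_inv h.toInv
  refine ⟨pinch g R' * R, R' * pinch g R, ⟨hIS, ?_⟩, ?_, ?_, hID⟩
  · have hadj : adjoint (R' * pinch g R) = adjoint (pinch g R) * adjoint R' := by
      rw [← star_eq_adjoint, ← star_eq_adjoint, ← star_eq_adjoint, star_mul]
    have e1 : pinch g R' * R - adjoint (R' * pinch g R) =
        pinch g R' * (R - adjoint R') + (pinch g R' - adjoint (pinch g R)) * adjoint R' := by
      rw [hadj, mul_sub, sub_mul]; abel
    have e2 : pinch g R' - adjoint (pinch g R) = pinch g (R' - adjoint R) := by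
      rw [pinch_sub, pinch_adjoint]
    have e3 : ‖pinch g R' - adjoint (pinch g R)‖ ≤ ν := by
      rw [e2]
      refine (norm_pinch_le _ _).trans ?_
      have : R' - adjoint R = - adjoint (R - adjoint R') := by
        rw [map_sub, ContinuousLinearMap.adjoint_adjoint]; abel
      rw [this, norm_neg, norm_adj]
      exact hn
    obtain ⟨hR, hR'⟩ := norm_inv_of_nearU h hν
    rw [e1]
    calc ‖pinch g R' * (R - adjoint R') + (pinch g R' - adjoint (pinch g R)) * adjoint R'‖
        ≤ ‖pinch g R'‖ * ‖R - adjoint R'‖ + ‖pinch g R' - adjoint (pinch g R)‖ * ‖adjoint R'‖ := by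
          refine (norm_add_le _ _).trans ?_
          exact add_le_add (norm_mul_le _ _) (norm_mul_le _ _)
      _ ≤ (11 / 10) * ν + ν * (11 / 10) := by
          rw [norm_adj]
          have := (norm_pinch_le g R').trans hR'
          gcongr
      _ ≤ 3 * ν := by linarith
  · intro i j hij
    rcases lt_or_eq_of_le hij with h1 | h1
    · have h2 : j < i := by
        by_contra hh
        have := hg (not_lt.1 hh)
        omega
      exact (hIS.ut.sub UT.one) i j h2
    · have h3 : pinch g (pinch g R' * R - 1) = 0 := by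
        rw [pinch_sub, pinch_one, pinch_mul hg h.ut'.pinch h.ut]
        have : pinch g (pinch g R') = pinch g R' := by
          apply ext_ent
          intro i j
          rw [ent_pinch]
          by_cases hh : g i = g j
          · rw [if_pos hh]
          · rw [if_neg hh, ent_pinch, if_neg hh]
        rw [this, hD', sub_self]
      have h4 := ent_pinch g (pinch g R' * R - 1) i j
      rw [if_pos h1.symm, h3, ent_zero] at h4
      exact h4.symm
  · rw [← mul_assoc, hD, one_mul]

end Pool.Agent.Work.MP_194f66_an
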