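import Pool.Agent.Work.MP_194f66_an.Exchange2

open scoped InnerProductSpace ComplexConjugate
open ContinuousLinearMap InnerProductSpace

namespace Pool.Agent.Work.MP_194f66_an

/-- the arithmetic progression `k ↦ m k + i` -/
def ap (m i : ℕ) (k : ℕ) : ℕ := m * k + i

theorem ap_strictMono {m : ℕ} (hm : 0 < m) (i : ℕ) : StrictMono (ap m i) := by
  intro a b hab
  have : m * a < m * b := Nat.mul_lt_mul_of_pos_left hab hm
  unfold ap
  omega

theorem ap_mod {m i : ℕ} (hi : i < m) (k : ℕ) : ap m i k % m = i := by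
  unfold ap
  rw [Nat.mul_add_mod, Nat.mod_eq_of_lt hi]

theorem ap_div {m i : ℕ} (hi : i < m) (k : ℕ) : ap m i k / m = k := by
  unfold ap
  rw [Nat.mul_add_div (by omega), Nat.div_eq_of_lt hi, add_zero]

theorem ap_disjoint {m i j : ℕ} (hi : i < m) (hj : j < m) (hij : i ≠ j) (k l : ℕ) :
    ap m i k ≠ ap m j l := by
  intro h
  apply hij
  rw [← ap_mod hi k, h, ap_mod hj]

theorem ap_div_mod {m : ℕ} (a : ℕ) : ap m (a % m) (a / m) = a := Nat.div_add_mod a m

section

variable {m : ℕ} (hm : 0 < m)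

/-- isometry onto the residue class `i` -/
noncomputable def Em (i : ℕ) : Op := emb (ap m i) (ap_strictMono hm i).injective

theorem Em_adj_mul_self (i : ℕ) : adjoint (Em hm i) * Em hm i = 1 := adj_emb_mul_emb _

theorem Em_adj_mul_ne {i j : ℕ} (hi : i < m) (hj : j < m) (hij : i ≠ j) :
    adjoint (Em hm i) * Em hm j = 0 :=
  adj_emb_mul_emb_disjoint _ _ (fun k l => ap_disjoint hi hj hij k l)

theorem Em_sum : ∑ i ∈ Finset.range m, Em hm i * adjoint (Em hm i) = 1 := by
  apply op_ext
  intro a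
  rw [_root_.sum_apply]
  have ha : a % m < m := Nat.mod_lt _ hm
  rw [Finset.sum_eq_single (a % m)]
  · rw [op_mul_apply]
    have h1 : adjoint (Em hm (a % m)) (e a) = e (a / m) := by
      conv_lhs => rw [← ap_div_mod (m := m) a]
      rw [ap_mod ha]
      exact adj_emb_e _ _
    rw [h1]
    show emb _ _ (e (a / m)) = e a
    rw [emb_e, ap_div_mod]
  · intro i hi hne
    rw [op_mul_apply]
    have h1 : adjoint (Em hm i) (e a) = 0 := by
      apply adj_emb_e_zero
      intro n hn
      apply hne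
      rw [hn, ap_mod (Finset.mem_range.1 hi)]
    rw [h1, map_zero]
  · intro h
    exact absurd (Finset.mem_range.2 ha) h

/-- direct sum over residue classes -/
noncomputable def dS (S : ℕ → Op) : Op :=
  ∑ i ∈ Finset.range m, Em hm i * S i * adjoint (Em hm i)

theorem Em_adj_mul_dS (S : ℕ → Op) {i : ℕ} (hi : i < m) :
    adjoint (Em hm i) * dS hm S = S i * adjoint (Em hm i) := by
  unfold dS
  rw [Finset.mul_sum, Finset.sum_eq_single i]
  · rw [← mul_assoc, ← mul_assoc, Em_adj_mul_self, one_mul]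
  · intro j hj hne
    rw [← mul_assoc, ← mul_assoc, Em_adj_mul_ne hm hi (Finset.mem_range.1 hj) hne.symm, zero_mul,
      zero_mul]
  · intro h
    exact absurd (Finset.mem_range.2 hi) h

theorem dS_mul (S T : ℕ → Op) : dS hm S * dS hm T = dS hm (fun i => S i * T i) := by
  have h : dS hm S * dS hm T =
      ∑ i ∈ Finset.range m, Em hm i * S i * adjoint (Em hm i) * dS hm T := by
    rw [← Finset.sum_mul]; rfl
  rw [h]
  show _ = ∑ i ∈ Finset.range m, Em hm i * (S i * T i) * adjoint (Em hm i)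
  refine Finset.sum_congr rfl (fun i hi => ?_)
  rw [mul_assoc, Em_adj_mul_dS hm T (Finset.mem_range.1 hi)]
  simp only [mul_assoc]

theorem dS_one : dS hm (fun _ => 1) = 1 := by
  unfold dS
  simp only [mul_one]
  exact Em_sum hm

theorem sum_norm_sq (x : H) : ∑ i ∈ Finset.range m, ‖adjoint (Em hm i) x‖ ^ 2 = ‖x‖ ^ 2 := by
  have h2 : ⟪x, (∑ i ∈ Finset.range m, Em hm i * adjoint (Em hm i)) x⟫_ℂ = ⟪x, x⟫_ℂ := by
    rw [Em_sum]; rfl
  rw [_root_.sum_apply, inner_sum] at h2
  have h3 := congrArg Complex.re h2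
  rw [Complex.re_sum] at h3
  have h4 : ∀ y : H, (⟪y, y⟫_ℂ).re = ‖y‖ ^ 2 := fun y => inner_self_eq_norm_sq (𝕜 := ℂ) y
  rw [h4] at h3
  rw [← h3]
  refine Finset.sum_congr rfl (fun i _ => ?_)
  rw [op_mul_apply, ← ContinuousLinearMap.adjoint_inner_left, h4]

theorem norm_dS_le {S : ℕ → Op} {C : ℝ} (hC : 0 ≤ C) (h : ∀ i, ‖S i‖ ≤ C) : ‖dS hm S‖ ≤ C := by
  refine ContinuousLinearMap.opNorm_le_bound _ hC (fun x => ?_)
  refine le_of_sq_le_sq ?_ (by positivity)
  rw [← sum_norm_sq hm (dS hm S x), mul_pow, ← sum_norm_sq hm x, Finset.mul_sum]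
  refine Finset.sum_le_sum (fun i hi => ?_)
  have h1 : adjoint (Em hm i) (dS hm S x) = S i (adjoint (Em hm i) x) := by
    have := congrArg (fun T : Op => T x) (Em_adj_mul_dS hm S (Finset.mem_range.1 hi))
    exact this
  rw [h1, ← mul_pow]
  refine pow_le_pow_left₀ (norm_nonneg _) ?_ 2
  refine ((S i).le_opNorm _).trans ?_
  gcongr
  exact h i

theorem UT.sum {ι : Type*} {s : Finset ι} {A : ι → Op} (h : ∀ i ∈ s, UT (A i)) :
    UT (∑ i ∈ s, A i) := by
  classical
  induction s using Finset.induction_on with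
  | empty => simpa using UT.zero
  | insert a s ha ih =>
    rw [Finset.sum_insert ha]
    exact (h a (Finset.mem_insert_self _ _)).add
      (ih (fun i hi => h i (Finset.mem_insert_of_mem hi)))

theorem UT.dS {S : ℕ → Op} (h : ∀ i, UT (S i)) : UT (dS hm S) := by
  unfold Work.MP_194f66_an.dS
  refine UT.sum (fun i _ => ?_)
  refine UT.corner _ _ ?_
  intro a b hab
  exact (ap_strictMono hm i).monotone ((h i).le hab)

theorem dS_inv {S S' : ℕ → Op} (h : ∀ i, Inv (S i) (S' i)) : Inv (dS hm S) (dS hm S') := by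
  refine ⟨UT.dS hm (fun i => (h i).ut), UT.dS hm (fun i => (h i).ut'), ?_, ?_⟩
  · rw [dS_mul]
    have : (fun i => S i * S' i) = fun _ => 1 := funext (fun i => (h i).mul)
    rw [this, dS_one]
  · rw [dS_mul]
    have : (fun i => S' i * S i) = fun _ => 1 := funext (fun i => (h i).mul')
    rw [this, dS_one]

theorem dS_eq_prodSeq (S : ℕ → Op) :
    dS hm S = prodSeq (fun i => amb (ap m i) (ap_strictMono hm i).injective (S i)) m := by
  have key : ∀ n, n ≤ m → prodSeq (fun i => amb (ap m i) (ap_strictMono hm i).injective (S i)) n =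
      1 + ∑ i ∈ Finset.range n, Em hm i * (S i - 1) * adjoint (Em hm i) := by
    intro n
    induction n with
    | zero => intro _; simp [prodSeq]
    | succ n ih =>
      intro hn
      have hnm : n < m := hn
      rw [prodSeq, ih (by omega), Finset.sum_range_succ]
      show (1 + Em hm n * (S n - 1) * adjoint (Em hm n)) *
        (1 + ∑ i ∈ Finset.range n, Em hm i * (S i - 1) * adjoint (Em hm i)) = _
      have h1 : Em hm n * (S n - 1) * adjoint (Em hm n) *
          ∑ i ∈ Finset.range n, Em hm i * (S i - 1) * adjoint (Em hm i) = 0 := by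
        rw [Finset.mul_sum]
        refine Finset.sum_eq_zero (fun i hi => ?_)
        have hi' := Finset.mem_range.1 hi
        calc _ = Em hm n * (S n - 1) * (adjoint (Em hm n) * Em hm i) * (S i - 1) *
              adjoint (Em hm i) := by simp only [mul_assoc]
          _ = 0 := by rw [Em_adj_mul_ne hm hnm (by omega) (by omega)]; simp
      rw [mul_add, add_mul, add_mul, h1]
      simp only [mul_one, one_mul, add_zero]
      abel
  rw [key m le_rfl]
  simp only [mul_sub, sub_mul, mul_one]
  rw [Finset.sum_sub_distrib, Em_sum]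
  unfold dS
  abel

end

end Pool.Agent.Work.MP_194f66_an
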