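import Pool.Agent.Work.MP_194f66_an.Blocks

open scoped InnerProductSpace ComplexConjugate
open ContinuousLinearMap InnerProductSpace

namespace Pool.Agent.Work.MP_194f66_an

theorem ent_diag_mul {D T : Op} (hD : ∀ i j, i ≠ j → ent D i j = 0) (i j : ℕ) :
    ent (D * T) i j = ent D i i * ent T i j := by
  rw [ent_mul, tsum_eq_single i]
  intro k hk
  rw [hD i k (Ne.symm hk), zero_mul]

theorem El.diag (K : ℝ) : ∃ N : ℕ, ∀ D D' : Op, D * D' = 1 → (∀ i j, i ≠ j → ent D i j = 0) →
    ‖D‖ ≤ K → ‖D'‖ ≤ K → El Set.univ N D := by
  obtain ⟨N, hN⟩ := exists_nat_ge (3 * (|Real.log K| + Real.pi) + 1)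
  refine ⟨N, ?_⟩
  intro D D' hDD' hoff hK hK'
  have hπ := Real.pi_pos
  have hN0 : (0 : ℝ) < N := by
    have := abs_nonneg (Real.log K)
    linarith
  have hN0' : (N : ℂ) ≠ 0 := by
    have : (N : ℝ) ≠ 0 := hN0.ne'
    exact_mod_cast this
  set d : ℕ → ℂ := fun i => ent D i i with hd
  have hdd' : ∀ i, d i * ent D' i i = 1 := by
    intro i
    have := ent_diag_mul (T := D') hoff i i
    rw [hDD', ent_one, if_pos rfl] at this
    exact this.symm
  have hd0 : ∀ i, d i ≠ 0 := fun i h => by
    have := hdd' i
    rw [h, zero_mul] at this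
    exact zero_ne_one this
  have hdK : ∀ i, ‖d i‖ ≤ K := fun i => (norm_ent_le D i i).trans hK
  have hK0 : 0 < K := lt_of_lt_of_le (norm_pos_iff.2 (hd0 0)) (hdK 0)
  have hdK' : ∀ i, 1 / K ≤ ‖d i‖ := by
    intro i
    have h1 : ‖d i‖ * ‖ent D' i i‖ = 1 := by rw [← norm_mul, hdd', norm_one]
    have h2 : ‖ent D' i i‖ ≤ K := (norm_ent_le D' i i).trans hK'
    rw [div_le_iff₀ hK0]
    nlinarith [norm_nonneg (d i)]
  have hlog : ∀ i, ‖Complex.log (d i)‖ ≤ |Real.log K| + Real.pi := by
    intro i
    refine (Complex.norm_le_abs_re_add_abs_im _).trans ?_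
    apply add_le_add
    · rw [Complex.log_re, abs_le]
      have hlogK : Real.log ‖d i‖ ≤ Real.log K := Real.log_le_log (norm_pos_iff.2 (hd0 i)) (hdK i)
      have hlogK' : -Real.log K ≤ Real.log ‖d i‖ := by
        rw [← Real.log_inv, ← one_div]
        exact Real.log_le_log (by positivity) (hdK' i)
      constructor
      · have := neg_abs_le (Real.log K)
        have := le_abs_self (Real.log K)
        linarith
      · exact hlogK.trans (le_abs_self _)
    · rw [Complex.log_im]
      exact Complex.abs_arg_le_pi _
  set r : ℕ → ℂ := fun i => Complex.exp (Complex.log (d i) / N) with hr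
  have hr1 : ∀ i, ‖r i - 1‖ ≤ 9 / 10 := by
    intro i
    have h1 : ‖Complex.log (d i) / N‖ ≤ 1 / 3 := by
      rw [norm_div, Complex.norm_natCast, div_le_iff₀ hN0]
      have := hlog i
      linarith
    have := Complex.norm_exp_sub_one_le (x := Complex.log (d i) / N) (by linarith)
    exact this.trans (by linarith)
  have hrN : ∀ i, r i ^ N = d i := by
    intro i
    rw [hr]
    simp only
    rw [← Complex.exp_nat_mul, mul_div_cancel₀ _ hN0', Complex.exp_log (hd0 i)]
  have hA : ∀ i, ‖(r i - 1) • (1 : Op)‖ ≤ 9 / 10 := by
    intro i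
    rw [norm_smul]
    have : ‖(1 : Op)‖ ≤ 1 := ContinuousLinearMap.norm_id_le
    calc ‖r i - 1‖ * ‖(1 : Op)‖ ≤ (9/10) * 1 := by gcongr; exact hr1 i
      _ = 9 / 10 := by ring
  set Z : Op := bsum id (fun i => (r i - 1) • (1 : Op)) (9/10) hA with hZ
  have hZent : ∀ i j, ent Z i j = if i = j then r i - 1 else 0 := by
    intro i j
    rw [hZ, ent_bsum]
    simp only [id]
    by_cases h : i = j
    · rw [if_pos h, if_pos h, ent_smul, ent_one, if_pos h, mul_one]
    · rw [if_neg h, if_neg h]
  have h1Z : ∀ i j, ent (1 + Z) i j = if i = j then r i else 0 := by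
    intro i j
    rw [ent_add, ent_one, hZent]
    by_cases h : i = j
    · rw [if_pos h, if_pos h, if_pos h]; ring
    · rw [if_neg h, if_neg h, if_neg h]; ring
  have hpow : ∀ k i j, ent ((1 + Z) ^ k) i j = if i = j then r i ^ k else 0 := by
    intro k
    induction k with
    | zero => intro i j; rw [pow_zero, ent_one]; simp
    | succ k ih =>
      intro i j
      rw [pow_succ', ent_diag_mul (fun i j hij => by rw [h1Z, if_neg hij]), h1Z, if_pos rfl, ih]
      by_cases h : i = j
      · rw [if_pos h, if_pos h, pow_succ']
      · rw [if_neg h, if_neg h, mul_zero]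
  have hD : D = (1 + Z) ^ N := by
    apply ext_ent
    intro i j
    rw [hpow]
    by_cases h : i = j
    · subst h; rw [if_pos rfl, hrN]
    · rw [if_neg h, hoff i j h]
  rw [hD]
  have h6 : El Set.univ 1 (1 + Z) := by
    apply El.one_add
    · intro i j hij
      rw [hZent, if_neg (by omega)]
    · intro i j _
      exact ⟨Set.mem_univ _, Set.mem_univ _⟩
    · exact norm_bsum_le _ _ _ _
  have := h6.pow N
  rwa [Nat.mul_one] at this

theorem ent_proj_mul (S : Set ℕ) (T : Op) (i j : ℕ) [Decidable (i ∈ S)] :
    ent (proj S * T) i j = if i ∈ S then ent T i j else 0 := by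
  classical
  rw [ent_diag_mul (fun a b hab => by rw [ent_proj, if_neg (fun h => hab h.1)]), ent_proj]
  by_cases h : i ∈ S
  · simp [h]
  · simp [h]

theorem ent_mul_proj (S : Set ℕ) (T : Op) (i j : ℕ) [Decidable (j ∈ S)] :
    ent (T * proj S) i j = if j ∈ S then ent T i j else 0 := by
  classical
  rw [ent_mul, tsum_eq_single j]
  · rw [ent_proj]
    by_cases h : j ∈ S
    · simp [h]
    · simp [h]
  · intro k hk
    rw [ent_proj, if_neg (fun h => hk h.1), mul_zero]

/-- unipotent block diagonal operators with bounded block size -/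
theorem El.unipotent (L : ℕ) (hL : 0 < L) (c : ℝ) : ∃ N : ℕ, ∀ Z : Op,
    (∀ i j, ent Z i j ≠ 0 → i % L < j % L) → UT Z → ‖Z‖ ≤ c → El Set.univ N (1 + Z) := by
  obtain ⟨M, hM⟩ := exists_nat_ge (10 / 9 * c + 1)
  refine ⟨L * M, ?_⟩
  intro Z hZ hUT hc
  have hc0 : 0 ≤ c := (norm_nonneg _).trans hc
  have hM0 : 0 < M := by
    have : (0 : ℝ) < M := by linarith
    exact_mod_cast this
  classical
  have key : ∀ n, El Set.univ (n * M) (1 + proj {k | k % L < n} * Z) := by
    intro n
    induction n with
    | zero =>
      have : (1 : Op) + proj {k | k % L < 0} * Z = 1 := by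
        have h : proj {k | k % L < 0} * Z = 0 := by
          apply ext_ent
          intro i j
          rw [ent_proj_mul, if_neg (by simp), ent_zero]
        rw [h, add_zero]
      rw [this, Nat.zero_mul]; rfl
    | succ n ih =>
      set W : Op := proj {k | k % L = n} * Z with hW
      have hWent : ∀ i j, ent W i j = if i % L = n then ent Z i j else 0 := by
        intro i j
        rw [hW, ent_proj_mul]
        rfl
      have hPent : ∀ n i j, ent (proj {k | k % L < n} * Z) i j =
          if i % L < n then ent Z i j else 0 := by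
        intro n i j
        rw [ent_proj_mul]
        rfl
      have h1 : W * W = 0 := by
        apply ext_ent
        intro i j
        rw [ent_mul, ent_zero]
        have : ∀ k, ent W i k * ent W k j = 0 := by
          intro k
          rw [hWent, hWent]
          by_cases hi : i % L = n
          · by_cases hk : k % L = n
            · have : ent Z i k = 0 := by
                by_contra hne
                have := hZ i k hne
                omega
              rw [this]; simp
            · rw [if_neg hk, mul_zero]
          · rw [if_neg hi, zero_mul]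
        simp [this]
      have h2 : W * (proj {k | k % L < n} * Z) = 0 := by
        apply ext_ent
        intro i j
        rw [ent_mul, ent_zero]
        have : ∀ k, ent W i k * ent (proj {k | k % L < n} * Z) k j = 0 := by
          intro k
          rw [hWent, hPent]
          by_cases hi : i % L = n
          · by_cases hk : k % L < n
            · have : ent Z i k = 0 := by
                by_contra hne
                have := hZ i k hne
                omega
              rw [this]; simp
            · rw [if_neg hk, mul_zero]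
          · rw [if_neg hi, zero_mul]
        simp [this]
      have h3 : (1 : Op) + proj {k | k % L < n + 1} * Z = (1 + W) * (1 + proj {k | k % L < n} * Z) := by
        rw [add_mul, one_mul, mul_add, mul_one, h2, add_zero]
        have h4 : proj {k | k % L < n + 1} * Z = proj {k | k % L < n} * Z + W := by
          apply ext_ent
          intro i j
          rw [ent_add, hPent, hPent, hWent]
          rcases lt_trichotomy (i % L) n with h | h | h
          · rw [if_pos (by omega), if_pos h, if_neg (by omega), add_zero]
          · rw [if_pos (by omega), if_neg (by omega), if_pos h, zero_add]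
          · rw [if_neg (by omega), if_neg (by omega), if_neg (by omega), add_zero]
        rw [h4, add_assoc]
      rw [h3]
      have h5 : El Set.univ M (1 + W) := by
        apply El.sqZero _ _ h1 M hM0
        · have : ‖W‖ ≤ ‖Z‖ := by
            calc ‖W‖ ≤ ‖proj {k | k % L = n}‖ * ‖Z‖ := norm_mul_le _ _
              _ ≤ 1 * ‖Z‖ := by gcongr; exact norm_proj_le _
              _ = ‖Z‖ := one_mul _
          have hM' : (10 / 9 * c + 1 : ℝ) ≤ M := hM
          linarith
        · intro i j hij
          rw [hWent, hUT i j hij]; simp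
        · intro i j _
          exact ⟨Set.mem_univ _, Set.mem_univ _⟩
      have h6 := ih.mul h5
      have h7 : (n + 1) * M = M + n * M := by ring
      rw [h7]; exact h6
  have h := key L
  have h8 : proj {k | k % L < L} * Z = Z := by
    apply ext_ent
    intro i j
    rw [ent_proj_mul, if_pos]
    exact Nat.mod_lt _ hL
  rwa [h8] at h

/-- The block-diagonal part of an invertible upper triangular operator is elementary. -/
theorem El.pinch (L : ℕ) (hL : 0 < L) (K : ℝ) : ∃ N : ℕ, ∀ R R' : Op, Inv R R' →
    ‖R‖ ≤ K → ‖R'‖ ≤ K → El Set.univ N (pinch (fun n => n / L) R) := by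
  obtain ⟨N1, hN1⟩ := El.diag K
  obtain ⟨N2, hN2⟩ := El.unipotent L hL (K * K + 1)
  refine ⟨N1 + N2, ?_⟩
  intro R R' h hK hK'
  have hK0 : 0 ≤ K := (norm_nonneg _).trans hK
  have hg : Monotone (fun n : ℕ => n / L) := fun a b hab => Nat.div_le_div_right hab
  set D := Work.MP_194f66_an.pinch (fun n => n / L) R with hD
  set d := Work.MP_194f66_an.pinch id R with hd
  set d' := Work.MP_194f66_an.pinch id R' with hd'
  have h1 : d * d' = 1 := by
    rw [hd, hd', ← pinch_mul monotone_id h.ut h.ut', h.mul, pinch_one]
  have hdent : ∀ i j, i ≠ j → ent d i j = 0 := by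
    intro i j hij
    rw [hd, ent_pinch, if_neg (by simpa using hij)]
  have hd'ent : ∀ i j, i ≠ j → ent d' i j = 0 := by
    intro i j hij
    rw [hd', ent_pinch, if_neg (by simpa using hij)]
  have h2 : D = d * (1 + (d' * D - 1)) := by
    rw [add_sub_cancel, ← mul_assoc, h1, one_mul]
  rw [h2]
  have h3 : El Set.univ N1 d :=
    hN1 d d' h1 hdent ((norm_pinch_le _ _).trans hK) ((norm_pinch_le _ _).trans hK')
  refine El.mul ?_ h3
  have hent : ∀ i j, ent (d' * D - 1) i j =
      if i / L = j / L then (ent R' i i * ent R i j - if i = j then 1 else 0) else 0 := by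
    intro i j
    rw [ent_sub, ent_diag_mul hd'ent, ent_one]
    have q1 : ent d' i i = ent R' i i := by rw [hd', ent_pinch, if_pos rfl]
    have q2 : ent D i j = if i / L = j / L then ent R i j else 0 := by rw [hD, ent_pinch]
    rw [q1, q2]
    by_cases hij : i / L = j / L
    · rw [if_pos hij, if_pos hij]
    · rw [if_neg hij, if_neg hij, if_neg (fun hh => hij (by rw [hh]))]
      ring
  have hdiag : ∀ i, ent R' i i * ent R i i = 1 := by
    intro i
    have h5 : Work.MP_194f66_an.pinch id R' * Work.MP_194f66_an.pinch id R = 1 := by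
      rw [← pinch_mul monotone_id h.ut' h.ut, h.mul', pinch_one]
    have h6 := ent_diag_mul (T := Work.MP_194f66_an.pinch id R) hd'ent i i
    rw [h5, ent_one, if_pos rfl, ent_pinch, ent_pinch, if_pos rfl, if_pos rfl] at h6
    exact h6.symm
  have hUT : UT (d' * D - 1) := (h.ut'.pinch.mul h.ut.pinch).sub UT.one
  apply hN2
  · intro i j hij
    rw [hent] at hij
    by_cases h7 : i / L = j / L
    · rw [if_pos h7] at hij
      have h8 : i ≠ j := by
        rintro rfl
        apply hij
        rw [if_pos rfl, hdiag, sub_self]
      have h9 : i < j := by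
        rcases lt_trichotomy i j with h' | h' | h'
        · exact h'
        · exact absurd h' h8
        · exfalso
          apply hij
          rw [h.ut i j h', if_neg h8]; ring
      have h10 := Nat.div_add_mod i L
      have h11 := Nat.div_add_mod j L
      rw [← h7] at h11
      omega
    · rw [if_neg h7] at hij
      exact absurd rfl hij
  · exact hUT
  · refine (norm_sub_le _ _).trans (add_le_add ?_ ContinuousLinearMap.norm_id_le)
    refine (norm_mul_le _ _).trans ?_
    have := (norm_pinch_le id R').trans hK'
    have := (norm_pinch_le (fun n => n / L) R).trans hK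
    gcongr

end Pool.Agent.Work.MP_194f66_an
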