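import Pool.Agent.Work.MP_194f66_an.Factor

open scoped InnerProductSpace ComplexConjugate
open ContinuousLinearMap InnerProductSpace

namespace Pool.Agent.Work.MP_194f66_an

/-- `Z` has all its nonzero entries in `Γ × Γ`. -/
def SuppIn (Γ : Set ℕ) (Z : Op) : Prop := ∀ i j, ent Z i j ≠ 0 → i ∈ Γ ∧ j ∈ Γ

/-- Products of `n` elementary factors `1 + Z`, `Z` upper triangular with small norm. -/
def El (Γ : Set ℕ) : ℕ → Op → Prop
  | 0, g => g = 1
  | n + 1, g => ∃ Z h : Op, El Γ n h ∧ UT Z ∧ SuppIn Γ Z ∧ ‖Z‖ ≤ 9 / 10 ∧ g = (1 + Z) * h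

theorem SuppIn.zero (Γ : Set ℕ) : SuppIn Γ 0 := by
  intro i j h
  exact absurd (ent_zero i j) h

theorem SuppIn.mono {Γ Γ' : Set ℕ} (h : Γ ⊆ Γ') {Z : Op} (hZ : SuppIn Γ Z) : SuppIn Γ' Z :=
  fun i j hij => ⟨h (hZ i j hij).1, h (hZ i j hij).2⟩

theorem El.mono {Γ Γ' : Set ℕ} (h : Γ ⊆ Γ') {n : ℕ} : ∀ {g : Op}, El Γ n g → El Γ' n g := by
  induction n with
  | zero => intro g hg; exact hg
  | succ n ih =>
    rintro g ⟨Z, k, hk, h1, h2, h3, h4⟩
    exact ⟨Z, k, ih hk, h1, h2.mono h, h3, h4⟩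

theorem El.pad {Γ : Set ℕ} {n : ℕ} {g : Op} (hg : El Γ n g) (m : ℕ) : El Γ (n + m) g := by
  induction m with
  | zero => exact hg
  | succ m ih =>
    refine ⟨0, g, ih, UT.zero, SuppIn.zero Γ, ?_, ?_⟩
    · rw [norm_zero]; norm_num
    · rw [add_zero, one_mul]

theorem El.mul {Γ : Set ℕ} {n m : ℕ} {k : Op} (hk : El Γ m k) :
    ∀ {g : Op}, El Γ n g → El Γ (n + m) (g * k) := by
  induction n with
  | zero =>
    intro g hg
    have : g = 1 := hg
    rw [this, one_mul, Nat.zero_add]; exact hk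
  | succ n ih =>
    rintro g ⟨Z, h, hh, h1, h2, h3, h4⟩
    rw [h4, mul_assoc]
    have : n + 1 + m = (n + m) + 1 := by ring
    rw [this]
    exact ⟨Z, h * k, ih hh, h1, h2, h3, rfl⟩

theorem El.one_add {Γ : Set ℕ} {Z : Op} (h1 : UT Z) (h2 : SuppIn Γ Z) (h3 : ‖Z‖ ≤ 9 / 10) :
    El Γ 1 (1 + Z) := ⟨Z, 1, rfl, h1, h2, h3, (mul_one _).symm⟩

theorem El.pow {Γ : Set ℕ} {n : ℕ} {g : Op} (hg : El Γ n g) (N : ℕ) : El Γ (N * n) (g ^ N) := by
  induction N with
  | zero => rw [pow_zero, Nat.zero_mul]; rfl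
  | succ N ih =>
    rw [pow_succ, Nat.succ_mul]
    exact hg.mul ih

/-- square-zero perturbations -/
theorem El.sqZero {Γ : Set ℕ} {Z : Op} (h1 : UT Z) (h2 : SuppIn Γ Z) (h3 : Z * Z = 0)
    (N : ℕ) (hN : 0 < N) (h4 : ‖Z‖ ≤ 9 / 10 * N) : El Γ N (1 + Z) := by
  have hN' : (0 : ℝ) < N := by exact_mod_cast hN
  set W : Op := ((N : ℂ)⁻¹) • Z with hW
  have hWW : W * W = 0 := by
    rw [hW, smul_mul_smul_comm, h3, smul_zero]
  have hpow : ∀ k : ℕ, (1 + W) ^ k = 1 + (k : ℂ) • W := by
    intro k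
    induction k with
    | zero => simp
    | succ k ih =>
      rw [pow_succ, ih]
      have : (k : ℂ) • W * W = 0 := by rw [smul_mul_assoc, hWW, smul_zero]
      rw [add_mul, one_mul, mul_add, mul_one, this, add_zero]
      push_cast
      rw [add_smul, one_smul]
      abel
  have h5 : (1 : Op) + Z = (1 + W) ^ N := by
    rw [hpow N, hW, smul_smul, mul_inv_cancel₀, one_smul]
    exact_mod_cast hN.ne'
  rw [h5]
  have h6 : El Γ 1 (1 + W) := by
    apply El.one_add (h1.smul _)
    · intro i j hij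
      apply h2
      intro h
      apply hij
      rw [ent_smul, h, mul_zero]
    · rw [norm_smul, norm_inv, Complex.norm_natCast]
      rw [inv_mul_le_iff₀ hN']
      linarith
  have := h6.pow N
  rwa [Nat.mul_one] at this

theorem ent_continuous (i j : ℕ) : Continuous fun T : Op => ent T i j := by
  have h1 : Continuous fun T : Op => T (e j) := by fun_prop
  have h2 : (fun T : Op => ent T i j) = fun T : Op => ⟪e i, T (e j)⟫_ℂ := by
    funext T; exact ent_eq_inner T i j
  rw [h2]
  exact continuous_const.inner h1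

theorem UT.pow {T : Op} (h : UT T) (n : ℕ) : UT (T ^ n) := by
  induction n with
  | zero => rw [pow_zero]; exact UT.one
  | succ n ih => rw [pow_succ]; exact ih.mul h

/-- Upper triangular Neumann series. -/
theorem exists_inv_one_add {Z : Op} (h1 : UT Z) (h2 : ‖Z‖ < 1) :
    ∃ W, Inv (1 + Z) W := by
  have h3 : ‖-Z‖ < 1 := by rwa [norm_neg]
  refine ⟨∑' n : ℕ, (-Z) ^ n, UT.one.add h1, ?_, ?_, ?_⟩
  · intro i j hij
    have hs : HasSum (fun n : ℕ => (-Z) ^ n) (∑' n : ℕ, (-Z) ^ n) :=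
      (summable_geometric_of_norm_lt_one h3).hasSum
    let φ : Op →+ ℂ := { toFun := fun T => ent T i j, map_zero' := rfl, map_add' := fun _ _ => rfl }
    have h4 := hs.map φ (ent_continuous i j)
    have h5 : (φ ∘ fun n : ℕ => (-Z) ^ n) = fun _ => 0 := by
      funext n
      exact (h1.neg.pow n) i j hij
    rw [h5] at h4
    exact h4.unique hasSum_zero
  · have := mul_neg_geom_series (-Z) h3
    rwa [sub_neg_eq_add] at this
  · have := geom_series_mul_neg (-Z) h3
    rwa [sub_neg_eq_add] at this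

theorem El.inv {Γ : Set ℕ} {n : ℕ} : ∀ {g : Op}, El Γ n g → ∃ g', Inv g g' := by
  induction n with
  | zero => intro g hg; exact ⟨1, by rw [show g = 1 from hg]; exact Inv.one⟩
  | succ n ih =>
    rintro g ⟨Z, h, hh, h1, h2, h3, h4⟩
    obtain ⟨h', hh'⟩ := ih hh
    obtain ⟨W, hW⟩ := exists_inv_one_add h1 (by linarith : ‖Z‖ < 1)
    rw [h4]
    exact ⟨h' * W, hW.mul_inv hh'⟩

/-- entries of a block direct sum -/
def IsDsum (idx : ℕ → ℕ) (g : ℕ → Op) (G : Op) : Prop :=
  ∀ a b, ent G a b = if idx a = idx b then ent (g (idx a)) a b else 0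

theorem El.dsum (idx : ℕ → ℕ) (Γ : ℕ → Set ℕ) (hΓ : ∀ i, ∀ a ∈ Γ i, idx a = i) {n : ℕ} :
    ∀ (g : ℕ → Op), (∀ i, El (Γ i) n (g i)) → ∃ G, El (⋃ i, Γ i) n G ∧ IsDsum idx g G := by
  induction n with
  | zero =>
    intro g hg
    refine ⟨1, rfl, ?_⟩
    intro a b
    have : g (idx a) = 1 := hg _
    rw [this, ent_one]
    by_cases h : a = b
    · subst h; simp
    · simp [h]
  | succ n ih =>
    intro g hg
    choose Z h hh h1 h2 h3 h4 using hg
    obtain ⟨G', hG1, hG2⟩ := ih h hh
    set ZZ := bsum idx Z (9/10) h3 with hZZ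
    have hent : ∀ a b, ent ZZ a b = if idx a = idx b then ent (Z (idx a)) a b else 0 :=
      fun a b => ent_bsum idx Z _ h3 a b
    refine ⟨(1 + ZZ) * G', ⟨ZZ, G', hG1, ?_, ?_, norm_bsum_le _ _ _ _, rfl⟩, ?_⟩
    · intro i j hij
      rw [hent]
      split_ifs
      · exact h1 _ i j hij
      · rfl
    · intro i j hij
      rw [hent] at hij
      split_ifs at hij with hidx
      · have := h2 _ i j hij
        exact ⟨Set.mem_iUnion.2 ⟨_, this.1⟩, Set.mem_iUnion.2 ⟨_, this.2⟩⟩
      · exact absurd rfl hij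
    · intro a b
      rw [ent_mul]
      by_cases hab : idx a = idx b
      · rw [if_pos hab, h4 (idx a), ent_mul]
        congr 1
        funext k
        rw [ent_add, ent_add, hent, hG2 k b]
        by_cases hk : idx a = idx k
        · have hkb : idx k = idx b := hk.symm.trans hab
          rw [if_pos hk, if_pos hkb, hk]
        · have hkb : ¬ (idx k = idx b) := fun hh => hk (hab.trans hh.symm)
          rw [if_neg hk, if_neg hkb, mul_zero]
          have hz : ent (Z (idx a)) a k = 0 := by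
            by_contra hne
            exact hk (hΓ _ k (h2 _ a k hne).2).symm
          have hone : ent 1 a k = 0 := by
            rw [ent_one, if_neg]
            rintro rfl
            exact hk rfl
          rw [hz, hone, add_zero, zero_mul]
      · rw [if_neg hab]
        have : ∀ k, ent (1 + ZZ) a k * ent G' k b = 0 := by
          intro k
          rw [ent_add, hent, hG2 k b]
          by_cases hk : idx a = idx k
          · have hkb : ¬ (idx k = idx b) := fun hh => hab (hk.trans hh)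
            rw [if_neg hkb, mul_zero]
          · have hone : ent 1 a k = 0 := by
              rw [ent_one, if_neg]
              rintro rfl
              exact hk rfl
            rw [if_neg hk, hone, add_zero, zero_mul]
        simp [this]

end Pool.Agent.Work.MP_194f66_an
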