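import Mathlib

open scoped InnerProductSpace ComplexConjugate

namespace Pool.Agent.Work.MP_194f66_an

/-- The statement of the halving lemma (a consequence of the Marcus-Spielman-Srivastava theorem). -/
def Halving : Prop :=
  ∀ (d n : ℕ) (u v : Fin n → EuclideanSpace ℂ (Fin d)) (δ : ℝ), 0 ≤ δ →
    (∀ k, ‖u k‖ ^ 2 ≤ δ) → (∀ k, ‖v k‖ ^ 2 ≤ δ) →
    (∀ x, ∑ k, (‖⟪u k, x⟫_ℂ‖ ^ 2 + ‖⟪v k, x⟫_ℂ‖ ^ 2) ≤ ‖x‖ ^ 2) →
    ∃ s : Fin n → ℝ, (∀ k, s k = 1 ∨ s k = -1) ∧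
      ∀ x, |∑ k, s k * (‖⟪u k, x⟫_ℂ‖ ^ 2 - ‖⟪v k, x⟫_ℂ‖ ^ 2)| ≤ (4 * √δ + 4 * δ) * ‖x‖ ^ 2

/-- Halving for an arbitrary inner product space and arbitrary frame bound. -/
theorem halving_gen (hM : Halving) {E : Type*} [NormedAddCommGroup E] [InnerProductSpace ℂ E]
    {ι : Type*} [Fintype ι] (u v : ι → E) (β δ : ℝ) (hβ : 0 < β) (hδ : 0 ≤ δ)
    (hu : ∀ k, ‖u k‖ ^ 2 ≤ δ) (hv : ∀ k, ‖v k‖ ^ 2 ≤ δ)
    (hs : ∀ x, ∑ k, (‖⟪u k, x⟫_ℂ‖ ^ 2 + ‖⟪v k, x⟫_ℂ‖ ^ 2) ≤ β * ‖x‖ ^ 2) :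
    ∃ c : ι → Bool, ∀ x, |∑ k, 2 * ‖⟪(if c k then v k else u k), x⟫_ℂ‖ ^ 2 -
      ∑ k, (‖⟪u k, x⟫_ℂ‖ ^ 2 + ‖⟪v k, x⟫_ℂ‖ ^ 2)| ≤ (4 * √(β * δ) + 4 * δ) * ‖x‖ ^ 2 := by
  classical
  set F : Submodule ℂ E := Submodule.span ℂ (Set.range u ∪ Set.range v) with hF
  have : FiniteDimensional ℂ F :=
    FiniteDimensional.span_of_finite ℂ ((Set.finite_range u).union (Set.finite_range v))
  have huF : ∀ k, u k ∈ F := fun k => Submodule.subset_span (Or.inl ⟨k, rfl⟩)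
  have hvF : ∀ k, v k ∈ F := fun k => Submodule.subset_span (Or.inr ⟨k, rfl⟩)
  set φ := (stdOrthonormalBasis ℂ F).repr with hφ
  set d := Module.finrank ℂ F with hd
  obtain ⟨ψ⟩ : Nonempty (ι ≃ Fin (Fintype.card ι)) := ⟨Fintype.equivFin ι⟩
  have hβs : 0 < √β := Real.sqrt_pos.2 hβ
  set r : ℂ := (((√β)⁻¹ : ℝ) : ℂ) with hr
  have hrn : ‖r‖ ^ 2 = β⁻¹ := by
    rw [hr, Complex.norm_real, Real.norm_eq_abs, sq_abs, inv_pow, Real.sq_sqrt hβ.le]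
  set u' : Fin (Fintype.card ι) → EuclideanSpace ℂ (Fin d) :=
    fun k => r • φ ⟨u (ψ.symm k), huF _⟩ with hu'
  set v' : Fin (Fintype.card ι) → EuclideanSpace ℂ (Fin d) :=
    fun k => r • φ ⟨v (ψ.symm k), hvF _⟩ with hv'
  have hinner : ∀ (w : E) (hw : w ∈ F) (y : EuclideanSpace ℂ (Fin d)),
      ‖⟪r • φ ⟨w, hw⟩, y⟫_ℂ‖ ^ 2 = β⁻¹ * ‖⟪w, ((φ.symm y : F) : E)⟫_ℂ‖ ^ 2 := by
    intro w hw y
    rw [inner_smul_left, norm_mul, mul_pow, RCLike.norm_conj, hrn]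
    congr 3
    have h1 : ⟪φ ⟨w, hw⟩, y⟫_ℂ = ⟪φ ⟨w, hw⟩, φ (φ.symm y)⟫_ℂ := by
      rw [LinearIsometryEquiv.apply_symm_apply]
    rw [h1, LinearIsometryEquiv.inner_map_map]
    rfl
  have hnorm : ∀ (w : E) (hw : w ∈ F), ‖r • φ ⟨w, hw⟩‖ ^ 2 = β⁻¹ * ‖w‖ ^ 2 := by
    intro w hw
    rw [norm_smul, mul_pow, hrn, LinearIsometryEquiv.norm_map]
    rfl
  obtain ⟨s, hs1, hs2⟩ := hM d (Fintype.card ι) u' v' (β⁻¹ * δ) (by positivity)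
    (fun k => by rw [hu', hnorm]; gcongr; exact hu _)
    (fun k => by rw [hv', hnorm]; gcongr; exact hv _)
    (fun y => by
      simp only [hu', hv', hinner]
      rw [← Equiv.sum_comp ψ]
      simp only [Equiv.symm_apply_apply]
      calc ∑ k, (β⁻¹ * ‖⟪u k, ((φ.symm y : F) : E)⟫_ℂ‖ ^ 2 +
              β⁻¹ * ‖⟪v k, ((φ.symm y : F) : E)⟫_ℂ‖ ^ 2)
          = β⁻¹ * ∑ k, (‖⟪u k, ((φ.symm y : F) : E)⟫_ℂ‖ ^ 2 +
              ‖⟪v k, ((φ.symm y : F) : E)⟫_ℂ‖ ^ 2) := by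
            rw [Finset.mul_sum]
            apply Finset.sum_congr rfl
            intro k _; ring
        _ ≤ β⁻¹ * (β * ‖((φ.symm y : F) : E)‖ ^ 2) := by gcongr; exact hs _
        _ = ‖y‖ ^ 2 := by
            rw [← mul_assoc, inv_mul_cancel₀ hβ.ne', one_mul]
            have : ‖((φ.symm y : F) : E)‖ = ‖φ.symm y‖ := rfl
            rw [this, LinearIsometryEquiv.norm_map])
  refine ⟨fun k => decide (s (ψ k) = -1), ?_⟩
  intro x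
  set y : F := F.orthogonalProjectionOnto x with hy
  have hproj : ∀ w ∈ F, ⟪w, x⟫_ℂ = ⟪w, (y : E)⟫_ℂ := by
    intro w hw
    have h1 : x - (y : E) ∈ Fᗮ := Submodule.sub_starProjection_mem_orthogonal x
    have h2 := (Submodule.mem_orthogonal _ _).1 h1 w hw
    rw [inner_sub_right] at h2
    exact sub_eq_zero.1 h2
  have hyn : ‖y‖ ≤ ‖x‖ := Submodule.norm_orthogonalProjectionOnto_apply_le F x
  have h3 := hs2 (φ y)
  simp only [hu', hv', hinner, LinearIsometryEquiv.symm_apply_apply] at h3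
  rw [← Equiv.sum_comp ψ] at h3
  simp only [Equiv.symm_apply_apply, LinearIsometryEquiv.norm_map] at h3
  have h4 : ∑ k, 2 * ‖⟪(if decide (s (ψ k) = -1) then v k else u k), x⟫_ℂ‖ ^ 2 -
      ∑ k, (‖⟪u k, x⟫_ℂ‖ ^ 2 + ‖⟪v k, x⟫_ℂ‖ ^ 2) =
      β * ∑ k, s (ψ k) * (β⁻¹ * ‖⟪u k, (y : E)⟫_ℂ‖ ^ 2 - β⁻¹ * ‖⟪v k, (y : E)⟫_ℂ‖ ^ 2) := by
    rw [Finset.mul_sum, ← Finset.sum_sub_distrib]
    apply Finset.sum_congr rfl
    intro k _
    rw [hproj (u k) (huF k), hproj (v k) (hvF k)]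
    have hbb : β * β⁻¹ = 1 := mul_inv_cancel₀ hβ.ne'
    rcases hs1 (ψ k) with h | h
    · rw [h]
      have : ¬ ((1 : ℝ) = -1) := by norm_num
      simp only [this, decide_false, Bool.false_eq_true, if_false]
      rw [hproj (u k) (huF k)]
      linear_combination (-(‖⟪u k, (y : E)⟫_ℂ‖ ^ 2 - ‖⟪v k, (y : E)⟫_ℂ‖ ^ 2)) * hbb
    · rw [h]
      simp only [decide_true, if_true]
      rw [hproj (v k) (hvF k)]
      linear_combination ((‖⟪u k, (y : E)⟫_ℂ‖ ^ 2 - ‖⟪v k, (y : E)⟫_ℂ‖ ^ 2)) * hbb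
  rw [h4, abs_mul, abs_of_pos hβ]
  calc β * |∑ k, s (ψ k) * (β⁻¹ * ‖⟪u k, (y : E)⟫_ℂ‖ ^ 2 - β⁻¹ * ‖⟪v k, (y : E)⟫_ℂ‖ ^ 2)|
      ≤ β * ((4 * √(β⁻¹ * δ) + 4 * (β⁻¹ * δ)) * ‖y‖ ^ 2) := by gcongr
    _ = (4 * (β * √(β⁻¹ * δ)) + 4 * ((β * β⁻¹) * δ)) * ‖y‖ ^ 2 := by ring
    _ = (4 * √(β * δ) + 4 * δ) * ‖y‖ ^ 2 := by
        rw [mul_inv_cancel₀ hβ.ne', one_mul]
        congr 3
        rw [Real.sqrt_mul (by positivity), Real.sqrt_mul hβ.le, Real.sqrt_inv, ← mul_assoc]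
        congr 1
        rw [← div_eq_mul_inv, Real.div_sqrt]
    _ ≤ (4 * √(β * δ) + 4 * δ) * ‖x‖ ^ 2 := by gcongr

theorem sum_cons {s : ℕ} (f : (Fin (s + 1) → Bool) → ℝ) :
    ∑ i, f i = ∑ i : Fin s → Bool, (f (Fin.cons false i) + f (Fin.cons true i)) := by
  rw [← (Fin.consEquiv (fun _ : Fin (s + 1) => Bool)).sum_comp, Fintype.sum_prod_type]
  simp only [Fintype.sum_bool]
  rw [← Finset.sum_add_distrib]
  apply Finset.sum_congr rfl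
  intro i _
  rw [add_comm]
  rfl

/-- Finite sampling: one vector out of each group of `2 ^ s`. -/
theorem sampling_fin (hM : Halving) {E : Type*} [NormedAddCommGroup E] [InnerProductSpace ℂ E]
    (s : ℕ) : ∀ {ι : Type} [Fintype ι] (z : ι → (Fin s → Bool) → E) (β δ : ℝ), 0 < β → 0 ≤ δ →
    (∀ k i, ‖z k i‖ ^ 2 ≤ δ) → (∀ x, ∑ k, ∑ i, ‖⟪z k i, x⟫_ℂ‖ ^ 2 ≤ β * ‖x‖ ^ 2) →
    2 ^ s * δ ≤ β / 10000 →
    ∃ b : ι → (Fin s → Bool), ∀ x, |∑ k, 2 ^ s * ‖⟪z k (b k), x⟫_ℂ‖ ^ 2 -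
      ∑ k, ∑ i, ‖⟪z k i, x⟫_ℂ‖ ^ 2| ≤ 12 * √(β * (2 ^ s * δ)) * ‖x‖ ^ 2 := by
  classical
  induction s with
  | zero =>
    intro ι _ z β δ hβ hδ hz hsum hsmall
    refine ⟨fun _ => default, ?_⟩
    intro x
    have : ∑ k, (2 : ℝ) ^ 0 * ‖⟪z k default, x⟫_ℂ‖ ^ 2 - ∑ k, ∑ i, ‖⟪z k i, x⟫_ℂ‖ ^ 2 = 0 := by
      rw [sub_eq_zero]
      apply Finset.sum_congr rfl
      intro k _
      rw [Fintype.sum_subsingleton _ (default : Fin 0 → Bool)]; ring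
    rw [this, abs_zero]
    positivity
  | succ s ih =>
    intro ι _ z β δ hβ hδ hz hsum hsmall
    set z' : ι × Bool → (Fin s → Bool) → E := fun p i => z p.1 (Fin.cons p.2 i) with hz'
    have hsum' : ∀ x, ∑ p, ∑ i, ‖⟪z' p i, x⟫_ℂ‖ ^ 2 = ∑ k, ∑ i, ‖⟪z k i, x⟫_ℂ‖ ^ 2 := by
      intro x
      rw [Fintype.sum_prod_type]
      apply Finset.sum_congr rfl
      intro k _
      rw [sum_cons, Fintype.sum_bool, ← Finset.sum_add_distrib]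
      apply Finset.sum_congr rfl
      intro i _
      rw [hz', add_comm]
    have hD0 : (0 : ℝ) ≤ 2 ^ s * δ := by positivity
    have hsm1 : 2 ^ s * δ ≤ β / 20000 := by
      have : (2 : ℝ) ^ (s + 1) * δ = 2 * (2 ^ s * δ) := by ring
      linarith
    obtain ⟨b', hb'⟩ := ih z' β δ hβ hδ (fun p i => hz _ _) (fun x => by rw [hsum']; exact hsum x)
      (by linarith)
    set D : ℝ := 2 ^ s * δ with hD
    set S : ℝ := √(β * D) with hS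
    have hS0 : 0 ≤ S := Real.sqrt_nonneg _
    have hSS : S * S = β * D := Real.mul_self_sqrt (by positivity)
    have hSβ : S ≤ β / 141 := by
      rw [hS]
      apply Real.sqrt_le_iff.2
      constructor
      · positivity
      · nlinarith
    have hDS : D ≤ S / 141 := by
      -- D = sqrt D * sqrt D <= sqrt D * sqrt (beta/20000)
      have : D * D ≤ (S / 141) * (S / 141) := by
        have : (S / 141) * (S / 141) = β * D / 19881 := by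
          rw [div_mul_div_comm, hSS]; norm_num
        rw [this]
        nlinarith
      exact le_of_sq_le_sq (by rw [sq, sq]; exact this) (by positivity)
    have hp : (0 : ℝ) < 2 ^ s := by positivity
    set r : ℂ := ((√((2 : ℝ) ^ s) : ℝ) : ℂ) with hr
    have hrn : ‖r‖ ^ 2 = 2 ^ s := by
      rw [hr, Complex.norm_real, Real.norm_eq_abs, sq_abs, Real.sq_sqrt hp.le]
    set u : ι → E := fun k => r • z' (k, false) (b' (k, false)) with hu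
    set v : ι → E := fun k => r • z' (k, true) (b' (k, true)) with hv
    have hin : ∀ (w x : E), ‖⟪r • w, x⟫_ℂ‖ ^ 2 = 2 ^ s * ‖⟪w, x⟫_ℂ‖ ^ 2 := by
      intro w x
      rw [inner_smul_left, norm_mul, mul_pow, RCLike.norm_conj, hrn]
    have hno : ∀ (w : E), ‖r • w‖ ^ 2 = 2 ^ s * ‖w‖ ^ 2 := by
      intro w
      rw [norm_smul, mul_pow, hrn]
    have huv : ∀ x, ∑ k, (‖⟪u k, x⟫_ℂ‖ ^ 2 + ‖⟪v k, x⟫_ℂ‖ ^ 2) =
        ∑ p, 2 ^ s * ‖⟪z' p (b' p), x⟫_ℂ‖ ^ 2 := by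
      intro x
      rw [Fintype.sum_prod_type]
      apply Finset.sum_congr rfl
      intro k _
      rw [Fintype.sum_bool, hu, hv]
      simp only [hin]
      rw [add_comm]
    have hβ' : ∀ x, ∑ k, (‖⟪u k, x⟫_ℂ‖ ^ 2 + ‖⟪v k, x⟫_ℂ‖ ^ 2) ≤ (β + 12 * S) * ‖x‖ ^ 2 := by
      intro x
      rw [huv]
      have h1 := (abs_le.1 (hb' x)).2
      have h2 := hsum x
      rw [hsum'] at h1
      linarith
    obtain ⟨c, hc⟩ := halving_gen hM u v (β + 12 * S) D (by positivity) hD0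
      (fun k => by rw [hu]; simp only [hno]; exact mul_le_mul_of_nonneg_left (hz _ _) hp.le)
      (fun k => by rw [hv]; simp only [hno]; exact mul_le_mul_of_nonneg_left (hz _ _) hp.le)
      hβ'
    refine ⟨fun k => Fin.cons (c k) (b' (k, c k)), ?_⟩
    intro x
    have h1 : ∑ k, 2 ^ (s + 1) * ‖⟪z k (Fin.cons (c k) (b' (k, c k))), x⟫_ℂ‖ ^ 2 =
        ∑ k, 2 * ‖⟪(if c k then v k else u k), x⟫_ℂ‖ ^ 2 := by
      apply Finset.sum_congr rfl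
      intro k _
      cases hck : c k
      · simp only [Bool.false_eq_true, if_false, hu, hin, hz']
        ring
      · simp only [if_true, hv, hin, hz']
        ring
    rw [h1]
    have h2 := hc x
    have h3 := hb' x
    rw [huv] at h2
    rw [hsum'] at h3
    have h4 : √((β + 12 * S) * D) ≤ 21 / 20 * S := by
      apply Real.sqrt_le_iff.2
      constructor
      · positivity
      · have : (21 / 20 * S) ^ 2 = 441 / 400 * (β * D) := by rw [mul_pow, sq S, hSS]; ring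
        rw [this]
        have : 12 * S * D ≤ 12 * (β / 141) * D := by gcongr
        have h5 : 0 ≤ β * D := by positivity
        nlinarith
    have h6 : 12 * √(β * (2 ^ (s + 1) * δ)) = 12 * √2 * S := by
      have : β * (2 ^ (s + 1) * δ) = 2 * (β * D) := by rw [hD]; ring
      rw [this, Real.sqrt_mul (by norm_num), ← hS]; ring
    have h7 : (1414 / 1000 : ℝ) ≤ √2 := by
      apply Real.le_sqrt_of_sq_le; norm_num
    have hx : 0 ≤ ‖x‖ ^ 2 := by positivity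
    calc |∑ k, 2 * ‖⟪(if c k then v k else u k), x⟫_ℂ‖ ^ 2 - ∑ k, ∑ i, ‖⟪z k i, x⟫_ℂ‖ ^ 2|
        ≤ |∑ k, 2 * ‖⟪(if c k then v k else u k), x⟫_ℂ‖ ^ 2 -
            ∑ p, 2 ^ s * ‖⟪z' p (b' p), x⟫_ℂ‖ ^ 2| +
          |∑ p, 2 ^ s * ‖⟪z' p (b' p), x⟫_ℂ‖ ^ 2 - ∑ k, ∑ i, ‖⟪z k i, x⟫_ℂ‖ ^ 2| :=
          abs_sub_le _ _ _
      _ ≤ (4 * √((β + 12 * S) * D) + 4 * D) * ‖x‖ ^ 2 + 12 * S * ‖x‖ ^ 2 := add_le_add h2 h3
      _ ≤ (4 * (21 / 20 * S) + 4 * (S / 141)) * ‖x‖ ^ 2 + 12 * S * ‖x‖ ^ 2 := by gcongr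
      _ ≤ 12 * √2 * S * ‖x‖ ^ 2 := by
          have : 12 * √2 * S ≥ 12 * (1414 / 1000) * S := by gcongr
          have h8 : (4 * (21 / 20 * S) + 4 * (S / 141)) + 12 * S ≤ 12 * √2 * S := by linarith
          calc (4 * (21 / 20 * S) + 4 * (S / 141)) * ‖x‖ ^ 2 + 12 * S * ‖x‖ ^ 2
              = ((4 * (21 / 20 * S) + 4 * (S / 141)) + 12 * S) * ‖x‖ ^ 2 := by ring
            _ ≤ 12 * √2 * S * ‖x‖ ^ 2 := by gcongr
      _ = 12 * √(β * (2 ^ (s + 1) * δ)) * ‖x‖ ^ 2 := by rw [h6]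

/-- Infinite sampling. -/
theorem sampling_inf (hM : Halving) {E : Type*} [NormedAddCommGroup E] [InnerProductSpace ℂ E]
    (s : ℕ) (z : ℕ → (Fin s → Bool) → E) (β δ : ℝ) (hβ : 0 < β) (hδ : 0 ≤ δ)
    (hz : ∀ k i, ‖z k i‖ ^ 2 ≤ δ)
    (hsum : ∀ x, ∀ N : ℕ, ∑ k ∈ Finset.range N, ∑ i, ‖⟪z k i, x⟫_ℂ‖ ^ 2 ≤ β * ‖x‖ ^ 2)
    (hsmall : 2 ^ s * δ ≤ β / 10000) :
    ∃ b : ℕ → (Fin s → Bool), ∀ x, ∀ ε > 0, ∃ K0, ∀ K ≥ K0,
      |∑ k ∈ Finset.range K, 2 ^ s * ‖⟪z k (b k), x⟫_ℂ‖ ^ 2 -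
      ∑ k ∈ Finset.range K, ∑ i, ‖⟪z k i, x⟫_ℂ‖ ^ 2| ≤
        12 * √(β * (2 ^ s * δ)) * ‖x‖ ^ 2 + ε := by
  classical
  have hfin : ∀ N : ℕ, ∃ b : ℕ → (Fin s → Bool), ∀ x,
      |∑ k ∈ Finset.range N, 2 ^ s * ‖⟪z k (b k), x⟫_ℂ‖ ^ 2 -
        ∑ k ∈ Finset.range N, ∑ i, ‖⟪z k i, x⟫_ℂ‖ ^ 2| ≤
        12 * √(β * (2 ^ s * δ)) * ‖x‖ ^ 2 := by
    intro N
    obtain ⟨b, hb⟩ := sampling_fin hM s (ι := Fin N) (fun k i => z k i) β δ hβ hδ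
      (fun k i => hz _ _) (fun x => by
        rw [Fin.sum_univ_eq_sum_range (fun k => ∑ i, ‖⟪z k i, x⟫_ℂ‖ ^ 2)]
        exact hsum x N) hsmall
    refine ⟨fun k => if h : k < N then b ⟨k, h⟩ else default, ?_⟩
    intro x
    have := hb x
    rw [Fin.sum_univ_eq_sum_range (fun k => ∑ i, ‖⟪z k i, x⟫_ℂ‖ ^ 2)] at this
    convert this using 3
    rw [← Fin.sum_univ_eq_sum_range
      (fun k => 2 ^ s * ‖⟪z k (if h : k < N then b ⟨k, h⟩ else default), x⟫_ℂ‖ ^ 2)]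
    apply Finset.sum_congr rfl
    intro k _
    simp
  choose B hB using hfin
  obtain ⟨b, φ, hφ, hlim⟩ := CompactSpace.tendsto_subseq B
  refine ⟨b, ?_⟩
  intro x ε hε
  set t : ℕ → ℝ := fun k => ∑ i, ‖⟪z k i, x⟫_ℂ‖ ^ 2 with ht
  have ht0 : ∀ k, 0 ≤ t k := fun k => Finset.sum_nonneg (fun i _ => by positivity)
  have hts : Summable t := summable_of_sum_range_le ht0 (hsum x)
  have hp : (0 : ℝ) < 2 ^ s := by positivity
  -- tail bound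
  have htail : ∃ K0, ∀ K ≥ K0, ∀ N ≥ K, 2 ^ s * ∑ k ∈ Finset.Ico K N, t k ≤ ε := by
    have h1 := hts.hasSum.tendsto_sum_nat
    obtain ⟨K0, hK0⟩ := (Metric.tendsto_atTop.1 h1) (ε / 2 ^ s / 2) (by positivity)
    refine ⟨K0, ?_⟩
    intro K hK N hN
    have h2 := hK0 K hK
    have h3 := hK0 N (hK.le.trans hN)
    rw [Real.dist_eq, abs_lt] at h2 h3
    have h4 : ∑ k ∈ Finset.Ico K N, t k = ∑ k ∈ Finset.range N, t k - ∑ k ∈ Finset.range K, t k :=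
      Finset.sum_Ico_eq_sub _ hN
    rw [h4]
    have h5 : ∑ k ∈ Finset.range N, t k - ∑ k ∈ Finset.range K, t k ≤ ε / 2 ^ s := by linarith
    calc 2 ^ s * (∑ k ∈ Finset.range N, t k - ∑ k ∈ Finset.range K, t k)
        ≤ 2 ^ s * (ε / 2 ^ s) := by gcongr
      _ = ε := by field_simp
  obtain ⟨K0, hK0⟩ := htail
  refine ⟨K0, ?_⟩
  intro K hK
  -- eventually B (φ n) agrees with b on range K
  have hev : ∀ᶠ n in Filter.atTop, ∀ k ∈ Finset.range K, B (φ n) k = b k := by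
    rw [Filter.eventually_all_finset]
    intro k _
    have h1 := (tendsto_pi_nhds.1 hlim) k
    have h2 : ∀ᶠ n in Filter.atTop, (B ∘ φ) n k ∈ ({b k} : Set (Fin s → Bool)) :=
      h1 (by rw [nhds_discrete]; exact Set.mem_singleton _)
    exact h2
  obtain ⟨n, hn1, hn2⟩ := (hev.and (Filter.eventually_ge_atTop K)).exists
  have hNK : K ≤ φ n := hn2.trans (hφ.id_le n)
  have h3 := hB (φ n) x
  have hsplit : ∀ f : ℕ → ℝ, ∑ k ∈ Finset.range (φ n), f k =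
      ∑ k ∈ Finset.range K, f k + ∑ k ∈ Finset.Ico K (φ n), f k := by
    intro f
    rw [Finset.sum_range_add_sum_Ico _ hNK]
  have hfg : ∀ k, |2 ^ s * ‖⟪z k (B (φ n) k), x⟫_ℂ‖ ^ 2 - t k| ≤ 2 ^ s * t k := by
    intro k
    have h4 : ‖⟪z k (B (φ n) k), x⟫_ℂ‖ ^ 2 ≤ t k :=
      Finset.single_le_sum (f := fun i => ‖⟪z k i, x⟫_ℂ‖ ^ 2) (fun i _ => by positivity)
        (Finset.mem_univ _)
    have h5 : (0 : ℝ) ≤ ‖⟪z k (B (φ n) k), x⟫_ℂ‖ ^ 2 := by positivity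
    have h6 : (1 : ℝ) ≤ 2 ^ s := one_le_pow₀ (by norm_num)
    rw [abs_le]
    constructor
    · nlinarith [ht0 k]
    · nlinarith [ht0 k]
  have h7 : ∑ k ∈ Finset.range K, 2 ^ s * ‖⟪z k (b k), x⟫_ℂ‖ ^ 2 -
      ∑ k ∈ Finset.range K, t k =
      (∑ k ∈ Finset.range (φ n), 2 ^ s * ‖⟪z k (B (φ n) k), x⟫_ℂ‖ ^ 2 -
        ∑ k ∈ Finset.range (φ n), t k) -
      ∑ k ∈ Finset.Ico K (φ n), (2 ^ s * ‖⟪z k (B (φ n) k), x⟫_ℂ‖ ^ 2 - t k) := by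
    rw [hsplit, hsplit, Finset.sum_sub_distrib]
    have : ∑ k ∈ Finset.range K, 2 ^ s * ‖⟪z k (B (φ n) k), x⟫_ℂ‖ ^ 2 =
        ∑ k ∈ Finset.range K, 2 ^ s * ‖⟪z k (b k), x⟫_ℂ‖ ^ 2 := by
      apply Finset.sum_congr rfl
      intro k hk
      rw [hn1 k hk]
    rw [this]; ring
  show |∑ k ∈ Finset.range K, 2 ^ s * ‖⟪z k (b k), x⟫_ℂ‖ ^ 2 - ∑ k ∈ Finset.range K, t k| ≤ _
  rw [h7]
  refine (abs_sub _ _).trans ?_
  refine add_le_add h3 ?_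
  refine (Finset.abs_sum_le_sum_abs _ _).trans ?_
  refine (Finset.sum_le_sum (fun k _ => hfg k)).trans ?_
  rw [← Finset.mul_sum]
  exact hK0 K hK _ hNK

end Pool.Agent.Work.MP_194f66_an
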