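import Pool.Agent.Work.MP_194f66_an.Diag
import Pool.Agent.Work.MP_194f66_an.Sampling

open scoped InnerProductSpace ComplexConjugate
open ContinuousLinearMap InnerProductSpace

namespace Pool.Agent.Work.MP_194f66_an

theorem orthonormal_comp {p : ℕ → ℕ} (hp : Function.Injective p) :
    Orthonormal ℂ (fun n => e (p n)) := orthonormal_e.comp p hp

/-- The isometry `e n ↦ e (p n)`. -/
noncomputable def emb (p : ℕ → ℕ) (hp : Function.Injective p) : Op :=
  ((orthonormal_comp hp).orthogonalFamily.linearIsometry).toContinuousLinearMap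

theorem emb_e {p : ℕ → ℕ} (hp : Function.Injective p) (n : ℕ) : emb p hp (e n) = e (p n) := by
  unfold emb
  show (orthonormal_comp hp).orthogonalFamily.linearIsometry (e n) = _
  have h1 : e n = lp.single 2 n (1 : ℂ) := rfl
  rw [h1, OrthogonalFamily.linearIsometry_apply_single]
  simp

theorem adj_emb_apply {p : ℕ → ℕ} (hp : Function.Injective p) (x : H) (k : ℕ) :
    (adjoint (emb p hp) x : ℕ → ℂ) k = (x : ℕ → ℂ) (p k) := by
  rw [← inner_e_left, ContinuousLinearMap.adjoint_inner_right, emb_e, inner_e_left]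

theorem adj_emb_mul_emb {p : ℕ → ℕ} (hp : Function.Injective p) :
    adjoint (emb p hp) * emb p hp = 1 := by
  apply op_ext
  intro j
  ext k
  rw [op_mul_apply, emb_e, adj_emb_apply, e_apply, one_apply_eq_self, e_apply]
  simp [hp.eq_iff]

theorem adj_emb_mul_emb_disjoint {p q : ℕ → ℕ} (hp : Function.Injective p)
    (hq : Function.Injective q) (h : ∀ i j, p i ≠ q j) :
    adjoint (emb p hp) * emb q hq = 0 := by
  apply op_ext
  intro j
  ext k
  rw [op_mul_apply, emb_e, adj_emb_apply, e_apply, if_neg (h k j)]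
  rfl

theorem norm_emb_le {p : ℕ → ℕ} (hp : Function.Injective p) : ‖emb p hp‖ ≤ 1 :=
  LinearIsometry.norm_toContinuousLinearMap_le _

theorem norm_emb_apply {p : ℕ → ℕ} (hp : Function.Injective p) (x : H) :
    ‖emb p hp x‖ = ‖x‖ := (orthonormal_comp hp).orthogonalFamily.linearIsometry.norm_map x

theorem norm_sq_adj_emb {p : ℕ → ℕ} (hp : Function.Injective p) (x : H) :
    HasSum (fun k => ‖(x : ℕ → ℂ) (p k)‖ ^ 2) (‖adjoint (emb p hp) x‖ ^ 2) := by
  rw [norm_sq_eq]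
  have := (summable_sq (adjoint (emb p hp) x)).hasSum
  simpa only [adj_emb_apply] using this

/-- Sampling for an operator with small rows and columns. -/
theorem sampling_op (hM : Halving) (s : ℕ) (q : ℕ → (Fin s → Bool) → ℕ)
    (hq : Function.Injective (fun p : ℕ × (Fin s → Bool) => q p.1 p.2)) (X : Op) (ν : ℝ)
    (hX : ‖X‖ ≤ 11 / 5) (hcol : ∀ n, ‖X (e n)‖ ≤ ν) (hrow : ∀ n, ‖adjoint X (e n)‖ ≤ ν)
    (hs : 2 ^ s * ν ^ 2 ≤ 1 / 1000000) :
    ∃ (b : ℕ → ℕ) (hb : Function.Injective b), (∀ k, ∃ i, b k = q k i) ∧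
      (∀ x y, 2 ^ s * ‖adjoint (emb b hb) (adjoint X x + X y)‖ ^ 2 ≤
        ‖adjoint X x + X y‖ ^ 2 + (1 / 10) * (‖x‖ ^ 2 + ‖y‖ ^ 2)) ∧
      ((∀ n, ∃ k i, q k i = n) →
        ∀ x y, ‖adjoint X x + X y‖ ^ 2 - (1 / 10) * (‖x‖ ^ 2 + ‖y‖ ^ 2) ≤
          2 ^ s * ‖adjoint (emb b hb) (adjoint X x + X y)‖ ^ 2) := by
  classical
  set z : ℕ → (Fin s → Bool) → WithLp 2 (H × H) :=
    fun k i => WithLp.toLp 2 (X (e (q k i)), adjoint X (e (q k i))) with hz
  have hin : ∀ k i (w : WithLp 2 (H × H)), ⟪z k i, w⟫_ℂ =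
      ((adjoint X w.fst + X w.snd : H) : ℕ → ℂ) (q k i) := by
    intro k i w
    rw [hz, WithLp.prod_inner_apply]
    show ⟪X (e (q k i)), w.fst⟫_ℂ + ⟪adjoint X (e (q k i)), w.snd⟫_ℂ = _
    rw [← ContinuousLinearMap.adjoint_inner_right, ContinuousLinearMap.adjoint_inner_left,
      ← inner_add_right, inner_e_left]
  have hν0 : 0 ≤ ν := (norm_nonneg _).trans (hcol 0)
  have hznorm : ∀ k i, ‖z k i‖ ^ 2 ≤ 2 * ν ^ 2 := by
    intro k i
    rw [hz, WithLp.prod_norm_sq_eq_of_L2]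
    show ‖X (e (q k i))‖ ^ 2 + ‖adjoint X (e (q k i))‖ ^ 2 ≤ _
    have h1 : ‖X (e (q k i))‖ ^ 2 ≤ ν ^ 2 := pow_le_pow_left₀ (norm_nonneg _) (hcol _) 2
    have h2 : ‖adjoint X (e (q k i))‖ ^ 2 ≤ ν ^ 2 := pow_le_pow_left₀ (norm_nonneg _) (hrow _) 2
    linarith
  -- partial sums
  have hpart : ∀ (g : H) (N : ℕ), ∑ k ∈ Finset.range N, ∑ i, ‖(g : ℕ → ℂ) (q k i)‖ ^ 2 ≤
      ‖g‖ ^ 2 := by
    intro g N
    rw [← Finset.sum_product']
    have h1 : ∑ p ∈ Finset.range N ×ˢ (Finset.univ : Finset (Fin s → Bool)),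
        ‖(g : ℕ → ℂ) (q p.1 p.2)‖ ^ 2 =
        ∑ n ∈ (Finset.range N ×ˢ (Finset.univ : Finset (Fin s → Bool))).image
          (fun p => q p.1 p.2), ‖(g : ℕ → ℂ) n‖ ^ 2 := by
      rw [Finset.sum_image]
      intro a _ b _ hab
      exact hq hab
    rw [h1]
    exact sum_sq_le g _
  have hgn : ∀ w : WithLp 2 (H × H), ‖adjoint X w.fst + X w.snd‖ ^ 2 ≤ 10 * ‖w‖ ^ 2 := by
    intro w
    have h1 : ‖adjoint X w.fst + X w.snd‖ ≤ 11 / 5 * ‖w.fst‖ + 11 / 5 * ‖w.snd‖ := by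
      refine (norm_add_le _ _).trans ?_
      refine add_le_add ?_ ?_
      · refine ((adjoint X).le_opNorm _).trans ?_
        rw [norm_adj]; gcongr
      · refine (X.le_opNorm _).trans ?_
        gcongr
    have h2 : ‖w‖ ^ 2 = ‖w.fst‖ ^ 2 + ‖w.snd‖ ^ 2 := WithLp.prod_norm_sq_eq_of_L2 w
    have h3 : ‖adjoint X w.fst + X w.snd‖ ^ 2 ≤ (11 / 5 * ‖w.fst‖ + 11 / 5 * ‖w.snd‖) ^ 2 :=
      pow_le_pow_left₀ (norm_nonneg _) h1 2
    rw [h2]
    nlinarith [sq_nonneg (‖w.fst‖ - ‖w.snd‖), sq_nonneg ‖w.fst‖, sq_nonneg ‖w.snd‖]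
  obtain ⟨c, hc⟩ := sampling_inf hM s z 10 (2 * ν ^ 2) (by norm_num) (by positivity) hznorm
    (fun w N => by
      simp only [hin]
      exact (hpart _ N).trans (hgn w)) (by linarith)
  have hb : Function.Injective (fun k => q k (c k)) := by
    intro a b hab
    have := hq (a₁ := (a, c a)) (a₂ := (b, c b)) hab
    exact (Prod.mk.inj this).1
  have herr : 12 * √(10 * (2 ^ s * (2 * ν ^ 2))) ≤ 1 / 10 := by
    have : √(10 * (2 ^ s * (2 * ν ^ 2))) ≤ 1 / 120 := by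
      apply Real.sqrt_le_iff.2
      constructor
      · norm_num
      · norm_num; linarith
    linarith
  have hlim : ∀ x y : H, ∀ (T : ℝ), HasSum (fun k => ∑ i,
      ‖((adjoint X x + X y : H) : ℕ → ℂ) (q k i)‖ ^ 2) T →
      |2 ^ s * ‖adjoint (emb (fun k => q k (c k)) hb) (adjoint X x + X y)‖ ^ 2 - T| ≤
        (1 / 10) * (‖x‖ ^ 2 + ‖y‖ ^ 2) := by
    intro x y T hT
    set g : H := adjoint X x + X y with hg
    apply le_of_forall_pos_le_add
    intro ε hε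
    obtain ⟨K0, hK0⟩ := hc (WithLp.toLp 2 (x, y)) ε hε
    have h1 := (norm_sq_adj_emb hb g).mul_left ((2 : ℝ) ^ s)
    have h2 := (h1.tendsto_sum_nat.sub hT.tendsto_sum_nat).abs
    refine le_of_tendsto h2 ?_
    filter_upwards [Filter.eventually_ge_atTop K0] with K hK
    have h3 := hK0 K hK
    simp only [hin] at h3
    refine h3.trans ?_
    have h4 : ‖(WithLp.toLp 2 (x, y) : WithLp 2 (H × H))‖ ^ 2 = ‖x‖ ^ 2 + ‖y‖ ^ 2 :=
      WithLp.prod_norm_sq_eq_of_L2 _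
    rw [h4]
    have h5 : 0 ≤ ‖x‖ ^ 2 + ‖y‖ ^ 2 := by positivity
    have := mul_le_mul_of_nonneg_right herr h5
    linarith
  have hsummable : ∀ g : H, Summable (fun k => ∑ i, ‖(g : ℕ → ℂ) (q k i)‖ ^ 2) := by
    intro g
    exact summable_of_sum_range_le (fun k => Finset.sum_nonneg (fun i _ => by positivity)) (hpart g)
  refine ⟨fun k => q k (c k), hb, fun k => ⟨c k, rfl⟩, ?_, ?_⟩
  · intro x y
    have h1 := hlim x y _ (hsummable _).hasSum
    have h2 : ∑' k, ∑ i, ‖((adjoint X x + X y : H) : ℕ → ℂ) (q k i)‖ ^ 2 ≤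
        ‖adjoint X x + X y‖ ^ 2 :=
      Real.tsum_le_of_sum_range_le (fun k => Finset.sum_nonneg (fun i _ => by positivity))
        (hpart _)
    have h3 := (abs_le.1 h1).2
    linarith
  · intro hcov x y
    have h0 : HasSum (fun k => ∑ i, ‖((adjoint X x + X y : H) : ℕ → ℂ) (q k i)‖ ^ 2)
        (‖adjoint X x + X y‖ ^ 2) := by
      set g : H := adjoint X x + X y with hg
      have hbij : Function.Bijective (fun p : ℕ × (Fin s → Bool) => q p.1 p.2) :=
        ⟨hq, fun n => by obtain ⟨k, i, h⟩ := hcov n; exact ⟨(k, i), h⟩⟩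
      have h1 : HasSum (fun n => ‖(g : ℕ → ℂ) n‖ ^ 2) (‖g‖ ^ 2) := by
        rw [norm_sq_eq]; exact (summable_sq g).hasSum
      have h2 := (Equiv.ofBijective _ hbij).hasSum_iff.2 h1
      have h3 : HasSum (fun p : ℕ × (Fin s → Bool) => ‖(g : ℕ → ℂ) (q p.1 p.2)‖ ^ 2)
        (‖g‖ ^ 2) := h2
      exact h3.prod_fiberwise (fun k => hasSum_fintype _)
    have h1 := hlim x y _ h0
    have h3 := (abs_le.1 h1).1
    linarith

end Pool.Agent.Work.MP_194f66_an
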