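import Pool.Agent.Work.MP_194f66_an.Amb

open scoped InnerProductSpace ComplexConjugate
open ContinuousLinearMap InnerProductSpace

namespace Pool.Agent.Work.MP_194f66_an

/-- Columns of `R - 1` (block-strict near unitary) are small. -/
theorem col_small {g : ℕ → ℕ} {R R' : Op} {ν : ℝ} (h : NearU R R' ν)
    (hX : SB g (R - 1)) (hg : Monotone g) (n : ℕ) : ‖(R - 1) (e n)‖ ≤ ν := by
  classical
  have hUT : UT (R - 1) := hX.ut hg
  have h1 : (R - 1) (e n) = proj {i | i < n} ((R - adjoint R') (e n)) := by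
    ext i
    have hp := proj_apply {i | i < n} ((R - adjoint R') (e n)) i
    rw [hp]
    by_cases hi : i < n
    · rw [if_pos (show i ∈ {i | i < n} from hi)]
      show ent (R - 1) i n = ent (R - adjoint R') i n
      rw [ent_sub, ent_sub, ent_one, if_neg (by omega), ent_adjoint, h.ut' n i hi]
      simp
    · rw [if_neg (show i ∉ {i | i < n} from hi)]
      exact hX i n (hg (by omega))
  rw [h1]
  refine (norm_proj_apply_le _ _).trans ?_
  refine ((R - adjoint R').le_opNorm _).trans ?_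
  rw [norm_e, mul_one]
  exact h.near

theorem row_small {g : ℕ → ℕ} {R R' : Op} {ν : ℝ} (h : NearU R R' ν)
    (hX : SB g (R - 1)) (hg : Monotone g) (n : ℕ) : ‖adjoint (R - 1) (e n)‖ ≤ ν := by
  classical
  have hUT : UT (R - 1) := hX.ut hg
  have h1 : adjoint (R - 1) (e n) = proj {i | n < i} (adjoint (R - adjoint R') (e n)) := by
    ext i
    have hp := proj_apply {i | n < i} (adjoint (R - adjoint R') (e n)) i
    rw [hp]
    by_cases hi : n < i
    · rw [if_pos (show i ∈ {i | n < i} from hi)]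
      show ent (adjoint (R - 1)) i n = ent (adjoint (R - adjoint R')) i n
      rw [ent_adjoint, ent_adjoint, ent_sub, ent_sub, ent_one, if_neg (by omega),
        ent_adjoint, h.ut' i n hi]
      simp
    · rw [if_neg (show i ∉ {i | n < i} from hi)]
      show ent (adjoint (R - 1)) i n = 0
      rw [ent_adjoint, hX n i (hg (by omega)), map_zero]
  rw [h1]
  refine (norm_proj_apply_le _ _).trans ?_
  refine ((adjoint (R - adjoint R')).le_opNorm _).trans ?_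
  rw [norm_e, mul_one, norm_adj]
  exact h.near

theorem opNorm_le_of_re {A : Op} {C : ℝ} (hC : 0 ≤ C)
    (h : ∀ x y, (⟪x, A y⟫_ℂ).re ≤ C / 2 * (‖x‖ ^ 2 + ‖y‖ ^ 2)) : ‖A‖ ≤ C := by
  refine ContinuousLinearMap.opNorm_le_bound _ hC (fun y => ?_)
  by_cases hA : A y = 0
  · rw [hA, norm_zero]; positivity
  have ha : 0 < ‖A y‖ := norm_pos_iff.2 hA
  have h1 := h (((‖y‖ / ‖A y‖ : ℝ) : ℂ) • A y) y
  rw [inner_smul_left, Complex.conj_ofReal, inner_self_eq_norm_sq_to_K] at h1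
  have h2 : (((‖y‖ / ‖A y‖ : ℝ) : ℂ) * ((‖A y‖ : ℝ) : ℂ) ^ 2).re = ‖y‖ * ‖A y‖ := by
    rw [← Complex.ofReal_pow, ← Complex.ofReal_mul, Complex.ofReal_re]
    field_simp
  have h3 : ‖((‖y‖ / ‖A y‖ : ℝ) : ℂ) • A y‖ = ‖y‖ := by
    rw [norm_smul, Complex.norm_real, Real.norm_eq_abs, abs_of_nonneg (by positivity)]
    field_simp
  have h4 : ‖y‖ * ‖A y‖ ≤ C / 2 * (‖y‖ ^ 2 + ‖y‖ ^ 2) := by
    rw [← h2]
    calc _ ≤ _ := h1
      _ = _ := by rw [h3]
  rcases eq_or_lt_of_le (norm_nonneg y) with hy | hy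
  · exfalso
    apply hA
    have : y = 0 := norm_eq_zero.1 hy.symm
    rw [this, map_zero]
  · have : ‖y‖ * ‖A y‖ ≤ ‖y‖ * (C * ‖y‖) := by nlinarith
    exact le_of_mul_le_mul_left this hy

/-- the key scalar inequality `y (1 - y/4)^2 ≤ 16/27` for operators -/
theorem key_ineq (X : Op) (hX : ‖X‖ ≤ 21 / 10) :
    ‖X - (1 / 4 : ℂ) • (X * adjoint X * X)‖ ≤ 77 / 100 := by
  have h0 : ‖adjoint (X - (1 / 4 : ℂ) • (X * adjoint X * X))‖ ≤ 77 / 100 := by
    refine ContinuousLinearMap.opNorm_le_bound _ (by norm_num) (fun v => ?_)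
    set Y := adjoint X with hY
    have hYn : ‖Y‖ ≤ 21 / 10 := by rw [hY, norm_adj]; exact hX
    have hadj : adjoint (X - (1 / 4 : ℂ) • (X * Y * X)) v = Y v - (1 / 4 : ℂ) • Y (X (Y v)) := by
      have h1 : adjoint (X - (1 / 4 : ℂ) • (X * Y * X)) = Y - (1 / 4 : ℂ) • (Y * X * Y) := by
        rw [← star_eq_adjoint, star_sub, star_smul, star_mul, star_mul]
        rw [star_eq_adjoint, star_eq_adjoint, hY, ContinuousLinearMap.adjoint_adjoint]
        simp only [one_div, star_inv₀]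
        rw [← mul_assoc]
        congr 2
        norm_num
      rw [h1]; rfl
    rw [hadj]
    set w := X (Y v) with hw
    -- a0 = ‖v‖², a1 = ‖Y v‖², a2 = ‖w‖², a3 = ‖Y w‖²
    have i1 : ‖Y v - (1 / 4 : ℂ) • Y w‖ ^ 2 = ‖Y v‖ ^ 2 - 1 / 2 * ‖w‖ ^ 2 + 1 / 16 * ‖Y w‖ ^ 2 := by
      rw [@norm_sub_sq ℂ, inner_smul_right, norm_smul]
      have h2 : ⟪Y v, Y w⟫_ℂ = ((‖w‖ : ℂ)) ^ 2 := by
        rw [hY, ContinuousLinearMap.adjoint_inner_right, ← hY, ← hw, inner_self_eq_norm_sq_to_K]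
        rfl
      rw [h2]
      have h3 : RCLike.re ((1 / 4 : ℂ) * (‖w‖ : ℂ) ^ 2) = 1 / 4 * ‖w‖ ^ 2 := by
        have : (1 / 4 : ℂ) * (‖w‖ : ℂ) ^ 2 = ((1 / 4 * ‖w‖ ^ 2 : ℝ) : ℂ) := by push_cast; ring
        rw [this]; exact Complex.ofReal_re _
      rw [h3]
      norm_num
      ring
    have i2 : ‖w - (4 / 3 : ℂ) • v‖ ^ 2 = ‖w‖ ^ 2 - 8 / 3 * ‖Y v‖ ^ 2 + 16 / 9 * ‖v‖ ^ 2 := by
      rw [@norm_sub_sq ℂ, inner_smul_right, norm_smul]
      have h2 : ⟪w, v⟫_ℂ = ((‖Y v‖ : ℂ)) ^ 2 := by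
        rw [hw, ← ContinuousLinearMap.adjoint_inner_right, ← hY, inner_self_eq_norm_sq_to_K]
        rfl
      rw [h2]
      have h3 : RCLike.re ((4 / 3 : ℂ) * (‖Y v‖ : ℂ) ^ 2) = 4 / 3 * ‖Y v‖ ^ 2 := by
        have : (4 / 3 : ℂ) * (‖Y v‖ : ℂ) ^ 2 = ((4 / 3 * ‖Y v‖ ^ 2 : ℝ) : ℂ) := by push_cast; ring
        rw [this]; exact Complex.ofReal_re _
      rw [h3]
      norm_num
      ring
    have i3 : ‖Y w - (4 / 3 : ℂ) • Y v‖ ^ 2 =
        ‖Y w‖ ^ 2 - 8 / 3 * ‖w‖ ^ 2 + 16 / 9 * ‖Y v‖ ^ 2 := by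
      rw [@norm_sub_sq ℂ, inner_smul_right, norm_smul]
      have h2 : ⟪Y w, Y v⟫_ℂ = ((‖w‖ : ℂ)) ^ 2 := by
        rw [hY, ContinuousLinearMap.adjoint_inner_left, ← hY, ← hw, inner_self_eq_norm_sq_to_K]
        rfl
      rw [h2]
      have h3 : RCLike.re ((4 / 3 : ℂ) * (‖w‖ : ℂ) ^ 2) = 4 / 3 * ‖w‖ ^ 2 := by
        have : (4 / 3 : ℂ) * (‖w‖ : ℂ) ^ 2 = ((4 / 3 * ‖w‖ ^ 2 : ℝ) : ℂ) := by push_cast; ring
        rw [this]; exact Complex.ofReal_re _
      rw [h3]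
      norm_num
      ring
    have i4 : ‖Y w - (4 / 3 : ℂ) • Y v‖ ^ 2 ≤ 16 / 3 * ‖w - (4 / 3 : ℂ) • v‖ ^ 2 := by
      have h1 : Y w - (4 / 3 : ℂ) • Y v = Y (w - (4 / 3 : ℂ) • v) := by
        rw [map_sub, map_smul]
      rw [h1]
      have h2 : ‖Y (w - (4 / 3 : ℂ) • v)‖ ≤ 21 / 10 * ‖w - (4 / 3 : ℂ) • v‖ :=
        (Y.le_opNorm _).trans (by gcongr)
      have h3 : ‖Y (w - (4 / 3 : ℂ) • v)‖ ^ 2 ≤ (21 / 10 * ‖w - (4 / 3 : ℂ) • v‖) ^ 2 :=
        pow_le_pow_left₀ (norm_nonneg _) h2 2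
      nlinarith [sq_nonneg ‖w - (4 / 3 : ℂ) • v‖]
    have i5 : ‖Y v - (1 / 4 : ℂ) • Y w‖ ^ 2 ≤ (77 / 100 * ‖v‖) ^ 2 := by
      rw [i1]
      rw [i3, i2] at i4
      nlinarith [sq_nonneg ‖v‖]
    exact le_of_sq_le_sq i5 (by positivity)
  rwa [norm_adj] at h0

theorem exch_identity {A : Type*} [Ring A] (P Q C D R R' l k : A) (hQP : Q * P = 1)
    (hDC : D * C = 1) (hQC : Q * C = 0) (hDP : D * P = 0) (hRR : R * R' = 1) (hRR' : R' * R = 1) :
    (1 + C * (-(l * R')) * Q) * (1 + P * k * D) * (1 + P * (R - 1 - k * l) * Q) *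
      (1 + C * l * Q) * (1 + P * (-(R' * k)) * D) =
    (1 + P * (R - 1) * Q) * (1 + C * (-(l * R' * k)) * D) := by
  have a1 : ∀ x, Q * (P * x) = x := fun x => by rw [← mul_assoc, hQP, one_mul]
  have a2 : ∀ x, D * (C * x) = x := fun x => by rw [← mul_assoc, hDC, one_mul]
  have a3 : ∀ x, Q * (C * x) = 0 := fun x => by rw [← mul_assoc, hQC, zero_mul]
  have a4 : ∀ x, D * (P * x) = 0 := fun x => by rw [← mul_assoc, hDP, zero_mul]
  have a5 : ∀ x, R * (R' * x) = x := fun x => by rw [← mul_assoc, hRR, one_mul]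
  have a6 : ∀ x, R' * (R * x) = x := fun x => by rw [← mul_assoc, hRR', one_mul]
  have e1 : (1 + P * k * D) * (1 + P * (R - 1 - k * l) * Q) * (1 + C * l * Q) =
      1 + P * (R - 1) * Q + P * k * D + C * l * Q := by
    simp only [mul_add, add_mul, mul_sub, sub_mul, mul_one, one_mul, mul_assoc, a1, a2, a3, a4,
      mul_zero, zero_mul, add_zero, sub_zero, neg_mul, mul_neg]
    abel
  have e2 : (1 + P * (R - 1) * Q + P * k * D + C * l * Q) * (1 + P * (-(R' * k)) * D) =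
      1 + P * (R - 1) * Q + C * l * Q + C * (-(l * R' * k)) * D := by
    simp only [mul_add, add_mul, mul_sub, sub_mul, mul_one, one_mul, mul_assoc, a1, a2, a3, a4,
      a5, a6, mul_zero, zero_mul, add_zero, sub_zero, neg_mul, mul_neg]
    abel
  have e3 : (1 + C * (-(l * R')) * Q) *
      (1 + P * (R - 1) * Q + C * l * Q + C * (-(l * R' * k)) * D) =
      1 + P * (R - 1) * Q + C * (-(l * R' * k)) * D := by
    simp only [mul_add, add_mul, mul_sub, sub_mul, mul_one, one_mul, mul_assoc, a1, a2, a3, a4,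
      a5, a6, mul_zero, zero_mul, add_zero, sub_zero, neg_mul, mul_neg]
    abel
  calc _ = (1 + C * (-(l * R')) * Q) * ((1 + P * k * D) * (1 + P * (R - 1 - k * l) * Q) *
      (1 + C * l * Q) * (1 + P * (-(R' * k)) * D)) := by simp only [mul_assoc]
    _ = 1 + P * (R - 1) * Q + C * (-(l * R' * k)) * D := by rw [e1, e2, e3]
    _ = _ := by
      simp only [mul_add, add_mul, mul_sub, sub_mul, mul_one, one_mul, mul_assoc, a1, a2, a3, a4,
        a5, a6, mul_zero, zero_mul, add_zero, sub_zero, neg_mul, mul_neg]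

theorem woodbury {A : Type*} [Ring A] (R R' N l k : A)
    (h1 : (R - k * l) * N = 1) (h2 : N * (R - k * l) = 1) (hRR : R * R' = 1) (hRR' : R' * R = 1) :
    (1 - l * R' * k) * (1 + l * N * k) = 1 ∧ (1 + l * N * k) * (1 - l * R' * k) = 1 := by
  have h3 : R' * (k * l) * N = N - R' := by
    have : R' * (k * l) * N = R' * R * N - R' * ((R - k * l) * N) := by noncomm_ring
    rw [this, h1, hRR']; noncomm_ring
  have h4 : N * (k * l) * R' = N - R' := by
    have : N * (k * l) * R' = N * (R * R') - (N * (R - k * l)) * R' := by noncomm_ring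
    rw [this, h2, hRR]; noncomm_ring
  constructor
  · have : (1 - l * R' * k) * (1 + l * N * k) =
      1 - l * R' * k + l * N * k - l * (R' * (k * l) * N) * k := by noncomm_ring
    rw [this, h3]; noncomm_ring
  · have : (1 + l * N * k) * (1 - l * R' * k) =
      1 - l * R' * k + l * N * k - l * (N * (k * l) * R') * k := by noncomm_ring
    rw [this, h4]; noncomm_ring

theorem ent_mul_ne {A B : Op} {i j : ℕ} (h : ent (A * B) i j ≠ 0) :
    ∃ k, ent A i k ≠ 0 ∧ ent B k j ≠ 0 := by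
  by_contra hne
  push Not at hne
  apply h
  rw [ent_mul]
  have : ∀ k, ent A i k * ent B k j = 0 := by
    intro k
    by_cases hk : ent A i k = 0
    · rw [hk, zero_mul]
    · rw [hne k hk, mul_zero]
  simp [this]

theorem UT.le {T : Op} (h : UT T) {i j : ℕ} (hij : ent T i j ≠ 0) : i ≤ j := by
  by_contra hne
  exact hij (h i j (not_le.1 hne))

theorem UT.of {T : Op} (h : ∀ i j, ent T i j ≠ 0 → i ≤ j) : UT T := by
  intro i j hij
  by_contra hne
  exact absurd (h i j hne) (not_le.2 hij)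

end Pool.Agent.Work.MP_194f66_an
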