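import Pool.Agent.Work.MP_194f66_an.Exchange

open scoped InnerProductSpace ComplexConjugate
open ContinuousLinearMap InnerProductSpace

namespace Pool.Agent.Work.MP_194f66_an

theorem norm_sq_add_sub (a b : H) :
    ‖a + b‖ ^ 2 - ‖a - b‖ ^ 2 = 4 * (⟪a, b⟫_ℂ).re := by
  rw [@norm_add_sq ℂ, @norm_sub_sq ℂ]
  have : RCLike.re ⟪a, b⟫_ℂ = (⟪a, b⟫_ℂ).re := rfl
  rw [this]; ring

/-- consequences of two sided sampling -/
theorem sampling_bounds {X J : Op} {w : ℝ} (hw : 0 ≤ w) (hX : ‖X‖ ≤ 21 / 10)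
    (hup : ∀ x y, w * ‖adjoint J (adjoint X x + X y)‖ ^ 2 ≤
        ‖adjoint X x + X y‖ ^ 2 + (1 / 10) * (‖x‖ ^ 2 + ‖y‖ ^ 2)) :
    ‖((√w : ℝ) : ℂ) • (adjoint J * X)‖ ≤ 11 / 5 ∧ ‖((√w : ℝ) : ℂ) • (X * J)‖ ≤ 11 / 5 := by
  have hsw : √w * √w = w := Real.mul_self_sqrt hw
  constructor
  · refine ContinuousLinearMap.opNorm_le_bound _ (by norm_num) (fun y => ?_)
    have h1 := hup 0 y
    rw [map_zero, zero_add] at h1
    have h2 : ‖X y‖ ≤ 21 / 10 * ‖y‖ := (X.le_opNorm _).trans (by gcongr)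
    have h3 : ‖X y‖ ^ 2 ≤ (21 / 10 * ‖y‖) ^ 2 := pow_le_pow_left₀ (norm_nonneg _) h2 2
    have h4 : ‖(((√w : ℝ) : ℂ) • (adjoint J * X)) y‖ = √w * ‖adjoint J (X y)‖ := by
      show ‖((√w : ℝ) : ℂ) • (adjoint J (X y))‖ = _
      rw [norm_smul, Complex.norm_real, Real.norm_eq_abs, abs_of_nonneg (Real.sqrt_nonneg w)]
    rw [h4]
    refine le_of_sq_le_sq ?_ (by positivity)
    rw [mul_pow, Real.sq_sqrt hw]
    rw [norm_zero] at h1
    nlinarith [sq_nonneg ‖y‖]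
  · have h0 : ‖((√w : ℝ) : ℂ) • (adjoint J * adjoint X)‖ ≤ 11 / 5 := by
      refine ContinuousLinearMap.opNorm_le_bound _ (by norm_num) (fun y => ?_)
      have h1 := hup y 0
      rw [map_zero, add_zero] at h1
      have h2 : ‖adjoint X y‖ ≤ 21 / 10 * ‖y‖ := by
        refine ((adjoint X).le_opNorm _).trans ?_
        rw [norm_adj]; gcongr
      have h3 : ‖adjoint X y‖ ^ 2 ≤ (21 / 10 * ‖y‖) ^ 2 := pow_le_pow_left₀ (norm_nonneg _) h2 2
      have h4 : ‖(((√w : ℝ) : ℂ) • (adjoint J * adjoint X)) y‖ = √w * ‖adjoint J (adjoint X y)‖ := by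
        show ‖((√w : ℝ) : ℂ) • (adjoint J (adjoint X y))‖ = _
        rw [norm_smul, Complex.norm_real, Real.norm_eq_abs, abs_of_nonneg (Real.sqrt_nonneg w)]
      rw [h4]
      refine le_of_sq_le_sq ?_ (by positivity)
      rw [mul_pow, Real.sq_sqrt hw]
      rw [norm_zero] at h1
      nlinarith [sq_nonneg ‖y‖]
    have h5 : adjoint (((√w : ℝ) : ℂ) • (X * J)) = ((√w : ℝ) : ℂ) • (adjoint J * adjoint X) := by
      rw [← star_eq_adjoint, star_smul, star_mul, star_eq_adjoint, star_eq_adjoint]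
      congr 1
      exact Complex.conj_ofReal _
    rw [← norm_adj, h5]
    exact h0

theorem sampling_middle {X J : Op} {w : ℝ}
    (hup : ∀ x y, w * ‖adjoint J (adjoint X x + X y)‖ ^ 2 ≤
        ‖adjoint X x + X y‖ ^ 2 + (1 / 10) * (‖x‖ ^ 2 + ‖y‖ ^ 2))
    (hlo : ∀ x y, ‖adjoint X x + X y‖ ^ 2 - (1 / 10) * (‖x‖ ^ 2 + ‖y‖ ^ 2) ≤
          w * ‖adjoint J (adjoint X x + X y)‖ ^ 2) :
    ‖X * ((w : ℂ) • (J * adjoint J) - 1) * X‖ ≤ 1 / 10 := by
  refine opNorm_le_of_re (by norm_num) (fun x y => ?_)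
  have h1 := hup x y
  have h2 := hlo x (-y)
  rw [map_neg, ← sub_eq_add_neg, norm_neg] at h2
  have h3 := norm_sq_add_sub (adjoint X x) (X y)
  have h4 := norm_sq_add_sub (adjoint J (adjoint X x)) (adjoint J (X y))
  rw [← map_add, ← map_sub] at h4
  have h5 : ⟪x, (X * ((w : ℂ) • (J * adjoint J) - 1) * X) y⟫_ℂ =
      (w : ℂ) * ⟪adjoint J (adjoint X x), adjoint J (X y)⟫_ℂ - ⟪adjoint X x, X y⟫_ℂ := by
    have : (X * ((w : ℂ) • (J * adjoint J) - 1) * X) y =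
        X ((w : ℂ) • (J (adjoint J (X y))) - X y) := rfl
    rw [this, ← ContinuousLinearMap.adjoint_inner_left, inner_sub_right, inner_smul_right,
      ContinuousLinearMap.adjoint_inner_left J]
  rw [h5, Complex.sub_re, Complex.re_ofReal_mul]
  have h6 : w * ‖adjoint J (adjoint X x + X y)‖ ^ 2 - w * ‖adjoint J (adjoint X x - X y)‖ ^ 2 =
      4 * (w * (⟪adjoint J (adjoint X x), adjoint J (X y)⟫_ℂ).re) := by
    rw [← mul_sub, h4]; ring
  linarith

theorem exists_inv_bound {Y : Op} (h1 : UT Y) (h2 : ‖Y‖ ≤ 9 / 10) :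
    ∃ N, Inv (1 + Y) N ∧ ‖N‖ ≤ 10 := by
  obtain ⟨N, hN⟩ := exists_inv_one_add h1 (by linarith : ‖Y‖ < 1)
  refine ⟨N, hN, ?_⟩
  have h3 : N = 1 - Y * N := by
    have := hN.mul
    rw [add_mul, one_mul] at this
    rw [← this]; abel
  have h4 : ‖N‖ ≤ 1 + 9 / 10 * ‖N‖ := by
    calc ‖N‖ = ‖1 - Y * N‖ := by rw [← h3]
      _ ≤ ‖(1 : Op)‖ + ‖Y * N‖ := norm_sub_le _ _
      _ ≤ 1 + 9 / 10 * ‖N‖ := by
        refine add_le_add ContinuousLinearMap.norm_id_le ?_
        refine (norm_mul_le _ _).trans ?_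
        gcongr
  linarith

theorem exchange (hM : Halving) (s : ℕ) {R R' : Op} {ν : ℝ} (h : NearU R R' ν)
    (hν : ν ≤ 1 / 50) (hs : 2 ^ s * ν ^ 2 ≤ 1 / 1000000)
    (hX : SB (fun n => n / 2 ^ s) (R - 1)) :
    ∃ S S' : Op, Inv S S' ∧ ‖S‖ ≤ 28 ∧ ‖S'‖ ≤ 28 ∧
      ∀ (p c : ℕ → ℕ) (hp : StrictMono p) (hc : StrictMono c), (∀ n k, p n ≠ c k) →
        (∀ n k, n / 2 ^ s < k → p n < c k) → (∀ n k, k < n / 2 ^ s → c k < p n) →
        El (Set.range p ∪ Set.range c) 13 (amb p hp.injective R * amb c hc.injective S) := by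
  have hg : Monotone (fun n : ℕ => n / 2 ^ s) := fun a b hab => Nat.div_le_div_right hab
  obtain ⟨hR, hR'⟩ := norm_inv_of_nearU h (by linarith)
  have hν0 : 0 ≤ ν := (norm_nonneg _).trans h.near
  have h2s : (0 : ℕ) < 2 ^ s := by positivity
  obtain ⟨X, hXdef⟩ : ∃ X : Op, X = R - 1 := ⟨_, rfl⟩
  have hX0 := hX
  rw [← hXdef] at hX
  have hXn : ‖X‖ ≤ 21 / 10 := by
    rw [hXdef]
    refine (norm_sub_le _ _).trans ?_
    have : ‖(1 : Op)‖ ≤ 1 := ContinuousLinearMap.norm_id_le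
    linarith
  have hR1n : ‖R' - 1‖ ≤ 21 / 10 := by
    refine (norm_sub_le _ _).trans ?_
    have : ‖(1 : Op)‖ ≤ 1 := ContinuousLinearMap.norm_id_le
    linarith
  -- sampling
  have hcard : Fintype.card (Fin s → Bool) = 2 ^ s := by simp
  let eqv : (Fin s → Bool) ≃ Fin (2 ^ s) := Fintype.equivFinOfCardEq hcard
  let q : ℕ → (Fin s → Bool) → ℕ := fun k i => 2 ^ s * k + (eqv i : ℕ)
  have hqdiv : ∀ k i, q k i / 2 ^ s = k := fun k i => by
    show (2 ^ s * k + (eqv i : ℕ)) / 2 ^ s = k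
    rw [Nat.mul_add_div h2s, Nat.div_eq_of_lt (eqv i).2, add_zero]
  have hqmod : ∀ k i, q k i % 2 ^ s = (eqv i : ℕ) := fun k i => by
    show (2 ^ s * k + (eqv i : ℕ)) % 2 ^ s = _
    rw [Nat.mul_add_mod, Nat.mod_eq_of_lt (eqv i).2]
  have hq : Function.Injective (fun p : ℕ × (Fin s → Bool) => q p.1 p.2) := by
    rintro ⟨k, i⟩ ⟨k', i'⟩ hh
    have hh' : q k i = q k' i' := hh
    have e1 : k = k' := by rw [← hqdiv k i, ← hqdiv k' i', hh']
    have e2 : (eqv i : ℕ) = eqv i' := by rw [← hqmod k i, ← hqmod k' i', hh']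
    have e3 : i = i' := eqv.injective (Fin.ext e2)
    rw [e1, e3]
  have hcov : ∀ n, ∃ k i, q k i = n := by
    intro n
    refine ⟨n / 2 ^ s, eqv.symm ⟨n % 2 ^ s, Nat.mod_lt _ h2s⟩, ?_⟩
    show 2 ^ s * (n / 2 ^ s) + (eqv (eqv.symm ⟨n % 2 ^ s, Nat.mod_lt _ h2s⟩) : ℕ) = n
    rw [Equiv.apply_symm_apply]
    exact Nat.div_add_mod n (2 ^ s)
  obtain ⟨b, hb, hbq, hup, hlo'⟩ := sampling_op hM s q hq X ν (by linarith)
    (fun n => by rw [hXdef]; exact col_small h hX0 hg n)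
    (fun n => by rw [hXdef]; exact row_small h hX0 hg n) hs
  have hlo := hlo' hcov
  have hbdiv : ∀ k, b k / 2 ^ s = k := fun k => by
    obtain ⟨i, hi⟩ := hbq k
    rw [hi, hqdiv]
  obtain ⟨J, hJ⟩ : ∃ J : Op, J = emb b hb := ⟨_, rfl⟩
  rw [← hJ] at hup hlo
  have hw : (0 : ℝ) ≤ 2 ^ s := by positivity
  obtain ⟨hl, hk0⟩ := sampling_bounds hw hXn hup
  have hmid := sampling_middle hup hlo
  obtain ⟨r, hr⟩ : ∃ r : ℂ, r = ((√(2 ^ s) : ℝ) : ℂ) := ⟨_, rfl⟩
  rw [← hr] at hl hk0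
  have hrr : r * r = ((2 ^ s : ℝ) : ℂ) := by
    rw [hr, ← Complex.ofReal_mul, Real.mul_self_sqrt hw]
  obtain ⟨l, hldef⟩ : ∃ l : Op, l = r • (adjoint J * X) := ⟨_, rfl⟩
  rw [← hldef] at hl
  obtain ⟨F, hF⟩ : ∃ F : Op, F = (1 / 4 : ℂ) • (R' - 1) := ⟨_, rfl⟩
  have hFn : ‖F‖ ≤ 21 / 40 := by
    rw [hF, norm_smul]
    have : ‖(1 / 4 : ℂ)‖ = 1 / 4 := by norm_num
    rw [this]; linarith
  obtain ⟨k, hkdef⟩ : ∃ k : Op, k = F * (r • (X * J)) := ⟨_, rfl⟩
  have hkn : ‖k‖ ≤ 12 / 10 := by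
    rw [hkdef]
    refine (norm_mul_le _ _).trans ?_
    calc ‖F‖ * ‖r • (X * J)‖ ≤ (21 / 40) * (11 / 5) := by gcongr
      _ ≤ 12 / 10 := by norm_num
  -- the operator Y
  obtain ⟨Y, hY⟩ : ∃ Y : Op, Y = X - k * l := ⟨_, rfl⟩
  have hcomm : (R' - 1) * X = X * (R' - 1) := by
    rw [hXdef]
    simp only [mul_sub, sub_mul, mul_one, one_mul, h.mul, h.mul']
    abel
  have hkl : k * l = F * X * X + F * (X * (((2 ^ s : ℝ) : ℂ) • (J * adjoint J) - 1) * X) := by
    have e1 : k * l = (r * r) • (F * X * J * (adjoint J * X)) := by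
      rw [hkdef, hldef]
      simp only [mul_smul_comm, smul_mul_assoc, smul_smul, mul_assoc]
    rw [e1, hrr, mul_sub, sub_mul, mul_sub]
    simp only [mul_smul_comm, smul_mul_assoc, mul_assoc, mul_one]
    abel
  have hYn : ‖Y‖ ≤ 9 / 10 := by
    obtain ⟨Δ, hΔ⟩ : ∃ Δ : Op, Δ = R - adjoint R' := ⟨_, rfl⟩
    have e0 : R' - 1 = adjoint X - adjoint Δ := by
      rw [hXdef, hΔ, map_sub, map_sub, ContinuousLinearMap.adjoint_adjoint]
      have : adjoint (1 : Op) = 1 := by rw [← star_eq_adjoint, star_one]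
      rw [this]; abel
    have e1 : F * X * X = (1 / 4 : ℂ) • (X * adjoint X * X) - (1 / 4 : ℂ) • (X * adjoint Δ * X) := by
      rw [hF, smul_mul_assoc, hcomm, smul_mul_assoc, e0, mul_sub, sub_mul, smul_sub]
    have e2 : Y = (X - (1 / 4 : ℂ) • (X * adjoint X * X)) + (1 / 4 : ℂ) • (X * adjoint Δ * X) -
        F * (X * (((2 ^ s : ℝ) : ℂ) • (J * adjoint J) - 1) * X) := by
      rw [hY, hkl, e1]; abel
    rw [e2]
    refine (norm_sub_le _ _).trans ?_
    refine (add_le_add (norm_add_le _ _) le_rfl).trans ?_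
    have b1 := key_ineq X hXn
    have b2 : ‖(1 / 4 : ℂ) • (X * adjoint Δ * X)‖ ≤ 1 / 4 * ((21 / 10) * ν * (21 / 10)) := by
      rw [norm_smul]
      have : ‖(1 / 4 : ℂ)‖ = 1 / 4 := by norm_num
      rw [this]
      have hΔn : ‖adjoint Δ‖ ≤ ν := by rw [norm_adj, hΔ]; exact h.near
      have : ‖X * adjoint Δ * X‖ ≤ (21 / 10) * ν * (21 / 10) := by
        refine (norm_mul_le _ _).trans ?_
        gcongr
        refine (norm_mul_le _ _).trans ?_
        gcongr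
      linarith
    have b3 : ‖F * (X * (((2 ^ s : ℝ) : ℂ) • (J * adjoint J) - 1) * X)‖ ≤ 21 / 40 * (1 / 10) := by
      refine (norm_mul_le _ _).trans ?_
      gcongr
    linarith
  -- entries
  have hle : ∀ i j, ent l i j ≠ 0 → i < j / 2 ^ s := by
    intro i j hij
    have e1 : ent (adjoint J * X) i j ≠ 0 := by
      intro h0
      apply hij
      rw [hldef, ent_smul, h0, mul_zero]
    have e2 : ent (adjoint J * X) i j = ent X (b i) j := by
      show ((adjoint J (X (e j)) : H) : ℕ → ℂ) i = _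
      rw [hJ, adj_emb_apply]; rfl
    rw [e2] at e1
    by_contra hne
    apply e1
    apply hX
    show j / 2 ^ s ≤ b i / 2 ^ s
    rw [hbdiv]; exact not_lt.1 hne
  have hFU : UT F := by
    rw [hF]; exact (h.ut'.sub UT.one).smul _
  have hXlt : ∀ i j, ent X i j ≠ 0 → i / 2 ^ s < j / 2 ^ s := by
    intro i j hij
    by_contra hne
    exact hij (hX i j (not_lt.1 hne))
  have hke : ∀ i j, ent k i j ≠ 0 → i / 2 ^ s < j := by
    intro i j hij
    have e1 : ent (F * X * J) i j ≠ 0 := by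
      intro h0
      apply hij
      rw [hkdef, mul_smul_comm, ent_smul, ← mul_assoc, h0, mul_zero]
    have e2 : ent (F * X * J) i j = ent (F * X) i (b j) := by
      show (((F * X) (J (e j)) : H) : ℕ → ℂ) i = _
      rw [hJ, emb_e]; rfl
    rw [e2] at e1
    obtain ⟨a, ha1, ha2⟩ := ent_mul_ne e1
    have := hXlt _ _ ha2
    rw [hbdiv] at this
    exact lt_of_le_of_lt (hg (hFU.le ha1)) this
  have hkle : ∀ i j, ent (k * l) i j ≠ 0 → i / 2 ^ s < j / 2 ^ s := by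
    intro i j hij
    obtain ⟨a, ha1, ha2⟩ := ent_mul_ne hij
    exact (hke _ _ ha1).trans (hle _ _ ha2)
  have hYU : UT Y := by
    rw [hY]
    refine (hX.ut hg).sub (UT.of ?_)
    intro i j hij
    have := hkle i j hij
    by_contra hne
    exact absurd (hg (not_le.1 hne).le) (not_le.2 this)
  obtain ⟨N, hN, hNn⟩ := exists_inv_bound hYU hYn
  have hRkl : 1 + Y = R - k * l := by rw [hY, hXdef]; abel
  rw [hRkl] at hN
  obtain ⟨w1, w2⟩ := woodbury R R' N l k hN.mul hN.mul' h.mul h.mul'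
  have hlR'e : ∀ i j, ent (l * R') i j ≠ 0 → i < j / 2 ^ s := by
    intro i j hij
    obtain ⟨a, ha1, ha2⟩ := ent_mul_ne hij
    exact lt_of_lt_of_le (hle _ _ ha1) (hg (h.ut'.le ha2))
  have hR'ke : ∀ i j, ent (R' * k) i j ≠ 0 → i / 2 ^ s < j := by
    intro i j hij
    obtain ⟨a, ha1, ha2⟩ := ent_mul_ne hij
    exact lt_of_le_of_lt (hg (h.ut'.le ha1)) (hke _ _ ha2)
  have hU1 : UT (l * R' * k) := by
    refine UT.of (fun i j hij => ?_)
    obtain ⟨a, ha1, ha2⟩ := ent_mul_ne hij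
    exact ((hlR'e _ _ ha1).trans (hke _ _ ha2)).le
  have hU2 : UT (l * N * k) := by
    refine UT.of (fun i j hij => ?_)
    obtain ⟨a, ha1, ha2⟩ := ent_mul_ne hij
    obtain ⟨a', ha1', ha2'⟩ := ent_mul_ne ha1
    have := hg (hN.ut'.le ha2')
    exact (((hle _ _ ha1').trans_le this).trans (hke _ _ ha2)).le
  have hlR'n : ‖l * R'‖ ≤ 27 / 10 := by
    refine (norm_mul_le _ _).trans ?_
    calc ‖l‖ * ‖R'‖ ≤ (11 / 5) * (11 / 10) := by gcongr
      _ ≤ 27 / 10 := by norm_num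
  have hR'kn : ‖R' * k‖ ≤ 27 / 10 := by
    refine (norm_mul_le _ _).trans ?_
    calc ‖R'‖ * ‖k‖ ≤ (11 / 10) * (12 / 10) := by gcongr
      _ ≤ 27 / 10 := by norm_num
  have h1n : ‖(1 : Op)‖ ≤ 1 := ContinuousLinearMap.norm_id_le
  refine ⟨1 - l * R' * k, 1 + l * N * k, ⟨UT.one.sub hU1, UT.one.add hU2, w1, w2⟩, ?_, ?_, ?_⟩
  · refine (norm_sub_le _ _).trans ?_
    have : ‖l * R' * k‖ ≤ (27 / 10) * (12 / 10) := by
      refine (norm_mul_le _ _).trans ?_
      gcongr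
    linarith
  · refine (norm_add_le _ _).trans ?_
    have : ‖l * N * k‖ ≤ ((11 / 5) * 10) * (12 / 10) := by
      refine (norm_mul_le _ _).trans ?_
      gcongr
      refine (norm_mul_le _ _).trans ?_
      gcongr
    linarith
  · intro p c hp hc hpc h1 h2
    rw [hXdef] at hY
    have hcp : ∀ i j, c i ≠ p j := fun i j hh => hpc j i hh.symm
    have hid := exch_identity (emb p hp.injective) (adjoint (emb p hp.injective))
      (emb c hc.injective) (adjoint (emb c hc.injective)) R R' l k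
      (adj_emb_mul_emb _) (adj_emb_mul_emb _) (adj_emb_mul_emb_disjoint _ _ hpc)
      (adj_emb_mul_emb_disjoint _ _ hcp) h.mul h.mul'
    have hgoal : amb p hp.injective R * amb c hc.injective (1 - l * R' * k) =
      (1 + emb p hp.injective * (R - 1) * adjoint (emb p hp.injective)) *
        (1 + emb c hc.injective * (-(l * R' * k)) * adjoint (emb c hc.injective)) := by
      unfold amb
      rw [sub_sub_cancel_left]
    rw [hgoal, ← hid]
    set Γ : Set ℕ := Set.range p ∪ Set.range c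
    have hΓp : Set.range p ⊆ Γ := Set.subset_union_left
    have hΓc : Set.range c ⊆ Γ := Set.subset_union_right
    have f1 : El Γ 3 (1 + emb c hc.injective * (-(l * R')) * adjoint (emb p hp.injective)) := by
      refine El.corner _ _ hcp ?_ (by rw [norm_neg]; exact hlR'n) hΓc hΓp
      intro i j hij
      refine (h2 j i (hlR'e i j ?_)).le
      intro h0; apply hij; rw [ent_neg, h0, neg_zero]
    have f2 : El Γ 3 (1 + emb p hp.injective * k * adjoint (emb c hc.injective)) := by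
      refine El.corner _ _ hpc ?_ (by linarith) hΓp hΓc
      intro i j hij
      exact (h1 i j (hke i j hij)).le
    have f3 : El Γ 1 (1 + emb p hp.injective * (R - 1 - k * l) *
        adjoint (emb p hp.injective)) := by
      rw [← hY]; exact El.corner_one hp hYU hYn hΓp
    have f4 : El Γ 3 (1 + emb c hc.injective * l * adjoint (emb p hp.injective)) := by
      refine El.corner _ _ hcp ?_ (by linarith) hΓc hΓp
      intro i j hij
      exact (h2 j i (hle i j hij)).le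
    have f5 : El Γ 3 (1 + emb p hp.injective * (-(R' * k)) * adjoint (emb c hc.injective)) := by
      refine El.corner _ _ hpc ?_ (by rw [norm_neg]; exact hR'kn) hΓp hΓc
      intro i j hij
      refine (h1 i j (hR'ke i j ?_)).le
      intro h0; apply hij; rw [ent_neg, h0, neg_zero]
    exact f5.mul (f4.mul (f3.mul (f2.mul f1)))

end Pool.Agent.Work.MP_194f66_an
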