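import Pool.Agent.Work.MP_194f66_an.QR

open scoped InnerProductSpace ComplexConjugate
open ContinuousLinearMap InnerProductSpace

namespace Pool.Agent.Work.MP_194f66_an

theorem exists_sqrt (E : Type) [NormedAddCommGroup E] [InnerProductSpace ℂ E] [CompleteSpace E]
    (Q : E →L[ℂ] E) (hQ : IsStrictlyPositive Q) :
    ∃ A A' : E →L[ℂ] E, A * A' = 1 ∧ A' * A = 1 ∧ adjoint A * A = Q := by
  have h1 : IsUnit (CFC.sqrt Q) := IsStrictlyPositive.isUnit_cfcSqrt Q hQ
  obtain ⟨u, hu⟩ := h1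
  have h2 : IsSelfAdjoint (CFC.sqrt Q) := (CFC.sqrt_nonneg Q).isSelfAdjoint
  refine ⟨CFC.sqrt Q, ↑u⁻¹, ?_, ?_, ?_⟩
  · rw [← hu]; exact u.mul_inv
  · rw [← hu]; exact u.inv_mul
  · rw [← star_eq_adjoint, h2.star_eq]
    exact CFC.sqrt_mul_sqrt_self Q hQ.nonneg

theorem strictPos_path (E : Type) [NormedAddCommGroup E] [InnerProductSpace ℂ E] [CompleteSpace E]
    (T T' : E →L[ℂ] E) (h1 : T * T' = 1) (h2 : T' * T = 1) (t : ℝ) (h0 : 0 ≤ t) (ht : t ≤ 1) :
    IsStrictlyPositive ((1 - t) • (1 : E →L[ℂ] E) + t • (adjoint T * T)) := by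
  have hpos : 0 ≤ adjoint T * T := star_mul_self_nonneg T
  rcases eq_or_lt_of_le h0 with h | h
  · subst h
    simp only [sub_zero, one_smul, zero_smul, add_zero]
    exact isStrictlyPositive_one
  · have hu : IsStrictlyPositive (adjoint T * T) := by
      refine (IsStrictlyPositive.iff_of_unital).2 ⟨hpos, ?_⟩
      have h3 : adjoint T * adjoint T' = 1 := by
        rw [← star_eq_adjoint, ← star_eq_adjoint, ← star_mul, h2, star_one]
      have h4 : adjoint T' * adjoint T = 1 := by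
        rw [← star_eq_adjoint, ← star_eq_adjoint, ← star_mul, h1, star_one]
      refine IsUnit.mul ⟨⟨adjoint T, adjoint T', h3, h4⟩, rfl⟩ ⟨⟨T, T', h1, h2⟩, rfl⟩
    have h5 : IsStrictlyPositive (t • (adjoint T * T)) := hu.smul h
    refine IsStrictlyPositive.nonneg_add ?_ h5
    apply smul_nonneg (by linarith) zero_le_one

/-- A pair of mutually inverse upper triangular operators. -/
structure Inv (T T' : Op) : Prop where
  ut : UT T
  ut' : UT T'
  mul : T * T' = 1
  mul' : T' * T = 1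

theorem op_mul_apply (S T : Op) (x : H) : (S * T) x = S (T x) := rfl

theorem Inv.apply {T T' : Op} (h : Inv T T') (x : H) : T (T' x) = x := by
  have := congrArg (fun S : Op => S x) h.mul
  simpa using this

theorem Inv.apply' {T T' : Op} (h : Inv T T') (x : H) : T' (T x) = x := by
  have := congrArg (fun S : Op => S x) h.mul'
  simpa using this

theorem adj_mul_adj {T T' : Op} (h : T * T' = 1) : adjoint T' * adjoint T = 1 := by
  rw [← star_eq_adjoint, ← star_eq_adjoint, ← star_mul, h, star_one]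

theorem chol_path {T T' : Op} {K : ℝ} (h : Inv T T') (hK : 1 ≤ K) (hT : ‖T‖ ≤ K) (hT' : ‖T'‖ ≤ K)
    (t : ℝ) (h0 : 0 ≤ t) (h1 : t ≤ 1) :
    ∃ S S' : Op, Inv S S' ∧ adjoint S * S = (1 - t) • (1 : Op) + t • (adjoint T * T) ∧
      ‖S‖ ≤ K ∧ ‖S'‖ ≤ K := by
  obtain ⟨A, A', hA1, hA2, hA3⟩ := exists_sqrt H _ (strictPos_path H T T' h.mul h.mul' t h0 h1)
  obtain ⟨S, S', hS1, hS2, hS3, hS4, hS5⟩ := qr A A' hA1 hA2
  have hI : Inv S S' := ⟨hS1, hS2, hS3, hS4⟩
  rw [hA3] at hS5
  have hn : ∀ x, ‖S x‖ ^ 2 = (1 - t) * ‖x‖ ^ 2 + t * ‖T x‖ ^ 2 := by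
    intro x
    have e1 : (‖S x‖ : ℂ) ^ 2 = ⟪(adjoint S * S) x, x⟫_ℂ := by
      rw [inner_adj_mul, inner_self_eq_norm_sq_to_K]; rfl
    have e2 : (‖T x‖ : ℂ) ^ 2 = ⟪(adjoint T * T) x, x⟫_ℂ := by
      rw [inner_adj_mul, inner_self_eq_norm_sq_to_K]; rfl
    have e3 : (‖x‖ : ℂ) ^ 2 = ⟪x, x⟫_ℂ := by
      rw [inner_self_eq_norm_sq_to_K]; rfl
    have e4 : (‖S x‖ : ℂ) ^ 2 = (1 - t) * (‖x‖ : ℂ) ^ 2 + t * (‖T x‖ : ℂ) ^ 2 := by
      rw [e1, hS5, e2, e3]
      rw [_root_.add_apply, inner_add_left, _root_.smul_apply, _root_.smul_apply,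
        one_apply_eq_self]
      rw [← Complex.coe_smul, ← Complex.coe_smul, inner_smul_left, inner_smul_left]
      simp only [Complex.conj_ofReal]
      push_cast
      ring
    exact_mod_cast e4
  refine ⟨S, S', hI, hS5, ?_, ?_⟩
  · refine ContinuousLinearMap.opNorm_le_bound _ (by linarith) (fun x => ?_)
    have h2 : ‖T x‖ ≤ K * ‖x‖ := (T.le_opNorm x).trans (by gcongr)
    have h3 : ‖S x‖ ^ 2 ≤ (K * ‖x‖) ^ 2 := by
      rw [hn x]
      have h4 : ‖T x‖ ^ 2 ≤ (K * ‖x‖) ^ 2 := by gcongr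
      have h5 : ‖x‖ ^ 2 ≤ (K * ‖x‖) ^ 2 := by
        apply pow_le_pow_left₀ (norm_nonneg _)
        nlinarith [norm_nonneg x]
      nlinarith
    exact le_of_sq_le_sq h3 (by positivity)
  · refine ContinuousLinearMap.opNorm_le_bound _ (by linarith) (fun y => ?_)
    set x := S' y with hx
    have hy : S x = y := by rw [hx, hI.apply]
    have h2 : ‖x‖ ≤ K * ‖T x‖ := by
      calc ‖x‖ = ‖T' (T x)‖ := by rw [h.apply']
        _ ≤ ‖T'‖ * ‖T x‖ := T'.le_opNorm _
        _ ≤ K * ‖T x‖ := by gcongr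
    have h3 : ‖x‖ ^ 2 ≤ (K * ‖y‖) ^ 2 := by
      rw [← hy, mul_pow, hn x]
      have h4 : ‖x‖ ^ 2 ≤ K ^ 2 * ‖T x‖ ^ 2 := by
        rw [← mul_pow]; gcongr
      have h5 : ‖x‖ ^ 2 ≤ K ^ 2 * ‖x‖ ^ 2 := by
        have : 1 ≤ K ^ 2 := by nlinarith
        nlinarith [sq_nonneg ‖x‖]
      nlinarith
    exact le_of_sq_le_sq h3 (by positivity)

/-- Near-unitarity of an upper triangular invertible operator. -/
structure NearU (R R' : Op) (ν : ℝ) : Prop extends Inv R R' where
  near : ‖R - adjoint R'‖ ≤ ν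

theorem norm_adj (T : Op) : ‖adjoint T‖ = ‖T‖ := ContinuousLinearMap.adjoint.norm_map T

/-- product `R (n-1) * ... * R 0` -/
noncomputable def prodSeq (R : ℕ → Op) : ℕ → Op
  | 0 => 1
  | n + 1 => R n * prodSeq R n

theorem UT.mul {S T : Op} (hS : UT S) (hT : UT T) : UT (S * T) := by
  intro i j hij
  rw [ent_mul]
  have : ∀ k, ent S i k * ent T k j = 0 := by
    intro k
    rcases lt_or_ge k i with h | h
    · rw [hS i k h, zero_mul]
    · rw [hT k j (by omega), mul_zero]
  simp [this]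

theorem UT.one : UT (1 : Op) := by
  intro i j hij
  rw [ent_one, if_neg (by omega)]

theorem UT.zero : UT (0 : Op) := by
  intro i j hij
  rfl

theorem UT.add {S T : Op} (hS : UT S) (hT : UT T) : UT (S + T) := by
  intro i j hij
  rw [ent_add, hS i j hij, hT i j hij, add_zero]

theorem UT.sub {S T : Op} (hS : UT S) (hT : UT T) : UT (S - T) := by
  intro i j hij
  rw [ent_sub, hS i j hij, hT i j hij, sub_zero]

theorem UT.neg {S : Op} (hS : UT S) : UT (-S) := by
  intro i j hij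
  rw [ent_neg, hS i j hij, neg_zero]

theorem UT.smul {S : Op} (c : ℂ) (hS : UT S) : UT (c • S) := by
  intro i j hij
  rw [ent_smul, hS i j hij, mul_zero]

theorem Inv.mul_inv {S S' T T' : Op} (h1 : Inv S S') (h2 : Inv T T') :
    Inv (S * T) (T' * S') := by
  refine ⟨h1.ut.mul h2.ut, h2.ut'.mul h1.ut', ?_, ?_⟩
  · calc S * T * (T' * S') = S * (T * T') * S' := by simp only [mul_assoc]
      _ = 1 := by rw [h2.mul, mul_one, h1.mul]
  · calc T' * S' * (S * T) = T' * (S' * S) * T := by simp only [mul_assoc]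
      _ = 1 := by rw [h1.mul', mul_one, h2.mul']

theorem Inv.symm {T T' : Op} (h : Inv T T') : Inv T' T := ⟨h.ut', h.ut, h.mul', h.mul⟩

theorem Inv.one : Inv (1 : Op) 1 := ⟨UT.one, UT.one, one_mul _, one_mul _⟩

theorem factor {T T' : Op} {K : ℝ} (h : Inv T T') (hK : 1 ≤ K) (hT : ‖T‖ ≤ K) (hT' : ‖T'‖ ≤ K)
    (m : ℕ) (hm : 0 < m) :
    ∃ R R' : ℕ → Op, (∀ i, i < m → NearU (R i) (R' i) (K ^ 2 * (K ^ 2 + 1) / m)) ∧
      T = prodSeq R m := by
  classical
  have hm' : (0 : ℝ) < m := by exact_mod_cast hm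
  -- choose the Cholesky factors
  have hex : ∀ i : ℕ, ∃ S S' : Op, Inv S S' ∧ ‖S‖ ≤ K ∧ ‖S'‖ ≤ K ∧
      (i ≤ m → adjoint S * S = (1 - (i / m : ℝ)) • (1 : Op) + (i / m : ℝ) • (adjoint T * T)) ∧
      (i = 0 → S = 1) ∧ (i = m → S = T) := by
    intro i
    by_cases hi0 : i = 0
    · subst hi0
      refine ⟨1, 1, Inv.one, ?_, ?_, ?_, ?_, ?_⟩
      · exact (ContinuousLinearMap.norm_id_le).trans hK
      · exact (ContinuousLinearMap.norm_id_le).trans hK
      · intro _
        simp only [Nat.cast_zero, zero_div, sub_zero, one_smul, zero_smul, add_zero]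
        rw [← star_eq_adjoint, star_one, one_mul]
      · intro _; rfl
      · intro hh; omega
    by_cases him : i = m
    · subst him
      refine ⟨T, T', h, hT, hT', ?_, ?_, ?_⟩
      · intro _
        rw [div_self hm'.ne']
        simp
      · intro hh; omega
      · intro _; rfl
    by_cases hile : i ≤ m
    · obtain ⟨S, S', h1, h2, h3, h4⟩ := chol_path h hK hT hT' (i / m : ℝ) (by positivity)
        (by rw [div_le_one hm']; exact_mod_cast hile)
      exact ⟨S, S', h1, h3, h4, fun _ => h2, fun hh => absurd hh hi0, fun hh => absurd hh him⟩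
    · refine ⟨1, 1, Inv.one, ?_, ?_, ?_, ?_, ?_⟩
      · exact (ContinuousLinearMap.norm_id_le).trans hK
      · exact (ContinuousLinearMap.norm_id_le).trans hK
      · intro hh; exact absurd hh hile
      · intro _; rfl
      · intro hh; exact absurd hh him
  choose S S' hI hn hn' hq h0 h1 using hex
  refine ⟨fun i => S (i + 1) * S' i, fun i => S i * S' (i + 1), ?_, ?_⟩
  · intro i hi
    refine ⟨(hI (i+1)).mul_inv (hI i).symm, ?_⟩
    have hadj : adjoint (S i * S' (i + 1)) = adjoint (S' (i+1)) * adjoint (S i) := by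
      rw [← star_eq_adjoint, ← star_eq_adjoint, ← star_eq_adjoint, star_mul]
    have e1 : adjoint (S' (i+1)) * adjoint (S (i+1)) = 1 := adj_mul_adj (hI (i+1)).mul
    have e2 : S (i + 1) * S' i - adjoint (S i * S' (i + 1)) =
        adjoint (S' (i+1)) * (adjoint (S (i+1)) * S (i+1) - adjoint (S i) * S i) * S' i := by
      rw [hadj, mul_sub, sub_mul]
      congr 1
      · rw [← mul_assoc, e1, one_mul]
      · rw [mul_assoc, mul_assoc, (hI i).mul, mul_one]
    have e3 : adjoint (S (i+1)) * S (i+1) - adjoint (S i) * S i =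
        (1 / m : ℝ) • (adjoint T * T - 1) := by
      rw [hq (i+1) (by omega), hq i (by omega)]
      have : ((i + 1 : ℕ) / m : ℝ) = (i / m : ℝ) + 1 / m := by
        push_cast; ring
      rw [this, smul_sub, sub_smul, sub_smul, add_smul, add_smul, one_smul]
      abel
    rw [e2, e3]
    have e4 : ‖adjoint T * T - 1‖ ≤ K ^ 2 + 1 := by
      refine (norm_sub_le _ _).trans ?_
      refine add_le_add ?_ ContinuousLinearMap.norm_id_le
      refine (norm_mul_le _ _).trans ?_
      rw [norm_adj, sq]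
      gcongr
    calc ‖adjoint (S' (i+1)) * ((1 / m : ℝ) • (adjoint T * T - 1)) * S' i‖
        ≤ ‖adjoint (S' (i+1))‖ * ‖((1 / m : ℝ) • (adjoint T * T - 1))‖ * ‖S' i‖ := by
          refine (norm_mul_le _ _).trans ?_
          gcongr
          exact norm_mul_le _ _
      _ ≤ K * (1 / m * (K ^ 2 + 1)) * K := by
          rw [norm_adj, norm_smul]
          have : ‖(1 / m : ℝ)‖ = 1 / m := by
            rw [Real.norm_eq_abs, abs_of_pos (by positivity)]
          rw [this]
          gcongr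
          · exact hn' _
          · exact hn' _
      _ = K ^ 2 * (K ^ 2 + 1) / m := by ring
  · have key : ∀ n, n ≤ m → prodSeq (fun i => S (i + 1) * S' i) n = S n := by
      intro n
      induction n with
      | zero => intro _; rw [h0 0 rfl]; rfl
      | succ n ih =>
        intro hn
        show S (n + 1) * S' n * prodSeq (fun i => S (i + 1) * S' i) n = S (n + 1)
        rw [ih (by omega), mul_assoc, (hI n).mul', mul_one]
    rw [key m le_rfl, h1 m rfl]

end Pool.Agent.Work.MP_194f66_an
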