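import Pool.Agent.Work.MP_194f66_an.Swindle

open scoped InnerProductSpace ComplexConjugate
open ContinuousLinearMap InnerProductSpace

namespace Pool.Agent.Work.MP_194f66_an

/-- the increasing enumeration of the complement of a sparse set -/
theorem exists_compl {L M : ℕ} (hL : 0 < L) (C : ℕ → ℕ) (hC : StrictMono C)
    (hM : 0 < M) (hblock : ∀ j, C j / (L + M) = j / M) :
    ∃ p0 : ℕ → ℕ, StrictMono p0 ∧ (∀ n k, p0 n ≠ C k) ∧
      (∀ a, (∀ k, a ≠ C k) → ∃ n, p0 n = a) ∧ (∀ n, p0 n / (L + M) = n / L) := by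
  classical
  set P : ℕ → Prop := fun a => ∀ k, a ≠ C k with hP
  have hLM : 0 < L + M := by omega
  have hcount : ∀ B, Nat.count P ((L + M) * B) = L * B := by
    intro B
    have h1 : Nat.count P ((L + M) * B) = ((Finset.range ((L + M) * B)).filter P).card :=
      Nat.count_eq_card_filter_range _ _
    have h2 : (Finset.range ((L + M) * B)).filter (fun a => ¬ P a) =
        (Finset.range (M * B)).image C := by
      ext a
      simp only [Finset.mem_filter, Finset.mem_range, Finset.mem_image, hP]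
      push Not
      constructor
      · rintro ⟨ha, k, rfl⟩
        refine ⟨k, ?_, rfl⟩
        have h3 : C k / (L + M) < B := Nat.div_lt_of_lt_mul ha
        rw [hblock] at h3
        rw [mul_comm]
        exact (Nat.div_lt_iff_lt_mul hM).1 h3
      · rintro ⟨k, hk, rfl⟩
        refine ⟨?_, k, rfl⟩
        have h3 : k / M < B := Nat.div_lt_of_lt_mul hk
        rw [← hblock] at h3
        rw [mul_comm]
        exact (Nat.div_lt_iff_lt_mul hLM).1 h3
    have h3 := Finset.card_filter_add_card_filter_not (s := Finset.range ((L + M) * B)) P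
    rw [h2, Finset.card_image_of_injective _ hC.injective, Finset.card_range, Finset.card_range]
      at h3
    rw [h1]
    have h4 : (L + M) * B = L * B + M * B := by ring
    omega
  have hinf : (Set.ofPred P).Infinite := by
    intro hfin
    have h1 := Nat.count_le_card hfin ((L + M) * (hfin.toFinset.card + 1))
    rw [hcount] at h1
    have : 1 * (hfin.toFinset.card + 1) ≤ L * (hfin.toFinset.card + 1) :=
      Nat.mul_le_mul_right _ hL
    omega
  refine ⟨Nat.nth P, Nat.nth_strictMono hinf, fun n => Nat.nth_mem_of_infinite hinf n,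
    fun a ha => ⟨_, Nat.nth_count (p := P) ha⟩, fun n => ?_⟩
  have h1 : (L + M) * (n / L) ≤ Nat.nth P n := by
    rw [← Nat.count_le_iff_le_nth hinf, hcount]
    exact Nat.mul_div_le n L
  have h2 : Nat.nth P n < (L + M) * (n / L + 1) := by
    rw [← Nat.lt_nth_iff_count_lt hinf, hcount]
    exact Nat.lt_mul_div_succ n hL
  apply Nat.le_antisymm
  · have := (Nat.div_lt_iff_lt_mul hLM).2 (by rwa [mul_comm] at h2)
    omega
  · exact (Nat.le_div_iff_mul_le hLM).2 (by rwa [mul_comm] at h1)

/-- positions inside the reserved set -/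
def qq (m : ℕ) (κ : ℕ → ℕ) (o a : ℕ) : ℕ := 2 * m * κ (a / m) + o + a % m

theorem qq_lt {m : ℕ} (hm : 0 < m) {κ κ' : ℕ → ℕ} {o o' a b : ℕ} (ho : o ≤ m)
    (h : κ (a / m) < κ' (b / m)) : qq m κ o a < qq m κ' o' b := by
  unfold qq
  have h1 := Nat.mod_lt a hm
  have h2 : 2 * m * (κ (a / m) + 1) ≤ 2 * m * κ' (b / m) := Nat.mul_le_mul_left _ h
  rw [mul_add] at h2
  omega

theorem qq_strictMono {m : ℕ} (hm : 0 < m) {κ : ℕ → ℕ} (hκ : StrictMono κ) {o : ℕ}
    (ho : o ≤ m) : StrictMono (qq m κ o) := by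
  intro a b hab
  have h1 : a / m ≤ b / m := Nat.div_le_div_right hab.le
  rcases h1.lt_or_eq with h | h
  · exact qq_lt hm ho (hκ h)
  · unfold qq
    have h2 := Nat.div_add_mod a m
    have h3 := Nat.div_add_mod b m
    rw [h] at h2 ⊢
    omega

theorem qq_div {m : ℕ} (hm : 0 < m) {κ : ℕ → ℕ} {o a : ℕ} (ho : o ≤ m) :
    qq m κ o a / (2 * m) = κ (a / m) := by
  unfold qq
  have h1 := Nat.mod_lt a hm
  have h2 : o + a % m < 2 * m := by omega
  rw [add_assoc, Nat.mul_add_div (by omega), Nat.div_eq_of_lt h2, add_zero]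

theorem qq_mod {m : ℕ} (hm : 0 < m) {κ : ℕ → ℕ} {o a : ℕ} (ho : o ≤ m) :
    qq m κ o a % (2 * m) = o + a % m := by
  unfold qq
  have h1 := Nat.mod_lt a hm
  have h2 : o + a % m < 2 * m := by omega
  rw [add_assoc, Nat.mul_add_mod, Nat.mod_eq_of_lt h2]

/-- block maps -/
def kp (r : ℕ) : ℕ → ℕ → ℕ
  | 0, k => k
  | j + 1, k => r ^ j * (r * k + 1)

theorem kp_strictMono {r : ℕ} (hr : 2 ≤ r) (j : ℕ) : StrictMono (kp r j) := by
  cases j with
  | zero => exact fun a b h => h
  | succ j =>
    intro a b hab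
    show r ^ j * (r * a + 1) < r ^ j * (r * b + 1)
    have h1 : 0 < r ^ j := by positivity
    have h2 : r * a < r * b := Nat.mul_lt_mul_of_pos_left hab (by omega)
    exact Nat.mul_lt_mul_of_pos_left (by omega) h1

theorem kp_lt1 {r : ℕ} (hr : 2 ≤ r) (j : ℕ) {k' k : ℕ} (h : k' / r < k) :
    kp r j k' < kp r (j + 1) k := by
  have h1 : k' < k * r := (Nat.div_lt_iff_lt_mul (by omega)).1 h
  cases j with
  | zero =>
    show k' < r ^ 0 * (r * k + 1)
    rw [pow_zero, one_mul, mul_comm r k]
    omega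
  | succ j =>
    show r ^ j * (r * k' + 1) < r ^ (j + 1) * (r * k + 1)
    rw [pow_succ, mul_assoc (r ^ j)]
    refine Nat.mul_lt_mul_of_pos_left ?_ (by positivity)
    have h2 : r * (k' + 1) ≤ r * (r * k + 1) := Nat.mul_le_mul_left _ (by rw [mul_comm r k]; omega)
    rw [mul_add] at h2
    omega

theorem kp_lt2 {r : ℕ} (hr : 2 ≤ r) (j : ℕ) {k' k : ℕ} (h : k < k' / r) :
    kp r (j + 1) k < kp r j k' := by
  have h1 : (k + 1) * r ≤ k' := (Nat.le_div_iff_mul_le (by omega)).1 h
  have h3 : (k + 1) * r = r * k + r := by ring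
  cases j with
  | zero =>
    show r ^ 0 * (r * k + 1) < k'
    rw [pow_zero, one_mul]
    omega
  | succ j =>
    show r ^ (j + 1) * (r * k + 1) < r ^ j * (r * k' + 1)
    rw [pow_succ, mul_assoc (r ^ j)]
    refine Nat.mul_lt_mul_of_pos_left ?_ (by positivity)
    have h2 : r * (r * k + 1) ≤ r * k' := Nat.mul_le_mul_left _ (by omega)
    omega

theorem kp_disjoint {r : ℕ} (hr : 2 ≤ r) {i j : ℕ} (hij : i ≠ j) (k l : ℕ) :
    kp r (i + 1) k ≠ kp r (j + 1) l := by
  wlog hlt : i < j generalizing i j k l with hw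
  · exact fun hh => hw hij.symm l k (by omega) hh.symm
  show r ^ i * (r * k + 1) ≠ r ^ j * (r * l + 1)
  obtain ⟨d, rfl⟩ : ∃ d, j = i + (d + 1) := ⟨j - i - 1, by omega⟩
  intro h
  rw [pow_add, mul_assoc] at h
  have h1 : r * k + 1 = r ^ (d + 1) * (r * l + 1) :=
    Nat.eq_of_mul_eq_mul_left (by positivity) h
  have h2 : r * k + 1 = r * (r ^ d * (r * l + 1)) := by rw [h1, pow_succ]; ring
  have h3 : (r * k + 1) % r = (r * (r ^ d * (r * l + 1))) % r := by rw [h2]
  rw [Nat.mul_mod_right, Nat.mul_add_mod, Nat.mod_eq_of_lt (by omega)] at h3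
  omega

/-- offsets -/
def off (m : ℕ) : ℕ → ℕ
  | 0 => 0
  | _ + 1 => m

theorem off_le (m j : ℕ) : off m j ≤ m := by
  cases j with
  | zero => exact Nat.zero_le _
  | succ j => exact le_rfl

/-- the whole layout -/
def lay (m r : ℕ) (C p0 : ℕ → ℕ) : ℕ → ℕ → ℕ
  | 0, a => p0 a
  | j + 1, a => C (qq m (kp r j) (off m j) a)

theorem lay_strictMono {m r : ℕ} (hm : 0 < m) (hr : 2 ≤ r) {C p0 : ℕ → ℕ} (hC : StrictMono C)
    (hp0 : StrictMono p0) (j : ℕ) : StrictMono (lay m r C p0 j) := by
  cases j with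
  | zero => exact hp0
  | succ j => exact hC.comp (qq_strictMono hm (kp_strictMono hr j) (off_le m j))

theorem lay_disjoint {m r : ℕ} (hm : 0 < m) (hr : 2 ≤ r) {C p0 : ℕ → ℕ} (hC : StrictMono C)
    (hCp : ∀ n k, p0 n ≠ C k) {i j : ℕ} (hij : i ≠ j) (a b : ℕ) :
    lay m r C p0 i a ≠ lay m r C p0 j b := by
  wlog hlt : i < j generalizing i j a b with hw
  · exact fun hh => hw hij.symm b a (by omega) hh.symm
  cases j with
  | zero => omega
  | succ j =>
    cases i with
    | zero => exact hCp _ _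
    | succ i =>
      intro hh
      have h1 : qq m (kp r i) (off m i) a = qq m (kp r j) (off m j) b := hC.injective hh
      cases j with
      | zero => omega
      | succ j =>
        cases i with
        | zero =>
          have h2 := qq_mod hm (κ := kp r 0) (o := off m 0) (a := a) (off_le m _)
          rw [h1, qq_mod hm (off_le m _)] at h2
          have h3 := Nat.mod_lt a hm
          change m + b % m = 0 + a % m at h2
          omega
        | succ i =>
          have h2 := qq_div hm (κ := kp r (i + 1)) (o := off m (i + 1)) (a := a) (off_le m _)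
          rw [h1, qq_div hm (off_le m _)] at h2
          exact kp_disjoint hr (by omega) _ _ h2

theorem lay_compat {m r L : ℕ} (hm : 0 < m) (hr : 2 ≤ r) (hL : L = m * r) {C p0 : ℕ → ℕ}
    (hC : StrictMono C) (hCb : ∀ j, C j / (L + 2 * m) = j / (2 * m))
    (hp0b : ∀ n, p0 n / (L + 2 * m) = n / L) (j : ℕ) :
    (∀ n k, n / L < k / m → lay m r C p0 j n < lay m r C p0 (j + 1) k) ∧
    (∀ n k, k / m < n / L → lay m r C p0 (j + 1) k < lay m r C p0 j n) := by
  have hdiv : ∀ n, n / L = n / m / r := fun n => by rw [hL, Nat.div_div_eq_div_mul]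
  cases j with
  | zero =>
    have h1 : ∀ k, lay m r C p0 1 k / (L + 2 * m) = k / m := by
      intro k
      show C (qq m (kp r 0) (off m 0) k) / (L + 2 * m) = k / m
      rw [hCb, qq_div hm (off_le m _)]
      rfl
    have h2 : ∀ n, lay m r C p0 0 n / (L + 2 * m) = n / L := hp0b
    constructor
    · intro n k hnk
      by_contra hne
      have h3 := Nat.div_le_div_right (c := L + 2 * m) (not_lt.1 hne)
      rw [h1, h2] at h3
      omega
    · intro n k hnk
      by_contra hne
      have h3 := Nat.div_le_div_right (c := L + 2 * m) (not_lt.1 hne)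
      rw [h1, h2] at h3
      omega
  | succ j =>
    constructor
    · intro n k hnk
      apply hC
      apply qq_lt hm (off_le m _)
      rw [hdiv] at hnk
      exact kp_lt1 hr j hnk
    · intro n k hnk
      apply hC
      apply qq_lt hm (off_le m _)
      rw [hdiv] at hnk
      exact kp_lt2 hr j hnk

end Pool.Agent.Work.MP_194f66_an
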