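import Pool.Agent.Work.MP_194f66_an.Basic

open scoped InnerProductSpace ComplexConjugate
open ContinuousLinearMap InnerProductSpace

namespace Pool.Agent.Work.MP_194f66_an

/-- Upper triangular operators. -/
def UT (T : Op) : Prop := ∀ i j, j < i → ent T i j = 0

theorem orthonormal_e : Orthonormal ℂ e := by
  rw [orthonormal_iff_ite]
  intro i j
  rw [inner_e_left, e_apply]

theorem inner_adj_mul (A : Op) (x y : H) : ⟪(adjoint A * A) x, y⟫_ℂ = ⟪A x, A y⟫_ℂ := by
  rw [← ContinuousLinearMap.adjoint_inner_left]; rfl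

theorem eq_zero_of_inner_e {x : H} (h : ∀ n, ⟪e n, x⟫_ℂ = 0) : x = 0 := by
  ext n
  have := h n
  rw [inner_e_left] at this
  rw [this]; rfl

theorem qr (A A' : Op) (h1 : A * A' = 1) (h2 : A' * A = 1) :
    ∃ T T' : Op, UT T ∧ UT T' ∧ T * T' = 1 ∧ T' * T = 1 ∧ adjoint T * T = adjoint A * A := by
  have hA'A : ∀ x, A' (A x) = x := fun x => by
    have := congrArg (fun S : Op => S x) h2
    simpa using this
  have hAA' : ∀ x, A (A' x) = x := fun x => by
    have := congrArg (fun S : Op => S x) h1
    simpa using this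
  set f : ℕ → H := fun n => A (e n) with hf
  have hli : LinearIndependent ℂ f := by
    have : f = (A : H →ₗ[ℂ] H) ∘ e := rfl
    rw [this]
    apply orthonormal_e.linearIndependent.map'
    rw [LinearMap.ker_eq_bot]
    intro x y hxy
    have : A x = A y := hxy
    rw [← hA'A x, this, hA'A]
  set g : ℕ → H := gramSchmidtNormed ℂ f with hg
  have hgo : Orthonormal ℂ g := gramSchmidtNormed_orthonormal hli
  have hspan_le : ∀ n, Submodule.span ℂ (g '' Set.Iic n) = Submodule.span ℂ (f '' Set.Iic n) := by
    intro n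
    rw [hg, span_gramSchmidtNormed, span_gramSchmidt_Iic]
  have hspan : Submodule.span ℂ (Set.range g) = Submodule.span ℂ (Set.range f) := by
    rw [hg, span_gramSchmidtNormed_range, span_gramSchmidt]
  have hbot : (Submodule.span ℂ (Set.range g))ᗮ = ⊥ := by
    rw [hspan, Submodule.eq_bot_iff]
    intro x hx
    rw [Submodule.mem_orthogonal] at hx
    have h3 : adjoint A x = 0 := by
      apply eq_zero_of_inner_e
      intro n
      rw [ContinuousLinearMap.adjoint_inner_right]
      exact hx _ (Submodule.subset_span ⟨n, rfl⟩)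
    have h4 : adjoint A' (adjoint A x) = x := by
      have : adjoint A' * adjoint A = 1 := by
        have := congrArg adjoint h1
        rw [← star_eq_adjoint, ← star_eq_adjoint]
        rw [← star_mul, h1, star_one]
      have := congrArg (fun S : Op => S x) this
      simpa using this
    rw [← h4, h3, map_zero]
  set b : HilbertBasis ℕ ℂ H := HilbertBasis.mkOfOrthogonalEqBot hgo hbot with hb
  have hbg : ∀ n, b n = g n := fun n => by
    rw [hb, HilbertBasis.coe_mkOfOrthogonalEqBot]
  set V : H →L[ℂ] H := (b.repr : H →L[ℂ] H) with hV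
  set V' : H →L[ℂ] H := (b.repr.symm : H →L[ℂ] H) with hV'
  have hVV' : ∀ x, V (V' x) = x := fun x => b.repr.apply_symm_apply x
  have hV'V : ∀ x, V' (V x) = x := fun x => b.repr.symm_apply_apply x
  refine ⟨V * A, A' * V', ?_, ?_, ?_, ?_, ?_⟩
  · intro i j hij
    have h5 : ent (V * A) i j = ⟪g i, f j⟫_ℂ := by
      have : ent (V * A) i j = (b.repr (A (e j)) : ℕ → ℂ) i := rfl
      rw [this, HilbertBasis.repr_apply_apply, hbg]
    rw [h5, hg, gramSchmidtNormed, inner_smul_left, gramSchmidt_inv_triangular ℂ f hij, mul_zero]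
  · intro i j hij
    have h6 : ent (A' * V') i j = (A' (g j) : ℕ → ℂ) i := by
      have : ent (A' * V') i j = (A' (b.repr.symm (e j)) : ℕ → ℂ) i := rfl
      rw [this]
      have : b.repr.symm (e j) = b j := by
        unfold e
        exact HilbertBasis.repr_symm_single b j
      rw [this, hbg]
    rw [h6]
    have h7 : g j ∈ Submodule.span ℂ (f '' Set.Iic j) := by
      rw [← hspan_le j]
      exact Submodule.subset_span ⟨j, Set.mem_Iic.2 le_rfl, rfl⟩
    have h8 : ∀ y ∈ Submodule.span ℂ (f '' Set.Iic j), (A' y : ℕ → ℂ) i = 0 := by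
      intro y hy
      induction hy using Submodule.span_induction with
      | mem y hy =>
        obtain ⟨k, hk, rfl⟩ := hy
        rw [hf]
        simp only
        rw [hA'A, e_apply, if_neg]
        have : k ≤ j := hk
        omega
      | zero => rw [map_zero]; rfl
      | add y z _ _ hy hz => rw [map_add, lp.coeFn_add, Pi.add_apply, hy, hz, add_zero]
      | smul a y _ hy => rw [map_smul, lp.coeFn_smul, Pi.smul_apply, hy, smul_zero]
    exact h8 _ h7
  · ext1 x
    show V (A (A' (V' x))) = x
    rw [hAA', hVV']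
  · ext1 x
    show A' (V' (V (A x))) = x
    rw [hV'V, hA'A]
  · ext1 x
    apply ext_inner_right ℂ
    intro y
    rw [inner_adj_mul, inner_adj_mul]
    exact b.repr.inner_map_map (A x) (A y)

end Pool.Agent.Work.MP_194f66_an
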