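import Pool.Agent.Work.MP_194f66_an.Layout

open scoped InnerProductSpace ComplexConjugate
open ContinuousLinearMap InnerProductSpace

namespace Pool.Agent.Work.MP_194f66_an

theorem telescope (hM : Halving) (s m r : ℕ) (hm : 0 < m) (hr : 2 ≤ r) (hL : 2 ^ s = m * r)
    {ν : ℝ} (hν : ν = 28 ^ 2 * (28 ^ 2 + 1) / m) (hν1 : 3 * ν ≤ 1 / 50)
    (hs : 2 ^ s * (3 * ν) ^ 2 ≤ 1 / 1000000) :
    ∃ N : ℕ, ∀ (C p0 : ℕ → ℕ), StrictMono C → ∀ (hp0 : StrictMono p0),
      (∀ n k, p0 n ≠ C k) → (∀ j, C j / (2 ^ s + 2 * m) = j / (2 * m)) →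
      (∀ n, p0 n / (2 ^ s + 2 * m) = n / 2 ^ s) →
      ∀ T T' : Op, Inv T T' → ‖T‖ ≤ 28 → ‖T'‖ ≤ 28 →
      ∃ E1 E2 : Op, El Set.univ N E1 ∧ El Set.univ N E2 ∧ E1 = amb p0 hp0.injective T * E2 := by
  obtain ⟨N, hN⟩ := stepD hM s m hm hν hν1 hs
  refine ⟨N, fun C p0 hC hp0 hCp hCb hp0b T T' hT hTn hTn' => ?_⟩
  have hstep : ∀ A : {A : Op // ∃ A', Inv A A' ∧ ‖A‖ ≤ 28 ∧ ‖A'‖ ≤ 28},
      ∃ B : {A : Op // ∃ A', Inv A A' ∧ ‖A‖ ≤ 28 ∧ ‖A'‖ ≤ 28},
        ∀ (p c : ℕ → ℕ) (hp : StrictMono p) (hc : StrictMono c), (∀ n k, p n ≠ c k) →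
          (∀ n j, n / 2 ^ s < j / m → p n < c j) → (∀ n j, j / m < n / 2 ^ s → c j < p n) →
          El (Set.range p ∪ Set.range c) N
            (amb p hp.injective A.1 * amb c hc.injective B.1) := by
    rintro ⟨A, A', hA, hA1, hA2⟩
    obtain ⟨B, B', hB, hB1, hB2, hBE⟩ := hN A A' hA hA1 hA2
    exact ⟨⟨B, B', hB, hB1, hB2⟩, hBE⟩
  choose f hf using hstep
  set seq : ℕ → {A : Op // ∃ A', Inv A A' ∧ ‖A‖ ≤ 28 ∧ ‖A'‖ ≤ 28} :=
    fun n => f^[n] ⟨T, T', hT, hTn, hTn'⟩ with hseq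
  have hsucc : ∀ j, seq (j + 1) = f (seq j) := fun j => Function.iterate_succ_apply' f j _
  obtain ⟨E1, E2, h1, h2, h3⟩ := swindle (N := N) (lay m r C p0)
    (lay_strictMono hm hr hC hp0) (fun i j hij a b => lay_disjoint hm hr hC hCp hij a b)
    (fun j => (seq j).1) (fun j => by
      have h4 := lay_compat (L := 2 ^ s) hm hr hL hC hCb hp0b j
      rw [hsucc]
      exact hf (seq j) _ _ (lay_strictMono hm hr hC hp0 j) (lay_strictMono hm hr hC hp0 (j + 1))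
        (fun a b => lay_disjoint hm hr hC hCp (by omega) a b) h4.1 h4.2)
  exact ⟨E1, E2, h1, h2, h3⟩

theorem ent_emb_mul {p : ℕ → ℕ} (hp : Function.Injective p) (A : Op) (i j : ℕ) :
    ent (A * emb p hp) i j = ent A i (p j) := by
  show ((A (emb p hp (e j)) : H) : ℕ → ℂ) i = _
  rw [emb_e]; rfl

theorem compl_sum {p c : ℕ → ℕ} (hp : Function.Injective p) (hc : Function.Injective c)
    (hpc : ∀ n k, p n ≠ c k) (hcov : ∀ a, (∀ k, a ≠ c k) → ∃ n, p n = a) :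
    emb p hp * adjoint (emb p hp) + emb c hc * adjoint (emb c hc) = 1 := by
  apply op_ext
  intro a
  show emb p hp (adjoint (emb p hp) (e a)) + emb c hc (adjoint (emb c hc) (e a)) = e a
  by_cases h : ∃ k, a = c k
  · obtain ⟨k, rfl⟩ := h
    rw [adj_emb_e_zero hp (fun n hn => hpc n k hn.symm), adj_emb_e, map_zero, emb_e, zero_add]
  · push Not at h
    obtain ⟨n, rfl⟩ := hcov a h
    rw [adj_emb_e_zero hc (fun k hk => hpc n k hk), adj_emb_e, map_zero, emb_e, add_zero]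

/-- Making room. -/
theorem room (hM : Halving) (s m : ℕ) (hm : 0 < m) (hL : 2 ^ s = m * 1024) {R R' : Op} {ν : ℝ}
    (h : NearU R R' ν) (hν : ν ≤ 1 / 50) (hs : 2 ^ 9 * ν ^ 2 ≤ 1 / 1000000)
    (hX : SB (fun n => n / (2 ^ s + 2 * m)) (R - 1)) :
    ∃ (C p0 : ℕ → ℕ) (_ : StrictMono C) (hp0 : StrictMono p0),
      (∀ n k, p0 n ≠ C k) ∧ (∀ j, C j / (2 ^ s + 2 * m) = j / (2 * m)) ∧
      (∀ n, p0 n / (2 ^ s + 2 * m) = n / 2 ^ s) ∧
      ∃ T T' : Op, Inv T T' ∧ ‖T‖ ≤ 28 ∧ ‖T'‖ ≤ 28 ∧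
        ∃ Z : Op, UT Z ∧ ‖Z‖ ≤ 9 / 10 ∧ amb p0 hp0.injective T = (1 + Z) * R := by
  have hg : Monotone (fun n : ℕ => n / (2 ^ s + 2 * m)) := fun a b hab => Nat.div_le_div_right hab
  obtain ⟨hR, hR'⟩ := norm_inv_of_nearU h (by linarith)
  obtain ⟨N0, hN0⟩ : ∃ N0 : ℕ, N0 = 2 ^ s + 2 * m := ⟨_, rfl⟩
  obtain ⟨X, hXdef⟩ : ∃ X : Op, X = R - 1 := ⟨_, rfl⟩
  have hX0 := hX
  rw [← hXdef] at hX
  have h1n : ‖(1 : Op)‖ ≤ 1 := ContinuousLinearMap.norm_id_le
  have hXn : ‖X‖ ≤ 21 / 10 := by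
    rw [hXdef]
    refine (norm_sub_le _ _).trans ?_
    linarith
  have hN0pos : 0 < N0 := by rw [hN0]; positivity
  -- the groups
  have hcard : Fintype.card (Fin 9 → Bool) = 512 := by simp
  let eqv : (Fin 9 → Bool) ≃ Fin 512 := Fintype.equivFinOfCardEq hcard
  let q : ℕ → (Fin 9 → Bool) → ℕ :=
    fun k i => N0 * (k / (2 * m)) + (512 * (k % (2 * m)) + (eqv i : ℕ))
  have hlt : ∀ k i, 512 * (k % (2 * m)) + (eqv i : ℕ) < N0 := by
    intro k i
    have h1 := Nat.mod_lt k (by omega : 0 < 2 * m)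
    have h2 := (eqv i).2
    rw [hN0, hL]
    omega
  have hqdiv : ∀ k i, q k i / N0 = k / (2 * m) := fun k i => by
    show (N0 * (k / (2 * m)) + (512 * (k % (2 * m)) + (eqv i : ℕ))) / N0 = _
    rw [Nat.mul_add_div hN0pos, Nat.div_eq_of_lt (hlt k i), add_zero]
  have hqmod : ∀ k i, q k i % N0 = 512 * (k % (2 * m)) + (eqv i : ℕ) := fun k i => by
    show (N0 * (k / (2 * m)) + (512 * (k % (2 * m)) + (eqv i : ℕ))) % N0 = _
    rw [Nat.mul_add_mod, Nat.mod_eq_of_lt (hlt k i)]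
  have hq : Function.Injective (fun p : ℕ × (Fin 9 → Bool) => q p.1 p.2) := by
    rintro ⟨k, i⟩ ⟨k', i'⟩ hh
    have hh' : q k i = q k' i' := hh
    have e1 : k / (2 * m) = k' / (2 * m) := by rw [← hqdiv k i, ← hqdiv k' i', hh']
    have e2 : 512 * (k % (2 * m)) + (eqv i : ℕ) = 512 * (k' % (2 * m)) + (eqv i' : ℕ) := by
      rw [← hqmod k i, ← hqmod k' i', hh']
    have h2 := (eqv i).2
    have h3 := (eqv i').2
    have e3 : k % (2 * m) = k' % (2 * m) := by omega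
    have e4 : (eqv i : ℕ) = eqv i' := by omega
    have e5 : k = k' := by
      rw [← Nat.div_add_mod k (2 * m), ← Nat.div_add_mod k' (2 * m), e1, e3]
    have e6 : i = i' := eqv.injective (Fin.ext e4)
    rw [e5, e6]
  have hqlt : ∀ k k' i i', k < k' → q k i < q k' i' := by
    intro k k' i i' hk
    have h1 : k / (2 * m) ≤ k' / (2 * m) := Nat.div_le_div_right hk.le
    rcases h1.lt_or_eq with h2 | h2
    · by_contra hne
      have h3 := Nat.div_le_div_right (c := N0) (not_lt.1 hne)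
      rw [hqdiv, hqdiv] at h3
      omega
    · show N0 * (k / (2 * m)) + (512 * (k % (2 * m)) + (eqv i : ℕ)) <
        N0 * (k' / (2 * m)) + (512 * (k' % (2 * m)) + (eqv i' : ℕ))
      have h3 := (eqv i).2
      have h4 := Nat.div_add_mod k (2 * m)
      have h5 := Nat.div_add_mod k' (2 * m)
      rw [h2] at h4 ⊢
      omega
  obtain ⟨C, hCinj, hCq, hup, -⟩ := sampling_op hM 9 q hq X ν (by linarith)
    (fun n => by rw [hXdef]; exact col_small h hX0 hg n)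
    (fun n => by rw [hXdef]; exact row_small h hX0 hg n) hs
  have hC : StrictMono C := by
    intro a b hab
    obtain ⟨i, hi⟩ := hCq a
    obtain ⟨j, hj⟩ := hCq b
    rw [hi, hj]
    exact hqlt _ _ _ _ hab
  have hCb : ∀ j, C j / N0 = j / (2 * m) := by
    intro j
    obtain ⟨i, hi⟩ := hCq j
    rw [hi, hqdiv]
  obtain ⟨p0, hp0, hpC, hcov, hp0b⟩ := exists_compl (L := 2 ^ s) (M := 2 * m) (by positivity)
    C hC (by omega) (by rw [← hN0]; exact hCb)
  rw [hN0] at hCb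
  refine ⟨C, p0, hC, hp0, hpC, hCb, hp0b, ?_⟩
  obtain ⟨J, hJ⟩ : ∃ J : Op, J = emb C hCinj := ⟨_, rfl⟩
  rw [← hJ] at hup
  obtain ⟨P, hP⟩ : ∃ P : Op, P = emb p0 hp0.injective := ⟨_, rfl⟩
  have hPJ : P * adjoint P + J * adjoint J = 1 := by
    rw [hP, hJ]; exact compl_sum _ _ hpC hcov
  have hPP : adjoint P * P = 1 := by rw [hP]; exact adj_emb_mul_emb _
  have hPn : ‖P‖ ≤ 1 := by rw [hP]; exact norm_emb_le _
  have hJn : ‖J‖ ≤ 1 := by rw [hJ]; exact norm_emb_le _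
  have hPn' : ‖adjoint P‖ ≤ 1 := by rw [norm_adj]; exact hPn
  have hJn' : ‖adjoint J‖ ≤ 1 := by rw [norm_adj]; exact hJn
  obtain ⟨hb1, hb2⟩ := sampling_bounds (w := 2 ^ 9) (by positivity) hXn hup
  have hsq : (22 : ℝ) ≤ √(2 ^ 9) := by
    apply Real.le_sqrt_of_sq_le
    norm_num
  have hsmall : ∀ A : Op, ‖((√(2 ^ 9) : ℝ) : ℂ) • A‖ ≤ 11 / 5 → ‖A‖ ≤ 1 / 10 := by
    intro A hA
    rw [norm_smul, Complex.norm_real, Real.norm_eq_abs, abs_of_nonneg (Real.sqrt_nonneg _)] at hA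
    have h1 : 22 * ‖A‖ ≤ √(2 ^ 9) * ‖A‖ := by gcongr
    have h2 : 22 * ‖A‖ ≤ 11 / 5 := h1.trans hA
    linarith
  have hJX := hsmall _ hb1
  have hXJ := hsmall _ hb2
  -- the operator T
  obtain ⟨T, hT⟩ : ∃ T : Op, T = adjoint P * R * P := ⟨_, rfl⟩
  obtain ⟨G, hG⟩ : ∃ G : Op, G = amb p0 hp0.injective T := ⟨_, rfl⟩
  have hG1 : G = 1 + P * (T - 1) * adjoint P := by rw [hG, hP]; rfl
  have hT1 : T - 1 = adjoint P * X * P := by
    rw [hT, hXdef, mul_sub, sub_mul, mul_one, hPP]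
  have hTU : UT T := by
    intro i j hij
    rw [hT, hP, ent_emb_mul, ent_adj_emb_mul]
    exact h.ut _ _ (hp0 hij)
  have hGU : UT G := by
    rw [hG1, hP]
    refine UT.one.add (UT.corner _ _ ?_)
    intro i j hij
    exact hp0.monotone ((hTU.sub UT.one).le hij)
  -- difference
  have hΞ : R - G = J * (adjoint J * X) + P * adjoint P * (X * J) * adjoint J := by
    have e1 : R - G = X - (P * adjoint P) * X * (P * adjoint P) := by
      rw [hG1, hT1, hXdef]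
      simp only [mul_assoc]
      abel
    have e2 : P * adjoint P = 1 - J * adjoint J := by rw [← hPJ]; abel
    rw [e1, e2]
    noncomm_ring
  have hΞn : ‖R - G‖ ≤ 2 / 10 := by
    rw [hΞ]
    refine (norm_add_le _ _).trans ?_
    have a1 : ‖J * (adjoint J * X)‖ ≤ 1 / 10 := by
      refine (norm_mul_le _ _).trans ?_
      calc ‖J‖ * ‖adjoint J * X‖ ≤ 1 * (1 / 10) := by gcongr
        _ = 1 / 10 := by norm_num
    have a2 : ‖P * adjoint P * (X * J) * adjoint J‖ ≤ 1 / 10 := by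
      calc ‖P * adjoint P * (X * J) * adjoint J‖ ≤ ‖P‖ * ‖adjoint P‖ * ‖X * J‖ * ‖adjoint J‖ := by
            refine (norm_mul_le _ _).trans ?_
            gcongr
            refine (norm_mul_le _ _).trans ?_
            gcongr
            exact norm_mul_le _ _
        _ ≤ 1 * 1 * (1 / 10) * 1 := by gcongr
        _ = 1 / 10 := by norm_num
    linarith
  obtain ⟨Z, hZ⟩ : ∃ Z : Op, Z = -((R - G) * R') := ⟨_, rfl⟩
  have hZU : UT Z := by rw [hZ]; exact ((h.ut.sub hGU).mul h.ut').neg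
  have hZn : ‖Z‖ ≤ 9 / 10 := by
    rw [hZ, norm_neg]
    refine (norm_mul_le _ _).trans ?_
    calc ‖R - G‖ * ‖R'‖ ≤ (2 / 10) * (11 / 10) := by gcongr
      _ ≤ 9 / 10 := by norm_num
  have hGZ : G = (1 + Z) * R := by
    have : (R - G) * R' * R = R - G := by rw [mul_assoc, h.mul', mul_one]
    rw [hZ, add_mul, neg_mul, this, one_mul]; abel
  obtain ⟨W, hW, hWn⟩ := exists_inv_bound hZU hZn
  have hGW : Inv G (R' * W) := by rw [hGZ]; exact hW.mul_inv h.toInv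
  -- inverse of T
  have hGP : G * P = P * T := by
    rw [hG1, add_mul, one_mul, mul_assoc, hPP, mul_one, mul_sub, mul_one]; abel
  have hPG : adjoint P * G = T * adjoint P := by
    rw [hG1, mul_add, mul_one]
    have : adjoint P * (P * (T - 1) * adjoint P) = (adjoint P * P) * (T - 1) * adjoint P := by
      simp only [mul_assoc]
    rw [this, hPP, one_mul, sub_mul, one_mul]; abel
  refine ⟨T, adjoint P * (R' * W) * P, ⟨hTU, ?_, ?_, ?_⟩, ?_, ?_, Z, hZU, hZn, by rw [← hG, hGZ]⟩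
  · intro i j hij
    rw [hP, ent_emb_mul, ent_adj_emb_mul]
    exact hGW.ut' _ _ (hp0 hij)
  · calc T * (adjoint P * (R' * W) * P) = (T * adjoint P) * (R' * W) * P := by
          simp only [mul_assoc]
      _ = adjoint P * (G * (R' * W)) * P := by rw [← hPG]; simp only [mul_assoc]
      _ = 1 := by rw [hGW.mul, mul_one, hPP]
  · calc adjoint P * (R' * W) * P * T = adjoint P * (R' * W) * (P * T) := by
          simp only [mul_assoc]
      _ = adjoint P * ((R' * W) * G) * P := by rw [← hGP]; simp only [mul_assoc]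
      _ = 1 := by rw [hGW.mul', mul_one, hPP]
  · rw [hT]
    calc ‖adjoint P * R * P‖ ≤ ‖adjoint P‖ * ‖R‖ * ‖P‖ := by
          refine (norm_mul_le _ _).trans ?_
          gcongr
          exact norm_mul_le _ _
      _ ≤ 1 * (11 / 10) * 1 := by gcongr
      _ ≤ 28 := by norm_num
  · calc ‖adjoint P * (R' * W) * P‖ ≤ ‖adjoint P‖ * (‖R'‖ * ‖W‖) * ‖P‖ := by
          refine (norm_mul_le _ _).trans ?_
          gcongr
          refine (norm_mul_le _ _).trans ?_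
          gcongr
          exact norm_mul_le _ _
      _ ≤ 1 * ((11 / 10) * 10) * 1 := by gcongr
      _ ≤ 28 := by norm_num

end Pool.Agent.Work.MP_194f66_an
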