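import Pool.Agent.Work.MP_194f66_an.Combine

open scoped InnerProductSpace ComplexConjugate
open ContinuousLinearMap InnerProductSpace

namespace Pool.Agent.Work.MP_194f66_an

theorem amb_prodSeq (p : ℕ → ℕ) (hp : Function.Injective p) (R : ℕ → Op) (n : ℕ) :
    amb p hp (prodSeq R n) = prodSeq (fun i => amb p hp (R i)) n := by
  induction n with
  | zero => exact amb_one p hp
  | succ n ih => rw [prodSeq, amb_mul, ih]; rfl

theorem stepD (hM : Halving) (s m : ℕ) (hm : 0 < m) {ν : ℝ}
    (hν : ν = 28 ^ 2 * (28 ^ 2 + 1) / m) (hν1 : 3 * ν ≤ 1 / 50)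
    (hs : 2 ^ s * (3 * ν) ^ 2 ≤ 1 / 1000000) :
    ∃ N : ℕ, ∀ T T' : Op, Inv T T' → ‖T‖ ≤ 28 → ‖T'‖ ≤ 28 →
      ∃ S S' : Op, Inv S S' ∧ ‖S‖ ≤ 28 ∧ ‖S'‖ ≤ 28 ∧
        ∀ (p c : ℕ → ℕ) (hp : StrictMono p) (hc : StrictMono c), (∀ n k, p n ≠ c k) →
          (∀ n j, n / 2 ^ s < j / m → p n < c j) → (∀ n j, j / m < n / 2 ^ s → c j < p n) →
          El (Set.range p ∪ Set.range c) N (amb p hp.injective T * amb c hc.injective S) := by
  have h2s : (0 : ℕ) < 2 ^ s := by positivity
  have hg : Monotone (fun n : ℕ => n / 2 ^ s) := fun a b hab => Nat.div_le_div_right hab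
  obtain ⟨N1, hN1⟩ := El.pinch (2 ^ s) h2s (11 / 10)
  have hν0 : 0 ≤ ν := by rw [hν]; positivity
  refine ⟨m * (N1 + 13), fun T T' hT hTn hTn' => ?_⟩
  obtain ⟨R, R', hR, hTR⟩ := factor hT (by norm_num : (1 : ℝ) ≤ 28) hTn hTn' m hm
  have hex : ∀ i : ℕ, ∃ S S' : Op, Inv S S' ∧ ‖S‖ ≤ 28 ∧ ‖S'‖ ≤ 28 ∧
      (i < m → ∀ (p c : ℕ → ℕ) (hp : StrictMono p) (hc : StrictMono c), (∀ n k, p n ≠ c k) →
        (∀ n k, n / 2 ^ s < k → p n < c k) → (∀ n k, k < n / 2 ^ s → c k < p n) →
        El (Set.range p ∪ Set.range c) (N1 + 13)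
          (amb p hp.injective (R i) * amb c hc.injective S)) := by
    intro i
    by_cases hi : i < m
    · have hRi : NearU (R i) (R' i) ν := by rw [hν]; exact hR i hi
      obtain ⟨V, V', hV, hVSB, hRV, -⟩ := remove_blocks hg hRi (by linarith)
      obtain ⟨S, S', hS, hSn, hSn', hSE⟩ := exchange hM s hV hν1 hs hVSB
      refine ⟨S, S', hS, hSn, hSn', fun _ p c hp hc hpc h1 h2 => ?_⟩
      have e1 : amb p hp.injective (R i) * amb c hc.injective S =
          amb p hp.injective (pinch (fun n => n / 2 ^ s) (R i)) *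
            (amb p hp.injective V * amb c hc.injective S) := by
        conv_lhs => rw [hRV, amb_mul]
        rw [mul_assoc]
      rw [e1]
      obtain ⟨hRn, hRn'⟩ := norm_inv_of_nearU hRi (by linarith)
      exact (hSE p c hp hc hpc h1 h2).mul
        (El.amb hp Set.subset_union_left (hN1 (R i) (R' i) hRi.toInv hRn hRn'))
    · have h1n : ‖(1 : Op)‖ ≤ 28 := ContinuousLinearMap.norm_id_le.trans (by norm_num)
      exact ⟨1, 1, Inv.one, h1n, h1n, fun h => absurd h hi⟩
  choose S S' hS hSn hSn' hSE using hex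
  refine ⟨dS hm S, dS hm S', dS_inv hm hS, norm_dS_le hm (by norm_num) hSn,
    norm_dS_le hm (by norm_num) hSn', ?_⟩
  intro p c hp hc hpc h1 h2
  rw [dS_eq_prodSeq, hTR]
  have key : ∀ n, n ≤ m → El (Set.range p ∪ Set.range c) (n * (N1 + 13))
      (amb p hp.injective (prodSeq R n) * amb c hc.injective
        (prodSeq (fun i => amb (ap m i) (ap_strictMono hm i).injective (S i)) n)) := by
    intro n
    induction n with
    | zero =>
      intro _
      show El _ (0 * (N1 + 13)) (amb p hp.injective 1 * amb c hc.injective 1)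
      rw [amb_one, amb_one, mul_one, Nat.zero_mul]
      exact rfl
    | succ n ih =>
      intro hn
      have hnm : n < m := hn
      have ih' := ih (by omega)
      have e1 : amb p hp.injective (prodSeq R (n + 1)) * amb c hc.injective
          (prodSeq (fun i => amb (ap m i) (ap_strictMono hm i).injective (S i)) (n + 1)) =
          (amb p hp.injective (R n) *
            amb c hc.injective (amb (ap m n) (ap_strictMono hm n).injective (S n))) *
          (amb p hp.injective (prodSeq R n) * amb c hc.injective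
            (prodSeq (fun i => amb (ap m i) (ap_strictMono hm i).injective (S i)) n)) := by
        rw [prodSeq, prodSeq, amb_mul, amb_mul]
        rw [mul_assoc, ← mul_assoc (amb p hp.injective (prodSeq R n)),
          amb_comm hp.injective hc.injective hpc (prodSeq R n)]
        simp only [mul_assoc]
      rw [e1, amb_amb]
      have hc' : StrictMono (fun k => c (ap m n k)) := hc.comp (ap_strictMono hm n)
      have h3 := hSE n hnm p (fun k => c (ap m n k)) hp hc' (fun a b => hpc a _)
        (fun a k hak => h1 a _ (by rw [ap_div hnm]; exact hak))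
        (fun a k hak => h2 a _ (by rw [ap_div hnm]; exact hak))
      have hsub : Set.range p ∪ Set.range (fun k => c (ap m n k)) ⊆
          Set.range p ∪ Set.range c := by
        apply Set.union_subset_union_right
        rintro _ ⟨k, rfl⟩
        exact ⟨_, rfl⟩
      have h4 := ih'.mul (h3.mono hsub)
      have e2 : (n + 1) * (N1 + 13) = (N1 + 13) + n * (N1 + 13) := by ring
      rw [e2]
      exact h4
  exact key m le_rfl

end Pool.Agent.Work.MP_194f66_an
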