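import Pool.Agent.Work.MP_194f66_an.StepD

open scoped InnerProductSpace ComplexConjugate
open ContinuousLinearMap InnerProductSpace

namespace Pool.Agent.Work.MP_194f66_an

theorem ent_adj_emb_mul {p : ℕ → ℕ} (hp : Function.Injective p) (A : Op) (i j : ℕ) :
    ent (adjoint (emb p hp) * A) i j = ent A (p i) j := by
  show ((adjoint (emb p hp) (A (e j)) : H) : ℕ → ℂ) i = _
  rw [adj_emb_apply]; rfl

theorem swindle {N : ℕ} (p : ℕ → ℕ → ℕ) (hp : ∀ j, StrictMono (p j))
    (hd : ∀ i j, i ≠ j → ∀ a b, p i a ≠ p j b) (T : ℕ → Op)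
    (hT : ∀ j, El (Set.range (p j) ∪ Set.range (p (j+1))) N
      (amb (p j) (hp j).injective (T j) * amb (p (j+1)) (hp (j+1)).injective (T (j+1)))) :
    ∃ E1 E2 : Op, El Set.univ N E1 ∧ El Set.univ N E2 ∧
      E1 = amb (p 0) (hp 0).injective (T 0) * E2 := by
  classical
  set lab : ℕ → ℕ := fun a => if h : ∃ j, a ∈ Set.range (p j) then h.choose else 0 with hlabdef
  have hlab : ∀ a j, a ∈ Set.range (p j) → lab a = j := by
    intro a j haj
    have h : ∃ j, a ∈ Set.range (p j) := ⟨j, haj⟩
    have h1 : lab a = h.choose := by rw [hlabdef]; exact dif_pos h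
    have h2 := h.choose_spec
    rw [h1]
    by_contra hne
    obtain ⟨x, hx⟩ := haj
    obtain ⟨y, hy⟩ := h2
    exact hd _ _ hne y x (hy.trans hx.symm)
  obtain ⟨τ, hτdef⟩ : ∃ τ : ℕ → Op, τ = fun j => emb (p j) (hp j).injective * (T j - 1) *
    adjoint (emb (p j) (hp j).injective) := ⟨_, rfl⟩
  have hamb : ∀ j, amb (p j) (hp j).injective (T j) = 1 + τ j := by
    intro j; rw [hτdef]; rfl
  have hτ : ∀ j a b, ent (τ j) a b ≠ 0 → lab a = j ∧ lab b = j := by
    intro j a b hab
    rw [hτdef] at hab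
    obtain ⟨a', b', rfl, rfl, -⟩ := ent_corner_ne _ _ hab
    exact ⟨hlab _ _ ⟨a', rfl⟩, hlab _ _ ⟨b', rfl⟩⟩
  have hτl : ∀ j a b, lab a ≠ j → ent (τ j) a b = 0 := by
    intro j a b h
    by_contra hne
    exact h (hτ j a b hne).1
  have hττ : ∀ i j, i ≠ j → τ i * τ j = 0 := by
    intro i j hij
    rw [hτdef]
    calc _ = emb (p i) (hp i).injective * (T i - 1) *
          (adjoint (emb (p i) (hp i).injective) * emb (p j) (hp j).injective) * (T j - 1) *
          adjoint (emb (p j) (hp j).injective) := by simp only [mul_assoc]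
      _ = 0 := by rw [adj_emb_mul_emb_disjoint _ _ (hd i j hij)]; simp
  have hprod : ∀ j, amb (p j) (hp j).injective (T j) *
      amb (p (j+1)) (hp (j+1)).injective (T (j+1)) = 1 + τ j + τ (j+1) := by
    intro j
    rw [hamb, hamb, mul_add, add_mul (1 : Op) (τ j) (τ (j+1)), hττ j (j+1) (by omega)]
    simp
  -- first direct sum
  obtain ⟨E1, hE1, hE1'⟩ := El.dsum (fun a => lab a / 2)
    (fun i => Set.range (p (2 * i)) ∪ Set.range (p (2 * i + 1)))
    (fun i a ha => by
      rcases ha with ha | ha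
      · show lab a / 2 = i
        rw [hlab _ _ ha]; omega
      · show lab a / 2 = i
        rw [hlab _ _ ha]; omega)
    (fun i => amb (p (2 * i)) (hp (2 * i)).injective (T (2 * i)) *
      amb (p (2 * i + 1)) (hp (2 * i + 1)).injective (T (2 * i + 1))) (fun i => hT (2 * i))
  obtain ⟨E2, hE2, hE2'⟩ := El.dsum (fun a => (lab a - 1) / 2)
    (fun i => Set.range (p (2 * i + 1)) ∪ Set.range (p (2 * i + 1 + 1)))
    (fun i a ha => by
      rcases ha with ha | ha
      · show (lab a - 1) / 2 = i
        rw [hlab _ _ ha]; omega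
      · show (lab a - 1) / 2 = i
        rw [hlab _ _ ha]; omega)
    (fun i => amb (p (2 * i + 1)) (hp (2 * i + 1)).injective (T (2 * i + 1)) *
      amb (p (2 * i + 1 + 1)) (hp (2 * i + 1 + 1)).injective (T (2 * i + 1 + 1)))
    (fun i => hT (2 * i + 1))
  have e1 : ∀ a b, ent E1 a b = ent 1 a b + ent (τ (lab a)) a b := by
    intro a b
    rw [hE1' a b]
    by_cases hab : lab a / 2 = lab b / 2
    · rw [if_pos hab]
      show ent (amb (p (2 * (lab a / 2))) (hp _).injective (T (2 * (lab a / 2))) *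
        amb (p (2 * (lab a / 2) + 1)) (hp _).injective (T (2 * (lab a / 2) + 1))) a b = _
      rw [hprod, ent_add, ent_add]
      rcases Nat.even_or_odd' (lab a) with ⟨i, hi | hi⟩
      · have h1 : lab a / 2 = i := by omega
        rw [h1, hτl (2 * i + 1) a b (by omega), ← hi, add_zero]
      · have h1 : lab a / 2 = i := by omega
        rw [h1, hτl (2 * i) a b (by omega), ← hi, add_zero]
    · rw [if_neg hab]
      have h1 : ent (τ (lab a)) a b = 0 := by
        by_contra hne
        exact hab (by rw [(hτ _ _ _ hne).2])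
      have h2 : ent 1 a b = 0 := by
        rw [ent_one, if_neg]
        rintro rfl
        exact hab rfl
      rw [h1, h2, add_zero]
  have e2 : ∀ a b, ent E2 a b = ent 1 a b + if lab a = 0 then 0 else ent (τ (lab a)) a b := by
    intro a b
    rw [hE2' a b]
    by_cases hab : (lab a - 1) / 2 = (lab b - 1) / 2
    · rw [if_pos hab]
      show ent (amb (p (2 * ((lab a - 1) / 2) + 1)) (hp _).injective
          (T (2 * ((lab a - 1) / 2) + 1)) *
        amb (p (2 * ((lab a - 1) / 2) + 1 + 1)) (hp _).injective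
          (T (2 * ((lab a - 1) / 2) + 1 + 1))) a b = _
      rw [hprod, ent_add, ent_add]
      by_cases h0 : lab a = 0
      · rw [if_pos h0, hτl _ a b (by omega), hτl _ a b (by omega)]
        ring
      · rw [if_neg h0]
        rcases Nat.even_or_odd' (lab a) with ⟨i, hi | hi⟩
        · have h1 : 2 * ((lab a - 1) / 2) + 1 + 1 = lab a := by omega
          rw [h1, hτl (2 * ((lab a - 1) / 2) + 1) a b (by omega)]
          ring
        · have h1 : 2 * ((lab a - 1) / 2) + 1 = lab a := by omega
          rw [hτl (2 * ((lab a - 1) / 2) + 1 + 1) a b (by omega), h1]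
          ring
    · rw [if_neg hab]
      have h1 : (if lab a = 0 then 0 else ent (τ (lab a)) a b) = 0 := by
        split_ifs
        · rfl
        · by_contra hne
          exact hab (by rw [(hτ _ _ _ hne).2])
      have h2 : ent 1 a b = 0 := by
        rw [ent_one, if_neg]
        rintro rfl
        exact hab rfl
      rw [h1, h2, add_zero]
  refine ⟨E1, E2, hE1.mono (Set.subset_univ _), hE2.mono (Set.subset_univ _), ?_⟩
  have h3 : adjoint (emb (p 0) (hp 0).injective) * E2 = adjoint (emb (p 0) (hp 0).injective) := by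
    apply ext_ent
    intro i b
    rw [ent_adj_emb_mul, e2, if_pos (hlab _ _ ⟨i, rfl⟩), add_zero, ← ent_adj_emb_mul, mul_one]
  have h4 : τ 0 * E2 = τ 0 := by
    rw [hτdef]
    show emb (p 0) (hp 0).injective * (T 0 - 1) * adjoint (emb (p 0) (hp 0).injective) * E2 = _
    rw [mul_assoc, h3]
  rw [hamb, add_mul, one_mul, h4]
  apply ext_ent
  intro a b
  rw [ent_add, e1, e2]
  by_cases h0 : lab a = 0
  · rw [if_pos h0, h0]; ring
  · rw [if_neg h0, hτl 0 a b h0]; ring

end Pool.Agent.Work.MP_194f66_an
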